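import Pool.Agent.Lib_MP_1209e6_tw.C2

/-! PIECE C7: perturbation of quotients; square roots. -/

set_option autoImplicit false

open Filter Topology

namespace Pool.Agent.AbPencil

private theorem C7_exists_int_le (n : WithTop ℤ) : ∃ m : ℤ, (m : WithTop ℤ) ≤ n := by
  induction n using WithTop.recTopCoe with
  | top => exact ⟨0, le_top⟩
  | coe n => exact ⟨n, le_rfl⟩

/-- Perturbation of a quotient. Proof. `tw_perturb_ne` for `s`, and `tw_perturb` for `p` and `s` with large bounds:
`p(F')/s(F') - p(F)/s(F) = (p(F') s(F) - p(F) s(F')) / (s(F) s(F'))`, numerator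
`(p(F') - p(F)) s(F) - p(F) (s(F') - s(F))`; the order of `s(F')` equals that of `s(F)` if `s(F') - s(F)` has larger order
(`meromorphicOrderAt_add_eq_left_of_lt` or similar). -/
theorem tw_perturb_div {ι : Type} [Finite ι] (p s : MvPolynomial ι ℂ) (z₀ : ℂ) (F : ℂ → ι → ℂ)
    (hF : ∀ i, MeromorphicAt (fun z => F z i) z₀)
    (hs : ∀ᶠ z in 𝓝[≠] z₀, MvPolynomial.aeval (F z) s ≠ 0) (B : ℤ) :
    ∃ Λ : ℤ, ∀ F' : ℂ → ι → ℂ, (∀ i, MeromorphicAt (fun z => F' z i) z₀) →
      (∀ i, (Λ : WithTop ℤ) ≤ meromorphicOrderAt (fun z => F' z i - F z i) z₀) →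
      (∀ᶠ z in 𝓝[≠] z₀, MvPolynomial.aeval (F' z) s ≠ 0) ∧
      (B : WithTop ℤ) ≤ meromorphicOrderAt
        (fun z => MvPolynomial.aeval (F' z) p / MvPolynomial.aeval (F' z) s -
          MvPolynomial.aeval (F z) p / MvPolynomial.aeval (F z) s) z₀ := by
  have ms := tw_mero s z₀ F hF
  have mp := tw_mero p z₀ F hF
  have hne := (meromorphicOrderAt_ne_top_iff_eventually_ne_zero ms).2 hs
  obtain ⟨n, hn⟩ := WithTop.ne_top_iff_exists.1 hne
  obtain ⟨k, hk⟩ := C7_exists_int_le (meromorphicOrderAt (fun z => MvPolynomial.aeval (F z) p) z₀)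
  obtain ⟨Λ1, h1⟩ := tw_perturb p z₀ F hF (B + n)
  obtain ⟨Λ2, h2⟩ := tw_perturb s z₀ F hF (max (n + 1) (B + 2 * n - k))
  obtain ⟨Λ3, h3⟩ := tw_perturb_ne s z₀ F hF hs
  refine ⟨max Λ1 (max Λ2 Λ3), fun F' hF' h => ?_⟩
  have q1 : Λ1 ≤ max Λ1 (max Λ2 Λ3) := le_max_left _ _
  have q2 : Λ2 ≤ max Λ1 (max Λ2 Λ3) := (le_max_left _ _).trans (le_max_right _ _)
  have q3 : Λ3 ≤ max Λ1 (max Λ2 Λ3) := (le_max_right _ _).trans (le_max_right _ _)
  have k1 := h1 F' hF' fun i => le_trans (by exact_mod_cast q1) (h i)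
  have k2 := h2 F' hF' fun i => le_trans (by exact_mod_cast q2) (h i)
  have k3 := h3 F' hF' fun i => le_trans (by exact_mod_cast q3) (h i)
  refine ⟨k3, ?_⟩
  have ms' := tw_mero s z₀ F' hF'
  have mp' := tw_mero p z₀ F' hF'
  have mds : MeromorphicAt
      (fun z => MvPolynomial.aeval (F' z) s - MvPolynomial.aeval (F z) s) z₀ := ms'.sub ms
  have mdp : MeromorphicAt
      (fun z => MvPolynomial.aeval (F' z) p - MvPolynomial.aeval (F z) p) z₀ := mp'.sub mp
  -- order of `s(F')`
  have e : (fun z => MvPolynomial.aeval (F' z) s) =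
      (fun z => MvPolynomial.aeval (F z) s) +
        fun z => MvPolynomial.aeval (F' z) s - MvPolynomial.aeval (F z) s := by
    funext z
    rw [Pi.add_apply]
    ring
  have hlt : meromorphicOrderAt (fun z => MvPolynomial.aeval (F z) s) z₀ <
      meromorphicOrderAt
        (fun z => MvPolynomial.aeval (F' z) s - MvPolynomial.aeval (F z) s) z₀ := by
    rw [← hn]
    refine lt_of_lt_of_le ?_ k2
    rw [WithTop.coe_lt_coe]
    exact lt_of_lt_of_le (lt_add_one n) (le_max_left _ _)
  have hos' : meromorphicOrderAt (fun z => MvPolynomial.aeval (F' z) s) z₀ = n := by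
    rw [e, meromorphicOrderAt_add_eq_left_of_lt mds hlt, ← hn]
  set Q : ℂ → ℂ := fun z => MvPolynomial.aeval (F' z) p / MvPolynomial.aeval (F' z) s -
          MvPolynomial.aeval (F z) p / MvPolynomial.aeval (F z) s with hQ
  have mQ : MeromorphicAt Q z₀ := (mp'.div ms').sub (mp.div ms)
  have mss : MeromorphicAt ((fun z => MvPolynomial.aeval (F z) s) *
      fun z => MvPolynomial.aeval (F' z) s) z₀ := ms.mul ms'
  -- numerator
  set N : ℂ → ℂ := ((fun z => MvPolynomial.aeval (F' z) p - MvPolynomial.aeval (F z) p) *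
      fun z => MvPolynomial.aeval (F z) s) +
      -((fun z => MvPolynomial.aeval (F z) p) *
        fun z => MvPolynomial.aeval (F' z) s - MvPolynomial.aeval (F z) s) with hN
  have hNo : ((B + 2 * n : ℤ) : WithTop ℤ) ≤ meromorphicOrderAt N z₀ := by
    have o1 : ((B + 2 * n : ℤ) : WithTop ℤ) ≤ meromorphicOrderAt
        ((fun z => MvPolynomial.aeval (F' z) p - MvPolynomial.aeval (F z) p) *
          fun z => MvPolynomial.aeval (F z) s) z₀ := by
      rw [meromorphicOrderAt_mul mdp ms, ← hn]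
      have hB : ((B + n : ℤ) : WithTop ℤ) + ((n : ℤ) : WithTop ℤ) ≤
          meromorphicOrderAt
            (fun z => MvPolynomial.aeval (F' z) p - MvPolynomial.aeval (F z) p) z₀ +
          ((n : ℤ) : WithTop ℤ) := by gcongr
      refine le_trans ?_ hB
      rw [← WithTop.coe_add, WithTop.coe_le_coe]
      linarith
    have o2 : ((B + 2 * n : ℤ) : WithTop ℤ) ≤ meromorphicOrderAt
        (-((fun z => MvPolynomial.aeval (F z) p) *
        fun z => MvPolynomial.aeval (F' z) s - MvPolynomial.aeval (F z) s)) z₀ := by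
      rw [← meromorphicOrderAt_neg, meromorphicOrderAt_mul mp mds]
      have hB : ((k : ℤ) : WithTop ℤ) + ((max (n + 1) (B + 2 * n - k) : ℤ) : WithTop ℤ) ≤
          meromorphicOrderAt (fun z => MvPolynomial.aeval (F z) p) z₀ +
          meromorphicOrderAt
            (fun z => MvPolynomial.aeval (F' z) s - MvPolynomial.aeval (F z) s) z₀ :=
        add_le_add hk k2
      refine le_trans ?_ hB
      rw [← WithTop.coe_add, WithTop.coe_le_coe]
      have := le_max_right (n + 1) (B + 2 * n - k)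
      linarith
    exact (le_min o1 o2).trans
      (meromorphicOrderAt_add (mdp.mul ms) ((mp.mul mds).neg))
  have hcong : (Q * ((fun z => MvPolynomial.aeval (F z) s) *
      fun z => MvPolynomial.aeval (F' z) s)) =ᶠ[𝓝[≠] z₀] N := by
    filter_upwards [hs, k3] with z hz hz'
    simp only [hQ, hN, Pi.mul_apply, Pi.add_apply, Pi.neg_apply]
    field_simp
    ring
  have hord := meromorphicOrderAt_congr hcong
  rw [meromorphicOrderAt_mul mQ mss, meromorphicOrderAt_mul ms ms', hos', ← hn] at hord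
  rw [← hord] at hNo
  rcases hq : meromorphicOrderAt Q z₀ with _ | q
  · exact le_top
  · rw [hq] at hNo
    have h5 : ((B + 2 * n : ℤ) : WithTop ℤ) ≤ ((q + (n + n) : ℤ) : WithTop ℤ) := by
      refine hNo.trans (le_of_eq ?_)
      rw [WithTop.coe_add, WithTop.coe_add]
      rfl
    rw [WithTop.coe_le_coe] at h5
    have h6 : B ≤ q := by linarith
    exact WithTop.coe_le_coe.2 h6

/-- Proof. `(A' - A) (A' + A) = 0` off `z₀`; `A' + A = 2 A + (A' - A)` has the order of `A`, so it is not locally zero, hence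
nonzero off `z₀` (`MeromorphicAt.eventually_eq_zero_or_eventually_ne_zero`). -/
theorem tw_sq {A A' : ℂ → ℂ} {z₀ : ℂ} (hA : MeromorphicAt A z₀) (hA' : MeromorphicAt A' z₀)
    (hsq : ∀ᶠ z in 𝓝[≠] z₀, A' z ^ 2 = A z ^ 2)
    (hord : meromorphicOrderAt A z₀ < meromorphicOrderAt (fun z => A' z - A z) z₀) :
    ∀ᶠ z in 𝓝[≠] z₀, A' z = A z := by
  have m1 : MeromorphicAt (fun z => A' z - A z) z₀ := hA'.sub hA
  have m2 : MeromorphicAt (fun z => A' z + A z) z₀ := hA'.add hA
  rcases m2.eventually_eq_zero_or_eventually_ne_zero with h | h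
  · -- then `A' - A = -2 A` has the order of `A`
    exfalso
    have e : (fun z => A' z - A z) =ᶠ[𝓝[≠] z₀] ((fun _ => (-2 : ℂ)) * A) := by
      filter_upwards [h] with z hz
      rw [Pi.mul_apply]
      linear_combination hz
    have e2 := meromorphicOrderAt_congr e
    rw [meromorphicOrderAt_mul (MeromorphicAt.const _ _) hA] at e2
    have e3 : meromorphicOrderAt (fun _ : ℂ => (-2 : ℂ)) z₀ = 0 := by
      rw [← tendsto_ne_zero_iff_meromorphicOrderAt_eq_zero (MeromorphicAt.const _ _)]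
      exact ⟨-2, by norm_num, tendsto_const_nhds⟩
    rw [e3, zero_add] at e2
    rw [e2] at hord
    exact lt_irrefl _ hord
  · filter_upwards [h, hsq] with z hz hz2
    have : (A' z - A z) * (A' z + A z) = 0 := by linear_combination hz2
    exact sub_eq_zero.1 ((mul_eq_zero.1 this).resolve_right hz)

end Pool.Agent.AbPencil
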