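import Pool.Agent.Lib_MP_1209e6_tw.A1

/-! PIECE A2: choice of one constant. -/

set_option autoImplicit false

open Filter Topology

namespace Pool.Agent.AbPencil

open Tw

/-- Proof. Model: `exists_step` in `Lib_MP_1209e6_sk/Z11.lean`. If the claim is false then for all `c ∉ S` the germ
`f exp (c E)` lies in `F` = the elements algebraic over the ring generated by `x`, `y` (the closure of
`range x ∪ range y` in `AlgebraicIndependent.matroid ℂ Mer`, a field). Each `γ : ℂ` is `c - c'` with `c, c' ∉ S` (`S` and `S + γ`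
are countable, `ℂ` is not), so `exp (γ E) = (f exp (c E)) / (f exp (c' E))` is in `F`. Take `γ = τ^j`, `j < n₀ + r + 1`, with `τ : ℂ`
transcendental over `ℚ` (exists by cardinality, or `Real.pi`-free: `Algebraic.cardinalMk_lt`, or a Liouville number): by
`tw_exp_ind` these germs are algebraically independent, a contradiction to the rank `≤ n₀ + r` of `F` (as in
`exists_step`). -/
theorem tw_step {n₀ r : ℕ} (x : Fin n₀ → Mer) (y : Fin r → Mer) (S : Set ℂ) (hS : S.Countable)
    (f E : ℂ → ℂ) (hf : MeromorphicAt f 0) (hne : ∀ᶠ z in 𝓝[≠] (0 : ℂ), f z ≠ 0)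
    (hE : Differentiable ℂ E) (hc : ∃ a b, E a ≠ E b) :
    ∃ c, c ∉ S ∧ ∀ hm : MeromorphicAt (fun z => f z * Complex.exp (c * E z)) 0,
      Transcendental (Algebra.adjoin (Algebra.adjoin ℂ (Set.range x)) (Set.range y))
        (gm (fun z => f z * Complex.exp (c * E z)) hm) := by
  by_contra hcon
  push Not at hcon
  have hmer : ∀ c : ℂ, MeromorphicAt (fun z => f z * Complex.exp (c * E z)) 0 := fun c =>
    hf.mul (((hE.const_mul c).cexp).analyticAt 0).meromorphicAt
  have hmer2 : ∀ c : ℂ, MeromorphicAt (fun z => Complex.exp (c * E z)) 0 := fun c =>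
    (((hE.const_mul c).cexp).analyticAt 0).meromorphicAt
  have halg : ∀ c, c ∉ S → gm (fun z => f z * Complex.exp (c * E z)) (hmer c) ∈
      (AlgebraicIndependent.matroid ℂ Mer).closure (Set.range x ∪ Set.range y) := by
    intro c hcS
    obtain ⟨hm, h1⟩ := hcon c hcS
    have h2 : IsAlgebraic (Algebra.adjoin (Algebra.adjoin ℂ (Set.range x)) (Set.range y))
        (gm (fun z => f z * Complex.exp (c * E z)) (hmer c)) := by
      rw [Transcendental, not_not] at h1
      exact h1
    rw [AlgebraicIndependent.matroid_closure_eq, SetLike.mem_coe, Subalgebra.mem_algebraicClosure,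
      Algebra.adjoin_union_eq_adjoin_adjoin]
    exact h2
  have hcl : ∀ γ : ℂ, gm (fun z => Complex.exp (γ * E z)) (hmer2 γ) ∈
      (AlgebraicIndependent.matroid ℂ Mer).closure (Set.range x ∪ Set.range y) := by
    intro γ
    obtain ⟨c, hc1, hc2⟩ : ∃ c, c ∉ S ∧ c - γ ∉ S := by
      by_contra hcon2
      push Not at hcon2
      have h1 : (Set.univ : Set ℂ) ⊆ S ∪ (fun s => s + γ) '' S := by
        intro c _
        by_cases hcS : c ∈ S
        · exact Or.inl hcS
        · exact Or.inr ⟨c - γ, hcon2 c hcS, by simp⟩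
      exact not_countable_complex ((hS.union (hS.image _)).mono h1)
    have ha := halg c hc1
    have hb := halg (c - γ) hc2
    rw [AlgebraicIndependent.matroid_closure_eq, SetLike.mem_coe, Subalgebra.mem_algebraicClosure] at ha hb ⊢
    have hne' : gm (fun z => f z * Complex.exp ((c - γ) * E z)) (hmer (c - γ)) ≠ 0 := by
      refine gm_ne _ ?_
      filter_upwards [hne] with z hz
      exact mul_ne_zero hz (Complex.exp_ne_zero _)
    have h2 : gm (fun z => f z * Complex.exp (c * E z)) (hmer c) =
        gm (fun z => f z * Complex.exp ((c - γ) * E z)) (hmer (c - γ)) *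
          gm (fun z => Complex.exp (γ * E z)) (hmer2 γ) := by
      rw [← gm_mul (hmer (c - γ)) (hmer2 γ) ((hmer (c - γ)).mul (hmer2 γ))]
      refine gm_eq _ _ (Filter.Eventually.of_forall fun z => ?_)
      rw [mul_assoc, ← Complex.exp_add]
      congr 2
      ring
    have h3 : gm (fun z => Complex.exp (γ * E z)) (hmer2 γ) =
        (gm (fun z => f z * Complex.exp ((c - γ) * E z)) (hmer (c - γ)))⁻¹ *
          gm (fun z => f z * Complex.exp (c * E z)) (hmer c) := by
      rw [h2, ← mul_assoc, inv_mul_cancel₀ hne', one_mul]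
    rw [h3]
    exact hb.inv.mul ha
  obtain ⟨τ, hτ⟩ : ∃ τ : ℂ, Transcendental ℚ τ := by
    by_contra hcon2
    push Not at hcon2
    have h1 : (Set.univ : Set ℂ) ⊆ {x : ℂ | IsAlgebraic ℚ x} := by
      intro c _
      have h2 := hcon2 c
      rw [Transcendental, not_not] at h2
      exact h2
    exact not_countable_complex ((Algebraic.countable ℚ ℂ).mono h1)
  let M := AlgebraicIndependent.matroid ℂ Mer
  have hind := tw_exp_ind E hE hc τ hτ (n₀ + r + 1) fun j => hmer2 _
  have h1 : M.Indep (Set.range fun j : Fin (n₀ + r + 1) =>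
      gm (fun z => Complex.exp (τ ^ (j : ℕ) * E z)) (hmer2 _)) :=
    AlgebraicIndependent.matroid_indep_iff.2 (AlgebraicIndependent.to_subtype_range hind)
  have h2 : (Set.range fun j : Fin (n₀ + r + 1) =>
      gm (fun z => Complex.exp (τ ^ (j : ℕ) * E z)) (hmer2 _)) ⊆
      M.closure (Set.range x ∪ Set.range y) := by
    rintro _ ⟨j, rfl⟩
    exact hcl _
  have h3 := M.eRk_mono h2
  rw [h1.eRk_eq_encard, M.eRk_closure_eq] at h3
  have h4 : (Set.range fun j : Fin (n₀ + r + 1) =>
      gm (fun z => Complex.exp (τ ^ (j : ℕ) * E z)) (hmer2 _)).encard = (n₀ + r + 1 : ℕ) := by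
    rw [← Set.image_univ, hind.injective.encard_image]
    simp
  have h5 : M.eRk (Set.range x ∪ Set.range y) ≤ (n₀ + r : ℕ) := by
    refine (M.eRk_le_encard _).trans ((Set.encard_union_le _ _).trans ?_)
    rw [Nat.cast_add]
    refine add_le_add ?_ ?_
    · rw [← Set.image_univ]
      exact (Set.encard_image_le _ _).trans (by simp)
    · rw [← Set.image_univ]
      exact (Set.encard_image_le _ _).trans (by simp)
  rw [h4] at h3
  have h6 := h3.trans h5
  have h7 : n₀ + r + 1 ≤ n₀ + r := by exact_mod_cast h6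
  omega

end Pool.Agent.AbPencil
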