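import Mathlib

/-! Polynomials in one more variable: conversions. -/

set_option autoImplicit false

namespace Pool.Agent.AbPencil

/-- from `Polynomial` to `MvPolynomial` -/
theorem tw_toMv {ι : Type} (Q : Polynomial (MvPolynomial ι ℂ)) :
    ∃ Q' : MvPolynomial (ι ⊕ Fin 1) ℂ, ∀ {k : Type} [CommRing k] [Algebra ℂ k] (ρ : ι → k) (e : k),
      MvPolynomial.aeval (Sum.elim ρ fun _ => e) Q' =
        Q.eval₂ (MvPolynomial.aeval (R := ℂ) ρ).toRingHom e := by
  induction Q using Polynomial.induction_on' with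
  | add p q hp hq =>
    obtain ⟨p', hp⟩ := hp
    obtain ⟨q', hq⟩ := hq
    refine ⟨p' + q', fun ρ e => ?_⟩
    rw [map_add, hp, hq, Polynomial.eval₂_add]
  | monomial n a =>
    refine ⟨MvPolynomial.rename Sum.inl a * MvPolynomial.X (Sum.inr 0) ^ n, fun ρ e => ?_⟩
    rw [map_mul, map_pow, MvPolynomial.aeval_X, MvPolynomial.aeval_rename, Polynomial.eval₂_monomial]
    rfl

/-- from `MvPolynomial` to `Polynomial` -/
theorem tw_toPoly {ι : Type} (Q : MvPolynomial (ι ⊕ Fin 1) ℂ) :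
    ∃ Q' : Polynomial (MvPolynomial ι ℂ), ∀ {k : Type} [CommRing k] [Algebra ℂ k] (ρ : ι → k) (e : k),
      MvPolynomial.aeval (Sum.elim ρ fun _ => e) Q =
        Q'.eval₂ (MvPolynomial.aeval (R := ℂ) ρ).toRingHom e := by
  induction Q using MvPolynomial.induction_on with
  | C a =>
    refine ⟨Polynomial.C (MvPolynomial.C a), fun ρ e => ?_⟩
    rw [Polynomial.eval₂_C, MvPolynomial.aeval_C]
    exact (MvPolynomial.aeval_C ρ a).symm
  | add p q hp hq =>
    obtain ⟨p', hp⟩ := hp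
    obtain ⟨q', hq⟩ := hq
    refine ⟨p' + q', fun ρ e => ?_⟩
    rw [map_add, hp, hq, Polynomial.eval₂_add]
  | mul_X p s hp =>
    obtain ⟨p', hp⟩ := hp
    rcases s with i | i
    · refine ⟨p' * Polynomial.C (MvPolynomial.X i), fun ρ e => ?_⟩
      rw [map_mul, hp, MvPolynomial.aeval_X, Polynomial.eval₂_mul, Polynomial.eval₂_C, Sum.elim_inl]
      congr 1
      exact (MvPolynomial.aeval_X ρ i).symm
    · refine ⟨p' * Polynomial.X, fun ρ e => ?_⟩
      rw [map_mul, hp, MvPolynomial.aeval_X, Polynomial.eval₂_mul, Polynomial.eval₂_X, Sum.elim_inr]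

end Pool.Agent.AbPencil
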