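import Mathlib

/-! PIECE C2: perturbation of polynomials in meromorphic germs. -/

set_option autoImplicit false

open Filter Topology

namespace Pool.Agent.AbPencil

private theorem tw_mero_aux {ι : Type} (p : MvPolynomial ι ℂ) (z₀ : ℂ) (F : ℂ → ι → ℂ)
    (hF : ∀ i, MeromorphicAt (fun z => F z i) z₀) :
    MeromorphicAt (fun z => MvPolynomial.aeval (F z) p) z₀ := by
  induction p using MvPolynomial.induction_on with
  | C a =>
    have h : (fun z => MvPolynomial.aeval (F z) (MvPolynomial.C a)) = fun _ => a := by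
      funext z
      rw [MvPolynomial.aeval_C]
      rfl
    rw [h]
    exact MeromorphicAt.const a z₀
  | add p q hp hq =>
    have h : (fun z => MvPolynomial.aeval (F z) (p + q)) =
        (fun z => MvPolynomial.aeval (F z) p) + fun z => MvPolynomial.aeval (F z) q := by
      funext z
      rw [map_add, Pi.add_apply]
    rw [h]
    exact hp.add hq
  | mul_X p i hp =>
    have h : (fun z => MvPolynomial.aeval (F z) (p * MvPolynomial.X i)) =
        (fun z => MvPolynomial.aeval (F z) p) * fun z => F z i := by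
      funext z
      rw [map_mul, MvPolynomial.aeval_X, Pi.mul_apply]
    rw [h]
    exact hp.mul (hF i)

private theorem exists_int_le (n : WithTop ℤ) : ∃ m : ℤ, (m : WithTop ℤ) ≤ n := by
  induction n using WithTop.recTopCoe with
  | top => exact ⟨0, le_top⟩
  | coe n => exact ⟨n, le_rfl⟩

/-- If `F'` is close to `F` then `p(F')` is close to `p(F)`. Proof. `MvPolynomial.induction_on p`, for all `B`. Constants: the
difference is `0`, order `⊤`. Sums: the minimum (`meromorphicOrderAt_add`, `le_min`), `Λ` = the maximum of the two. Product with a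
variable: `p(F') F'_i - p(F) F_i = (p(F') - p(F)) (F'_i - F_i) + (p(F') - p(F)) F_i + p(F) (F'_i - F_i)`; the orders of `F_i` and `p(F)` are
bounded below by integers (or they are `⊤`). All functions are meromorphic at `z₀`. -/
theorem tw_perturb {ι : Type} [Finite ι] (p : MvPolynomial ι ℂ) (z₀ : ℂ) (F : ℂ → ι → ℂ)
    (hF : ∀ i, MeromorphicAt (fun z => F z i) z₀) (B : ℤ) :
    ∃ Λ : ℤ, ∀ F' : ℂ → ι → ℂ, (∀ i, MeromorphicAt (fun z => F' z i) z₀) →
      (∀ i, (Λ : WithTop ℤ) ≤ meromorphicOrderAt (fun z => F' z i - F z i) z₀) →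
      (B : WithTop ℤ) ≤ meromorphicOrderAt
        (fun z => MvPolynomial.aeval (F' z) p - MvPolynomial.aeval (F z) p) z₀ := by
  induction p using MvPolynomial.induction_on generalizing B with
  | C a =>
    refine ⟨0, fun F' _ _ => ?_⟩
    have h : (fun z => MvPolynomial.aeval (F' z) (MvPolynomial.C a) -
        MvPolynomial.aeval (F z) (MvPolynomial.C a)) = fun _ => (0 : ℂ) := by
      funext z
      rw [MvPolynomial.aeval_C, MvPolynomial.aeval_C, sub_self]
    rw [h]
    have h2 : meromorphicOrderAt (fun _ : ℂ => (0 : ℂ)) z₀ = ⊤ := by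
      rw [meromorphicOrderAt_eq_top_iff]
      exact Eventually.of_forall fun _ => rfl
    rw [h2]
    exact le_top
  | add p q hp hq =>
    obtain ⟨Λ1, h1⟩ := hp B
    obtain ⟨Λ2, h2⟩ := hq B
    refine ⟨max Λ1 Λ2, fun F' hF' h => ?_⟩
    have e : (fun z => MvPolynomial.aeval (F' z) (p + q) - MvPolynomial.aeval (F z) (p + q)) =
        (fun z => MvPolynomial.aeval (F' z) p - MvPolynomial.aeval (F z) p) +
          fun z => MvPolynomial.aeval (F' z) q - MvPolynomial.aeval (F z) q := by
      funext z
      rw [Pi.add_apply, map_add, map_add]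
      ring
    have k1 := h1 F' hF' fun i => le_trans (by exact_mod_cast le_max_left Λ1 Λ2) (h i)
    have k2 := h2 F' hF' fun i => le_trans (by exact_mod_cast le_max_right Λ1 Λ2) (h i)
    have m1 := (tw_mero_aux p z₀ F' hF').sub (tw_mero_aux p z₀ F hF)
    have m2 := (tw_mero_aux q z₀ F' hF').sub (tw_mero_aux q z₀ F hF)
    rw [e]
    exact (le_min k1 k2).trans (meromorphicOrderAt_add m1 m2)
  | mul_X p i hp =>
    obtain ⟨m1, hm1⟩ := exists_int_le (meromorphicOrderAt (fun z => F z i) z₀)
    obtain ⟨m2, hm2⟩ := exists_int_le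
      (meromorphicOrderAt (fun z => MvPolynomial.aeval (F z) p) z₀)
    obtain ⟨Λ1, h1⟩ := hp (max B (B - m1))
    refine ⟨max (max Λ1 0) (B - m2), fun F' hF' h => ?_⟩
    have q1 : Λ1 ≤ max (max Λ1 0) (B - m2) := le_trans (le_max_left _ _) (le_max_left _ _)
    have q2 : 0 ≤ max (max Λ1 0) (B - m2) := le_trans (le_max_right _ _) (le_max_left _ _)
    have q3 : B - m2 ≤ max (max Λ1 0) (B - m2) := le_max_right _ _
    have hd := h i
    have k1 := h1 F' hF' fun j => le_trans (by exact_mod_cast q1) (h j)
    have mp' := tw_mero_aux p z₀ F' hF'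
    have mp := tw_mero_aux p z₀ F hF
    have md : MeromorphicAt
        (fun z => MvPolynomial.aeval (F' z) p - MvPolynomial.aeval (F z) p) z₀ := mp'.sub mp
    have mi : MeromorphicAt (fun z => F' z i - F z i) z₀ := (hF' i).sub (hF i)
    have e : (fun z => MvPolynomial.aeval (F' z) (p * MvPolynomial.X i) -
        MvPolynomial.aeval (F z) (p * MvPolynomial.X i)) =
        ((fun z => MvPolynomial.aeval (F' z) p - MvPolynomial.aeval (F z) p) *
            (fun z => F' z i - F z i) +
          (fun z => MvPolynomial.aeval (F' z) p - MvPolynomial.aeval (F z) p) *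
            fun z => F z i) +
        (fun z => MvPolynomial.aeval (F z) p) * fun z => F' z i - F z i := by
      funext z
      simp only [Pi.add_apply, Pi.mul_apply, map_mul, MvPolynomial.aeval_X]
      ring
    rw [e]
    have o1 : (B : WithTop ℤ) ≤ meromorphicOrderAt
        ((fun z => MvPolynomial.aeval (F' z) p - MvPolynomial.aeval (F z) p) *
            (fun z => F' z i - F z i)) z₀ := by
      rw [meromorphicOrderAt_mul md mi]
      have hB : ((max B (B - m1) : ℤ) : WithTop ℤ) + ((max (max Λ1 0) (B - m2) : ℤ) : WithTop ℤ) ≤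
          meromorphicOrderAt
            (fun z => MvPolynomial.aeval (F' z) p - MvPolynomial.aeval (F z) p) z₀ +
          meromorphicOrderAt (fun z => F' z i - F z i) z₀ := add_le_add k1 hd
      refine le_trans ?_ hB
      rw [← WithTop.coe_add, WithTop.coe_le_coe]
      have := le_max_left B (B - m1)
      linarith
    have o2 : (B : WithTop ℤ) ≤ meromorphicOrderAt
        ((fun z => MvPolynomial.aeval (F' z) p - MvPolynomial.aeval (F z) p) *
            fun z => F z i) z₀ := by
      rw [meromorphicOrderAt_mul md (hF i)]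
      have hB : ((max B (B - m1) : ℤ) : WithTop ℤ) + ((m1 : ℤ) : WithTop ℤ) ≤
          meromorphicOrderAt
            (fun z => MvPolynomial.aeval (F' z) p - MvPolynomial.aeval (F z) p) z₀ +
          meromorphicOrderAt (fun z => F z i) z₀ := add_le_add k1 hm1
      refine le_trans ?_ hB
      rw [← WithTop.coe_add, WithTop.coe_le_coe]
      have := le_max_right B (B - m1)
      linarith
    have o3 : (B : WithTop ℤ) ≤ meromorphicOrderAt
        ((fun z => MvPolynomial.aeval (F z) p) * fun z => F' z i - F z i) z₀ := by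
      rw [meromorphicOrderAt_mul mp mi]
      have hB : ((m2 : ℤ) : WithTop ℤ) + ((max (max Λ1 0) (B - m2) : ℤ) : WithTop ℤ) ≤
          meromorphicOrderAt (fun z => MvPolynomial.aeval (F z) p) z₀ +
          meromorphicOrderAt (fun z => F' z i - F z i) z₀ := add_le_add hm2 hd
      refine le_trans ?_ hB
      rw [← WithTop.coe_add, WithTop.coe_le_coe]
      linarith
    have s1 := (le_min o1 o2).trans (meromorphicOrderAt_add (md.mul mi) (md.mul (hF i)))
    exact (le_min s1 o3).trans
      (meromorphicOrderAt_add ((md.mul mi).add (md.mul (hF i))) (mp.mul mi))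

/-- Consequence: if `p(F)` is not locally zero (so its order is an integer) then the same is true for `F'` close to `F`
(`tw_perturb` with `B` larger than the order of `p(F)`). -/
theorem tw_perturb_ne {ι : Type} [Finite ι] (p : MvPolynomial ι ℂ) (z₀ : ℂ) (F : ℂ → ι → ℂ)
    (hF : ∀ i, MeromorphicAt (fun z => F z i) z₀)
    (hp : ∀ᶠ z in 𝓝[≠] z₀, MvPolynomial.aeval (F z) p ≠ 0) :
    ∃ Λ : ℤ, ∀ F' : ℂ → ι → ℂ, (∀ i, MeromorphicAt (fun z => F' z i) z₀) →
      (∀ i, (Λ : WithTop ℤ) ≤ meromorphicOrderAt (fun z => F' z i - F z i) z₀) →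
      ∀ᶠ z in 𝓝[≠] z₀, MvPolynomial.aeval (F' z) p ≠ 0 := by
  have mp := tw_mero_aux p z₀ F hF
  have hne := (meromorphicOrderAt_ne_top_iff_eventually_ne_zero mp).2 hp
  obtain ⟨n, hn⟩ := WithTop.ne_top_iff_exists.1 hne
  obtain ⟨Λ, hΛ⟩ := tw_perturb p z₀ F hF (n + 1)
  refine ⟨Λ, fun F' hF' h => ?_⟩
  have k := hΛ F' hF' h
  have mp' := tw_mero_aux p z₀ F' hF'
  have md : MeromorphicAt
      (fun z => MvPolynomial.aeval (F' z) p - MvPolynomial.aeval (F z) p) z₀ := mp'.sub mp
  have e : (fun z => MvPolynomial.aeval (F' z) p) =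
      (fun z => MvPolynomial.aeval (F z) p) +
        fun z => MvPolynomial.aeval (F' z) p - MvPolynomial.aeval (F z) p := by
    funext z
    rw [Pi.add_apply]
    ring
  have hlt : meromorphicOrderAt (fun z => MvPolynomial.aeval (F z) p) z₀ <
      meromorphicOrderAt
        (fun z => MvPolynomial.aeval (F' z) p - MvPolynomial.aeval (F z) p) z₀ := by
    rw [← hn]
    refine lt_of_lt_of_le ?_ k
    rw [WithTop.coe_lt_coe]
    exact lt_add_one n
  have ho : meromorphicOrderAt (fun z => MvPolynomial.aeval (F' z) p) z₀ ≠ ⊤ := by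
    rw [e, meromorphicOrderAt_add_eq_left_of_lt md hlt, ← hn]
    exact WithTop.coe_ne_top
  exact (meromorphicOrderAt_ne_top_iff_eventually_ne_zero mp').1 ho

/-- Meromorphy of polynomials in meromorphic germs. -/
theorem tw_mero {ι : Type} (p : MvPolynomial ι ℂ) (z₀ : ℂ) (F : ℂ → ι → ℂ)
    (hF : ∀ i, MeromorphicAt (fun z => F z i) z₀) :
    MeromorphicAt (fun z => MvPolynomial.aeval (F z) p) z₀ :=
  tw_mero_aux p z₀ F hF

end Pool.Agent.AbPencil
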