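import Pool.Agent.Lib_MP_1209e6_tw.C1
import Pool.Agent.Lib_MP_1209e6_tw.C2
import Pool.Agent.Lib_MP_1209e6_tw.C0

/-! PIECE C3: Hensel's lemma for meromorphic germs. -/

set_option autoImplicit false

open Filter Topology

namespace Pool.Agent.AbPencil

private theorem hen_ext {β : ℂ → ℂ} {z₀ : ℂ} (hβ : MeromorphicAt β z₀)
    (h : ((1 : ℤ) : WithTop ℤ) ≤ meromorphicOrderAt β z₀) :
    ∃ g : ℂ → ℂ, AnalyticAt ℂ g z₀ ∧ g z₀ = 0 ∧ ∀ᶠ z in 𝓝[≠] z₀, β z = g z := by
  by_cases ht : meromorphicOrderAt β z₀ = ⊤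
  · exact ⟨fun _ => 0, analyticAt_const, rfl, meromorphicOrderAt_eq_top_iff.1 ht⟩
  · obtain ⟨n, hn⟩ := WithTop.ne_top_iff_exists.1 ht
    obtain ⟨g, hg, hg0, hgz⟩ := (meromorphicOrderAt_eq_int_iff hβ).1 hn.symm
    rw [← hn] at h
    have hn1 : 1 ≤ n := by exact_mod_cast h
    obtain ⟨m, rfl⟩ := Int.eq_ofNat_of_zero_le (by linarith : 0 ≤ n)
    have hm : m ≠ 0 := by
      rintro rfl
      simp at hn1
    refine ⟨fun z => (z - z₀) ^ m * g z, ((analyticAt_id.sub analyticAt_const).pow m).mul hg, ?_, ?_⟩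
    · simp only [sub_self, zero_pow hm, zero_mul]
    · filter_upwards [hgz] with z hz
      rw [hz, zpow_natCast, smul_eq_mul]

private theorem hen_hasse {R : Type} [CommRing R] (f : Polynomial R) (φ : R →+* ℂ) (e v : ℂ) :
    f.eval₂ φ (e + v) = ∑ k : Fin (f.natDegree + 2),
      (Polynomial.hasseDeriv (k : ℕ) f).eval₂ φ e * v ^ (k : ℕ) := by
  have h1 : f.eval₂ φ (e + v) = (Polynomial.taylor e (f.map φ)).eval v := by
    rw [Polynomial.taylor_eval, Polynomial.eval_map, add_comm]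
  have h2 : (Polynomial.taylor e (f.map φ)).natDegree < f.natDegree + 2 := by
    rw [Polynomial.natDegree_taylor]
    exact lt_of_le_of_lt (Polynomial.natDegree_map_le) (by omega)
  rw [h1, Polynomial.eval_eq_sum_range' h2, Finset.sum_range]
  refine Finset.sum_congr rfl fun k _ => ?_
  congr 1
  rw [Polynomial.taylor_coeff, ← Polynomial.eval_map]
  congr 1
  ext j
  simp only [Polynomial.coeff_map, Polynomial.hasseDeriv_coeff, map_mul, map_natCast]

private theorem hen_int_le (n : WithTop ℤ) : ∃ m : ℤ, (m : WithTop ℤ) ≤ n := by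
  induction n using WithTop.recTopCoe with
  | top => exact ⟨0, le_top⟩
  | coe n => exact ⟨n, le_rfl⟩

private theorem hen_mero_pow (z₀ : ℂ) (m : ℕ) : MeromorphicAt (fun z : ℂ => (z - z₀) ^ m) z₀ :=
  ((analyticAt_id.sub analyticAt_const).pow m).meromorphicAt

private theorem hen_ord_pow (z₀ : ℂ) (m : ℕ) :
    meromorphicOrderAt (fun z : ℂ => (z - z₀) ^ m) z₀ = ((m : ℤ) : WithTop ℤ) := by
  rw [meromorphicOrderAt_eq_int_iff (hen_mero_pow z₀ m)]
  exact ⟨fun _ => 1, analyticAt_const, one_ne_zero, Eventually.of_forall fun z => by simp⟩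

private theorem hen_ord {A W H : ℂ → ℂ} {z₀ : ℂ} (hA : MeromorphicAt A z₀)
    (hW : MeromorphicAt W z₀) (hH : MeromorphicAt H z₀) {a w h : ℤ}
    (oA : meromorphicOrderAt A z₀ = (a : WithTop ℤ)) (oW : meromorphicOrderAt W z₀ = (w : WithTop ℤ))
    (oH : (h : WithTop ℤ) ≤ meromorphicOrderAt H z₀) (hle : 1 ≤ a - w + h) :
    ((1 : ℤ) : WithTop ℤ) ≤ meromorphicOrderAt (A * W⁻¹ * H) z₀ := by
  rw [meromorphicOrderAt_mul (hA.mul hW.inv) hH, meromorphicOrderAt_mul hA hW.inv,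
    meromorphicOrderAt_inv, oA, oW]
  have h1 : ((a : WithTop ℤ) + -(w : WithTop ℤ)) = ((a - w : ℤ) : WithTop ℤ) := by
    rw [sub_eq_add_neg]
    rfl
  rw [h1]
  refine le_trans ?_ (add_le_add le_rfl oH)
  rw [← WithTop.coe_add, WithTop.coe_le_coe]
  exact hle

/-- Proof. Let `f_k` be the Hasse derivatives, `f(Y', e + v) = ∑_k f_k(Y', e) v^k` (`Polynomial.taylor` or
`Polynomial.hasseDeriv`), `k ≤ n`, `f_0 = f`, `f_1 = f'`. Let `c` be the order of `f'(Y, e)` (an integer by `hsep`), `ρ ≥ 0` such that the orders of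
`f_k(Y, e)`, `k ≥ 2`, are `≥ -ρ`, and `b : ℕ` with `b ≥ ρ + |c| + 1` and `b ≥ B`. By `tw_perturb` (for the polynomials `f_k` in the variables `Y`
and `e`: `MvPolynomial (Option ι) ℂ` or `ι ⊕ Unit`) there is `Λ` such that for `Y'` close to `Y`: `f(Y', e)` has order `≥ b + c + 1`,
`f'(Y', e) - f'(Y, e)` has order `≥ c + 1`, `f_k(Y', e) - f_k(Y, e)` has order `≥ -ρ`. Put `e' = e + (z - z₀)^b V`. Then
`f(Y', e') / ((z - z₀)^b f'(Y, e)) = ∑ b_k V^k`, where `b_0` has order `≥ 1`, `b_1 - 1` has order `≥ 1`, `b_k`, `k ≥ 2`, has order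
`≥ b (k - 1) - ρ - c ≥ 1`. Replace the `b_k` by analytic functions equal off `z₀` (`toMeromorphicNFAt` or
`MeromorphicNFAt`, `tendsto_nhds_iff_meromorphicOrderAt_nonneg`), with values `0, 1, 0, …` at `z₀`. `tw_ift` gives `V`. (If `f` has degree `≤ 1` add zero
coefficients: use `Fin (f.natDegree + 2)`.) The order of `e' - e = (z - z₀)^b V` is `≥ b ≥ B`. -/
theorem tw_hensel {ι : Type} [Finite ι] (f : Polynomial (MvPolynomial ι ℂ)) (z₀ : ℂ)
    (Y : ℂ → ι → ℂ) (e : ℂ → ℂ) (hY : ∀ i, MeromorphicAt (fun z => Y z i) z₀)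
    (he : MeromorphicAt e z₀)
    (hroot : ∀ᶠ z in 𝓝[≠] z₀, f.eval₂ (MvPolynomial.aeval (Y z)).toRingHom (e z) = 0)
    (hsep : ∀ᶠ z in 𝓝[≠] z₀,
      (Polynomial.derivative f).eval₂ (MvPolynomial.aeval (Y z)).toRingHom (e z) ≠ 0) (B : ℤ) :
    ∃ Λ : ℤ, ∀ Y' : ℂ → ι → ℂ, (∀ i, MeromorphicAt (fun z => Y' z i) z₀) →
      (∀ i, (Λ : WithTop ℤ) ≤ meromorphicOrderAt (fun z => Y' z i - Y z i) z₀) →
      ∃ e' : ℂ → ℂ, MeromorphicAt e' z₀ ∧
        (∀ᶠ z in 𝓝[≠] z₀, f.eval₂ (MvPolynomial.aeval (Y' z)).toRingHom (e' z) = 0) ∧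
        (B : WithTop ℤ) ≤ meromorphicOrderAt (fun z => e' z - e z) z₀ := by
  classical
  choose P hP using fun k : Fin (f.natDegree + 2) => tw_toMv (Polynomial.hasseDeriv (k : ℕ) f)
  have hF : ∀ i : ι ⊕ Fin 1, MeromorphicAt (fun z => Sum.elim (Y z) (fun _ : Fin 1 => e z) i) z₀ := by
    rintro (i | i)
    · exact hY i
    · exact he
  have mH : ∀ k, MeromorphicAt
      (fun z => MvPolynomial.aeval (Sum.elim (Y z) fun _ : Fin 1 => e z) (P k)) z₀ :=
    fun k => tw_mero (P k) z₀ (fun z => Sum.elim (Y z) fun _ : Fin 1 => e z) hF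
  -- the order `c` of the derivative
  have hsep' : ∀ᶠ z in 𝓝[≠] z₀,
      MvPolynomial.aeval (Sum.elim (Y z) fun _ : Fin 1 => e z) (P 1) ≠ 0 := by
    filter_upwards [hsep] with z hz
    rw [hP 1]
    have h1 : ((1 : Fin (f.natDegree + 2)) : ℕ) = 1 := rfl
    rw [h1, Polynomial.hasseDeriv_one]
    exact hz
  obtain ⟨c, hc⟩ := WithTop.ne_top_iff_exists.1
    ((meromorphicOrderAt_ne_top_iff_eventually_ne_zero (mH 1)).2 hsep')
  have hroot' : ∀ᶠ z in 𝓝[≠] z₀,
      MvPolynomial.aeval (Sum.elim (Y z) fun _ : Fin 1 => e z) (P 0) = 0 := by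
    filter_upwards [hroot] with z hz
    rw [hP 0]
    have h1 : ((0 : Fin (f.natDegree + 2)) : ℕ) = 0 := rfl
    rw [h1, Polynomial.hasseDeriv_zero]
    exact hz
  -- a lower bound for all orders
  choose mo hmo using fun k => hen_int_le (meromorphicOrderAt
    (fun z => MvPolynomial.aeval (Sum.elim (Y z) fun _ : Fin 1 => e z) (P k)) z₀)
  obtain ⟨ρ, hρ0, hρ⟩ : ∃ ρ : ℤ, 0 ≤ ρ ∧ ∀ k, -ρ ≤ mo k := by
    refine ⟨∑ k, |mo k|, Finset.sum_nonneg fun k _ => abs_nonneg _, fun k => ?_⟩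
    have h1 := Finset.single_le_sum (f := fun k => |mo k|) (fun k _ => abs_nonneg (mo k))
      (Finset.mem_univ k)
    have h2 := neg_abs_le (mo k)
    linarith
  obtain ⟨b, hb1, hb2⟩ : ∃ b : ℕ, ρ + |c| + 1 ≤ (b : ℤ) ∧ B ≤ (b : ℤ) := by
    refine ⟨(ρ + |c| + 1 + |B|).toNat, ?_, ?_⟩
    · have h1 := abs_nonneg c
      have h2 := abs_nonneg B
      rw [Int.toNat_of_nonneg (by linarith)]
      linarith
    · have h1 := abs_nonneg c
      have h2 := le_abs_self B
      have h3 := abs_nonneg B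
      rw [Int.toNat_of_nonneg (by linarith)]
      linarith
  choose Λ hΛ using fun k => tw_perturb (P k) z₀
    (fun z => Sum.elim (Y z) fun _ : Fin 1 => e z) hF (b + |c| + 1)
  refine ⟨∑ k, |Λ k|, fun Y' hY' hYY => ?_⟩
  have hF' : ∀ i : ι ⊕ Fin 1, MeromorphicAt (fun z => Sum.elim (Y' z) (fun _ : Fin 1 => e z) i) z₀ := by
    rintro (i | i)
    · exact hY' i
    · exact he
  have mH' : ∀ k, MeromorphicAt
      (fun z => MvPolynomial.aeval (Sum.elim (Y' z) fun _ : Fin 1 => e z) (P k)) z₀ :=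
    fun k => tw_mero (P k) z₀ (fun z => Sum.elim (Y' z) fun _ : Fin 1 => e z) hF'
  have hdiff : ∀ k, (((b : ℤ) + |c| + 1 : ℤ) : WithTop ℤ) ≤ meromorphicOrderAt
      (fun z => MvPolynomial.aeval (Sum.elim (Y' z) fun _ : Fin 1 => e z) (P k) -
        MvPolynomial.aeval (Sum.elim (Y z) fun _ : Fin 1 => e z) (P k)) z₀ := by
    intro k
    refine hΛ k (fun z => Sum.elim (Y' z) fun _ : Fin 1 => e z) hF' ?_
    rintro (i | i)
    · refine le_trans ?_ (hYY i)
      rw [WithTop.coe_le_coe]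
      have h1 := Finset.single_le_sum (f := fun k => |Λ k|) (fun k _ => abs_nonneg (Λ k))
        (Finset.mem_univ k)
      exact (le_abs_self _).trans h1
    · have h2 : meromorphicOrderAt (fun z => Sum.elim (Y' z) (fun _ : Fin 1 => e z) (Sum.inr i) -
          Sum.elim (Y z) (fun _ : Fin 1 => e z) (Sum.inr i)) z₀ = ⊤ := by
        rw [meromorphicOrderAt_eq_top_iff]
        exact Eventually.of_forall fun z => by simp
      rw [h2]
      exact le_top
  -- the coefficients of the equation for `V`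
  have mW : MeromorphicAt (fun z => (z - z₀) ^ b *
      MvPolynomial.aeval (Sum.elim (Y z) fun _ : Fin 1 => e z) (P 1)) z₀ :=
    (hen_mero_pow z₀ b).mul (mH 1)
  have oW : meromorphicOrderAt (fun z => (z - z₀) ^ b *
      MvPolynomial.aeval (Sum.elim (Y z) fun _ : Fin 1 => e z) (P 1)) z₀ =
      (((b : ℤ) + c : ℤ) : WithTop ℤ) := by
    have h1 := meromorphicOrderAt_mul (hen_mero_pow z₀ b) (mH 1)
    rw [hen_ord_pow, ← hc, ← WithTop.coe_add] at h1
    exact h1
  have key : ∀ k : Fin (f.natDegree + 2), ∃ g : ℂ → ℂ, AnalyticAt ℂ g z₀ ∧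
      g z₀ = (if k = 1 then 1 else 0) ∧ ∀ᶠ z in 𝓝[≠] z₀, (z - z₀) ^ (b * (k : ℕ)) *
        ((z - z₀) ^ b * MvPolynomial.aeval (Sum.elim (Y z) fun _ : Fin 1 => e z) (P 1))⁻¹ *
        MvPolynomial.aeval (Sum.elim (Y' z) fun _ : Fin 1 => e z) (P k) = g z := by
    intro k
    have hcc := le_abs_self c
    have hcc' := neg_abs_le c
    have hc0 := abs_nonneg c
    by_cases hk1 : k = 1
    · subst hk1
      have o1 := hen_ord (hen_mero_pow z₀ (b * ((1 : Fin (f.natDegree + 2)) : ℕ))) mW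
        ((mH' 1).sub (mH 1)) (hen_ord_pow z₀ _) oW (hdiff 1) (by
          have h1 : ((1 : Fin (f.natDegree + 2)) : ℕ) = 1 := rfl
          rw [h1, mul_one]
          linarith)
      obtain ⟨g, hg, hg0, hgz⟩ := hen_ext (((hen_mero_pow z₀ _).mul mW.inv).mul
        ((mH' 1).sub (mH 1))) o1
      refine ⟨fun z => 1 + g z, analyticAt_const.add hg, by simp [hg0], ?_⟩
      filter_upwards [hgz, hsep', self_mem_nhdsWithin] with z hz hz2 hz3
      rw [← hz]
      have h3 : z - z₀ ≠ 0 := sub_ne_zero.2 hz3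
      have h1 : ((1 : Fin (f.natDegree + 2)) : ℕ) = 1 := rfl
      simp only [Pi.mul_apply, Pi.inv_apply, Pi.sub_apply]
      rw [h1, mul_one]
      field_simp
      ring
    · have hH' : ∃ h : ℤ, (h : WithTop ℤ) ≤ meromorphicOrderAt
          (fun z => MvPolynomial.aeval (Sum.elim (Y' z) fun _ : Fin 1 => e z) (P k)) z₀ ∧
          1 ≤ ((b * (k : ℕ) : ℕ) : ℤ) - (b + c) + h := by
        by_cases hk0 : k = 0
        · subst hk0
          refine ⟨b + |c| + 1, ?_, ?_⟩
          · rw [meromorphicOrderAt_congr (f₂ := fun z =>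
              MvPolynomial.aeval (Sum.elim (Y' z) fun _ : Fin 1 => e z) (P 0) -
              MvPolynomial.aeval (Sum.elim (Y z) fun _ : Fin 1 => e z) (P 0))]
            · exact hdiff 0
            · filter_upwards [hroot'] with z hz
              rw [hz, sub_zero]
          · have h1 : ((0 : Fin (f.natDegree + 2)) : ℕ) = 0 := rfl
            rw [h1, mul_zero]
            push_cast
            linarith
        · have hk2 : 2 ≤ (k : ℕ) := by
            have h1 : (k : ℕ) ≠ 0 := fun h => hk0 (Fin.ext h)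
            have h2 : (k : ℕ) ≠ 1 := fun h => hk1 (Fin.ext h)
            omega
          refine ⟨-ρ, ?_, ?_⟩
          · have h1 : (fun z => MvPolynomial.aeval (Sum.elim (Y' z) fun _ : Fin 1 => e z) (P k)) =
                (fun z => MvPolynomial.aeval (Sum.elim (Y z) fun _ : Fin 1 => e z) (P k)) +
                fun z => MvPolynomial.aeval (Sum.elim (Y' z) fun _ : Fin 1 => e z) (P k) -
                  MvPolynomial.aeval (Sum.elim (Y z) fun _ : Fin 1 => e z) (P k) := by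
              funext z
              rw [Pi.add_apply]
              ring
            rw [h1]
            refine le_trans (le_min ?_ ?_) (meromorphicOrderAt_add (mH k) ((mH' k).sub (mH k)))
            · refine le_trans ?_ (hmo k)
              rw [WithTop.coe_le_coe]
              exact hρ k
            · refine le_trans ?_ (hdiff k)
              rw [WithTop.coe_le_coe]
              have : (0 : ℤ) ≤ b := Int.natCast_nonneg b
              linarith
          · have h1 : b * 2 ≤ b * (k : ℕ) := Nat.mul_le_mul_left b hk2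
            have h2 : ((b * 2 : ℕ) : ℤ) ≤ ((b * (k : ℕ) : ℕ) : ℤ) := by exact_mod_cast h1
            push_cast at h2 ⊢
            linarith
      obtain ⟨h, hh1, hh2⟩ := hH'
      have o1 := hen_ord (hen_mero_pow z₀ (b * (k : ℕ))) mW (mH' k) (hen_ord_pow z₀ _) oW hh1 hh2
      obtain ⟨g, hg, hg0, hgz⟩ := hen_ext (((hen_mero_pow z₀ _).mul mW.inv).mul (mH' k)) o1
      refine ⟨g, hg, by rw [hg0, if_neg hk1], ?_⟩
      filter_upwards [hgz] with z hz
      rw [← hz]
      rfl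
  choose g hg hg0 hgz using key
  obtain ⟨V, hV, hV0, hVz⟩ := tw_ift (n := f.natDegree) z₀ g hg
    (by rw [hg0, if_neg]; intro h; exact absurd (congrArg Fin.val h) (by simp))
    (by rw [hg0, if_pos rfl]; exact one_ne_zero)
  have mE : MeromorphicAt (fun z => (z - z₀) ^ b * V z) z₀ :=
    (hen_mero_pow z₀ b).mul hV.meromorphicAt
  refine ⟨fun z => e z + (z - z₀) ^ b * V z, he.add mE, ?_, ?_⟩
  · have hall : ∀ᶠ z in 𝓝[≠] z₀, ∀ k : Fin (f.natDegree + 2), (z - z₀) ^ (b * (k : ℕ)) *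
        ((z - z₀) ^ b * MvPolynomial.aeval (Sum.elim (Y z) fun _ : Fin 1 => e z) (P 1))⁻¹ *
        MvPolynomial.aeval (Sum.elim (Y' z) fun _ : Fin 1 => e z) (P k) = g k z :=
      eventually_all.2 hgz
    filter_upwards [hall, hsep', hVz.filter_mono nhdsWithin_le_nhds, self_mem_nhdsWithin] with
      z h1 h2 h3 h4
    have h5 : z - z₀ ≠ 0 := sub_ne_zero.2 h4
    have h6 : (z - z₀) ^ b * MvPolynomial.aeval (Sum.elim (Y z) fun _ : Fin 1 => e z) (P 1) ≠ 0 :=
      mul_ne_zero (pow_ne_zero _ h5) h2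
    rw [hen_hasse]
    have h7 : ∀ k : Fin (f.natDegree + 2),
        (Polynomial.hasseDeriv (k : ℕ) f).eval₂ (MvPolynomial.aeval (Y' z)).toRingHom (e z) *
          ((z - z₀) ^ b * V z) ^ (k : ℕ) =
        ((z - z₀) ^ b * MvPolynomial.aeval (Sum.elim (Y z) fun _ : Fin 1 => e z) (P 1)) *
          (g k z * V z ^ (k : ℕ)) := by
      intro k
      rw [← h1 k, ← hP k, mul_pow, ← pow_mul]
      field_simp
    rw [Finset.sum_congr rfl fun k _ => h7 k, ← Finset.mul_sum, h3, mul_zero]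
  · have h1 : (fun z => e z + (z - z₀) ^ b * V z - e z) = fun z => (z - z₀) ^ b * V z := by
      funext z
      ring
    rw [h1]
    have h2 := meromorphicOrderAt_mul (hen_mero_pow z₀ b) hV.meromorphicAt
    rw [hen_ord_pow] at h2
    have h3 : meromorphicOrderAt (fun z => (z - z₀) ^ b * V z) z₀ =
      ((b : ℤ) : WithTop ℤ) + meromorphicOrderAt V z₀ := h2
    rw [h3]
    have h4 : (0 : WithTop ℤ) ≤ meromorphicOrderAt V z₀ := hV.meromorphicOrderAt_nonneg
    calc (B : WithTop ℤ) ≤ ((b : ℤ) : WithTop ℤ) := by rw [WithTop.coe_le_coe]; exact hb2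
      _ = ((b : ℤ) : WithTop ℤ) + 0 := (add_zero _).symm
      _ ≤ _ := add_le_add le_rfl h4

end Pool.Agent.AbPencil
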