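import Pool.Agent.Lib_MP_1209e6_tw.B1

/-! PIECE B2: meromorphic functions with given jets and without other zeros and poles. -/

set_option autoImplicit false

open Filter Topology

namespace Pool.Agent.AbPencil

open Pool.Agent.AbFib Pool.Agent.CampanaFlow

/-- `exp h - 1` has at least the order of `h` -/
private theorem B2_exp {h : ℂ → ℂ} {z : ℂ} (hh : AnalyticAt ℂ h z) {n : ℕ}
    (hn : (n : ℕ∞) ≤ analyticOrderAt h z) :
    (n : ℕ∞) ≤ analyticOrderAt (fun w => Complex.exp (h w) - 1) z := by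
  rcases Nat.eq_zero_or_pos n with h0 | h0
  · subst h0
    exact zero_le
  · have hne : analyticOrderAt h z ≠ 0 := by
      intro h1
      rw [h1] at hn
      have h2 : (n : ℕ∞) = 0 := le_antisymm hn zero_le
      have h3 : n = 0 := by exact_mod_cast h2
      omega
    have hz : h z = 0 := apply_eq_zero_of_analyticOrderAt_ne_zero hne
    have hf : AnalyticAt ℂ (fun u : ℂ => Complex.exp u - 1) (h z) := by fun_prop
    have h1 := hf.analyticOrderAt_comp hh
    have h2 : (fun w => Complex.exp (h w) - 1) = (fun u : ℂ => Complex.exp u - 1) ∘ h := rfl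
    have h3 : (fun w => h w - h z) = h := by
      funext w
      rw [hz, sub_zero]
    rw [h2, h1, h3]
    have h4 : 1 ≤ analyticOrderAt (fun u : ℂ => Complex.exp u - 1) (h z) := by
      rw [Order.one_le_iff_ne_zero, hf.analyticOrderAt_ne_zero, hz, Complex.exp_zero, sub_self]
    calc (n : ℕ∞) ≤ analyticOrderAt h z := hn
      _ = 1 * analyticOrderAt h z := (one_mul _).symm
      _ ≤ _ := mul_le_mul_left h4 _

/-- the order of an analytic function as a meromorphic function -/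
private theorem B2_map {f : ℂ → ℂ} {z : ℂ} (hf : AnalyticAt ℂ f z) {n : ℕ}
    (hn : (n : ℕ∞) ≤ analyticOrderAt f z) :
    (((n : ℕ) : ℤ) : WithTop ℤ) ≤ meromorphicOrderAt f z := by
  rw [hf.meromorphicOrderAt_eq]
  cases hx : analyticOrderAt f z with
  | top => exact le_top
  | coe m =>
    rw [hx] at hn
    have h1 : n ≤ m := by exact_mod_cast hn
    rw [ENat.map_natCast]
    exact_mod_cast h1

/-- Proof. Let `ν z` = the order of `D₀ z` at `z` for `z ∈ Zb`, `0` otherwise (finite by `hne`; discrete support by `hZ`). Two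
Weierstrass products (`weierstrass`, `fl/W1`): `P = E₁ / E₂` with `meromorphicOrderAt P z = ν z` for all `z`, and `P` is analytic and
nonzero at `z ∉ Zb` (`E₁ z ≠ 0`, `E₂ z ≠ 0`; compare `exists_orders` in `sk/G.lean`). For `z ∈ Zb` the quotient `D₀ z / P` has order `0`,
so it equals, off `z`, an analytic function `g_z` with `g_z z ≠ 0`, `g_z = exp a_z` with `a_z` analytic at `z`
(`a_z = log (g_z / g_z z) + log (g_z z)`). `tw_interp` with these `a_z`, order `max 0 (Λ z - ν z)` on `Zb` and `0` off `Zb`: `l`.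
`G = P exp l`: near `z ∈ Zb`, off `z`, `G - D₀ z = P exp a_z (exp (l - a_z) - 1)` has order `≥ ν z + (Λ z - ν z)`
(`exp h - 1` has at least the order of `h` if `h z = 0`). -/
theorem tw_jets (Zb : Set ℂ) (hZ : ∀ z, ∀ᶠ w in 𝓝[≠] z, w ∉ Zb) (D₀ : ℂ → ℂ → ℂ)
    (hD : ∀ z ∈ Zb, MeromorphicAt (D₀ z) z) (hne : ∀ z ∈ Zb, ∀ᶠ w in 𝓝[≠] z, D₀ z w ≠ 0)
    (Λ : ℂ → ℤ) :
    ∃ G : ℂ → ℂ, (∀ z, MeromorphicAt G z) ∧ (∀ z, ∀ᶠ w in 𝓝[≠] z, G w ≠ 0) ∧
      (∀ z, z ∉ Zb → AnalyticAt ℂ G z ∧ G z ≠ 0) ∧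
      ∀ z ∈ Zb, (Λ z : WithTop ℤ) ≤ meromorphicOrderAt (fun w => G w - D₀ z w) z := by
  classical
  obtain ⟨ν, hνdef⟩ : ∃ ν : ℂ → ℤ, ∀ z, ν z = if z ∈ Zb then (meromorphicOrderAt (D₀ z) z).untop₀ else 0 :=
    ⟨_, fun z => rfl⟩
  have hν0 : ∀ z, z ∉ Zb → ν z = 0 := fun z hz => by rw [hνdef, if_neg hz]
  have hν1 : ∀ z ∈ Zb, meromorphicOrderAt (D₀ z) z = (ν z : WithTop ℤ) := by
    intro z hz
    have h1 : meromorphicOrderAt (D₀ z) z ≠ ⊤ :=
      (meromorphicOrderAt_ne_top_iff_eventually_ne_zero (hD z hz)).2 (hne z hz)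
    rw [hνdef, if_pos hz, WithTop.coe_untop₀_of_ne_top h1]
  have hν2 : ∀ z, ∀ᶠ w in 𝓝[≠] z, ν w = 0 := by
    intro z
    filter_upwards [hZ z] with w hw
    exact hν0 w hw
  obtain ⟨E₁, hE₁, hE₁o⟩ := weierstrass (fun z => (ν z).toNat) (by
    intro z
    filter_upwards [hν2 z] with w hw
    rw [hw]
    rfl)
  obtain ⟨E₂, hE₂, hE₂o⟩ := weierstrass (fun z => (-ν z).toNat) (by
    intro z
    filter_upwards [hν2 z] with w hw
    rw [hw]
    rfl)
  obtain ⟨P, hP⟩ : ∃ P : ℂ → ℂ, P = E₁ * E₂⁻¹ := ⟨_, rfl⟩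
  have hm1 : ∀ z, MeromorphicAt E₁ z := fun z => (hE₁.analyticAt z).meromorphicAt
  have hm2 : ∀ z, MeromorphicAt E₂⁻¹ z := fun z => (hE₂.analyticAt z).meromorphicAt.inv
  have hPm : ∀ z, MeromorphicAt P z := fun z => by
    rw [hP]
    exact (hm1 z).mul (hm2 z)
  have hPo : ∀ z, meromorphicOrderAt P z = ((ν z : ℤ) : WithTop ℤ) := by
    intro z
    rw [hP, meromorphicOrderAt_mul (hm1 z) (hm2 z), meromorphicOrderAt_inv,
      (hE₁.analyticAt z).meromorphicOrderAt_eq, (hE₂.analyticAt z).meromorphicOrderAt_eq, hE₁o, hE₂o]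
    have h10 : (ν z : ℤ) = ((ν z).toNat : ℤ) - ((-(ν z)).toNat : ℤ) := by omega
    conv_rhs => rw [h10]
    rw [sub_eq_add_neg]
    rfl
  have hPreg : ∀ z, z ∉ Zb → AnalyticAt ℂ P z ∧ P z ≠ 0 := by
    intro z hz
    have h1 : E₁ z ≠ 0 := by
      rw [← (hE₁.analyticAt z).analyticOrderAt_eq_zero, hE₁o, hν0 z hz]
      rfl
    have h2 : E₂ z ≠ 0 := by
      rw [← (hE₂.analyticAt z).analyticOrderAt_eq_zero, hE₂o, hν0 z hz]
      rfl
    rw [hP]
    exact ⟨(hE₁.analyticAt z).mul ((hE₂.analyticAt z).inv h2), mul_ne_zero h1 (inv_ne_zero h2)⟩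
  have hPne : ∀ z, ∀ᶠ w in 𝓝[≠] z, P w ≠ 0 := by
    intro z
    rw [← meromorphicOrderAt_ne_top_iff_eventually_ne_zero (hPm z), hPo]
    exact WithTop.coe_ne_top
  have hloc : ∀ z, ∃ a : ℂ → ℂ, AnalyticAt ℂ a z ∧
      (z ∈ Zb → ∀ᶠ w in 𝓝[≠] z, D₀ z w = P w * Complex.exp (a w)) := by
    intro z
    by_cases hz : z ∈ Zb
    · have hQm : MeromorphicAt (D₀ z * P⁻¹) z := (hD z hz).mul (hPm z).inv
      have hQo : meromorphicOrderAt (D₀ z * P⁻¹) z = ((0 : ℤ) : WithTop ℤ) := by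
        rw [meromorphicOrderAt_mul (hD z hz) (hPm z).inv, meromorphicOrderAt_inv, hν1 z hz, hPo]
        have h3 : (0 : ℤ) = ν z + -ν z := by omega
        rw [h3]
        rfl
      obtain ⟨g, hg, hg0, hQ⟩ := (meromorphicOrderAt_eq_int_iff hQm).1 hQo
      refine ⟨fun w => Complex.log (g w / g z) + Complex.log (g z), ?_, fun _ => ?_⟩
      · refine AnalyticAt.add (AnalyticAt.clog (hg.div_const) ?_) analyticAt_const
        rw [div_self hg0]
        exact Complex.one_mem_slitPlane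
      · have hgn : ∀ᶠ w in 𝓝[≠] z, g w ≠ 0 :=
          (hg.continuousAt.eventually_ne hg0).filter_mono nhdsWithin_le_nhds
        filter_upwards [hQ, hgn, hPne z] with w h1 h2 h3
        have h4 : D₀ z w * (P w)⁻¹ = g w := by
          have h5 : (D₀ z * P⁻¹) w = D₀ z w * (P w)⁻¹ := rfl
          rw [← h5, h1, zpow_zero, one_smul]
        rw [Complex.exp_add, Complex.exp_log (div_ne_zero h2 hg0), Complex.exp_log hg0, div_mul_cancel₀ _ hg0,
          ← h4, mul_comm, mul_assoc, inv_mul_cancel₀ h3, mul_one]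
    · exact ⟨fun _ => 0, analyticAt_const, fun h => (hz h).elim⟩
  choose a ha haD using hloc
  obtain ⟨l, hl, hlo⟩ := tw_interp (fun z => if z ∈ Zb then (Λ z - ν z).toNat else 0) (by
    intro z
    filter_upwards [hZ z] with w hw
    exact if_neg hw) a ha
  have hexp : ∀ z, AnalyticAt ℂ (fun w => Complex.exp (l w)) z := fun z => (hl.analyticAt z).cexp
  refine ⟨fun w => P w * Complex.exp (l w), fun z => (hPm z).mul (hexp z).meromorphicAt, ?_, ?_, ?_⟩
  · intro z
    filter_upwards [hPne z] with w hw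
    exact mul_ne_zero hw (Complex.exp_ne_zero _)
  · intro z hz
    exact ⟨(hPreg z hz).1.mul (hexp z), mul_ne_zero (hPreg z hz).2 (Complex.exp_ne_zero _)⟩
  · intro z hz
    have h1 := hlo z
    rw [if_pos hz] at h1
    have hla : AnalyticAt ℂ (fun w => l w - a z w) z := (hl.analyticAt z).sub (ha z)
    have h2 := B2_exp hla h1
    have h3 : AnalyticAt ℂ (fun w => Complex.exp (l w - a z w) - 1) z := hla.cexp.sub analyticAt_const
    have h4 := B2_map h3 h2
    have hea : AnalyticAt ℂ (fun w => Complex.exp (a z w)) z := (ha z).cexp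
    have h5 : meromorphicOrderAt (fun w => P w * Complex.exp (l w) - D₀ z w) z =
        meromorphicOrderAt (P * ((fun w => Complex.exp (a z w)) *
          (fun w => Complex.exp (l w - a z w) - 1))) z := by
      refine meromorphicOrderAt_congr ?_
      filter_upwards [haD z hz] with w hw
      show P w * Complex.exp (l w) - D₀ z w = P w * (Complex.exp (a z w) * (Complex.exp (l w - a z w) - 1))
      rw [hw, mul_sub, mul_one, ← Complex.exp_add, add_sub_cancel, mul_sub]
    have h6 : MeromorphicAt ((fun w => Complex.exp (a z w)) *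
        (fun w => Complex.exp (l w - a z w) - 1)) z := hea.meromorphicAt.mul h3.meromorphicAt
    rw [h5, meromorphicOrderAt_mul (hPm z) h6, hPo,
      meromorphicOrderAt_mul_of_ne_zero hea (Complex.exp_ne_zero _)]
    refine le_trans ?_ (add_le_add le_rfl h4)
    have h7 : Λ z ≤ ν z + (((Λ z - ν z).toNat : ℕ) : ℤ) := by omega
    exact_mod_cast h7

end Pool.Agent.AbPencil
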