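import Pool.Agent.Lib_MP_1209e6_fl.W1

/-! PIECE B3: the factor `E`. -/

set_option autoImplicit false

open Filter Topology

namespace Pool.Agent.AbPencil

open Pool.Agent.CampanaFlow

private theorem B3_exp_order {E : ℂ → ℂ} (hE : Differentiable ℂ E) (c : ℂ) (z : ℂ) (k : ℕ)
    (hk : (k : ℕ∞) ≤ analyticOrderAt E z) :
    ((k : ℤ) : WithTop ℤ) ≤ meromorphicOrderAt (fun w => Complex.exp (c * E w) - 1) z := by
  have hd : Differentiable ℂ (dslope Complex.exp 0) := by
    rw [← differentiableOn_univ, Complex.differentiableOn_dslope Filter.univ_mem]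
    exact Complex.differentiable_exp.differentiableOn
  have hA : Differentiable ℂ (fun w => c * dslope Complex.exp 0 (c * E w)) :=
    (hd.comp (hE.const_mul c)).const_mul c
  have e : (fun w => Complex.exp (c * E w) - 1) = E * (fun w => c * dslope Complex.exp 0 (c * E w)) := by
    funext w
    have h := sub_smul_dslope Complex.exp 0 (c * E w)
    rw [sub_zero, smul_eq_mul, Complex.exp_zero] at h
    rw [← h, Pi.mul_apply]
    ring
  have h1 : AnalyticAt ℂ E z := hE.analyticAt z
  have h2 : AnalyticAt ℂ (fun w => c * dslope Complex.exp 0 (c * E w)) z := hA.analyticAt z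
  have h3 : (k : ℕ∞) ≤ analyticOrderAt (E * (fun w => c * dslope Complex.exp 0 (c * E w))) z := by
    rw [analyticOrderAt_mul h1 h2]
    exact hk.trans le_self_add
  rw [e, (h1.mul h2).meromorphicOrderAt_eq]
  revert h3
  generalize analyticOrderAt (E * (fun w => c * dslope Complex.exp 0 (c * E w))) z = q
  intro h3
  induction q using ENat.recTopCoe with
  | top => exact le_top
  | coe n =>
    have h4 : k ≤ n := by exact_mod_cast h3
    have h5 : ((k : ℤ) : WithTop ℤ) ≤ ((n : ℤ) : WithTop ℤ) := by exact_mod_cast h4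
    exact h5

/-- Proof. For `z ∈ Zb` let `k z : ℕ` be at least `1` and at least `Λ z - (order of G i at z)` for all `i` with finite order. `weierstrass`: `E₁`
entire with order `k z` at `z ∈ Zb` and order `0` elsewhere. One of `E₁` and `E₁ * exp` is not constant (if both are constant,
then `E₁ ≠ 0` somewhere gives `exp` constant); take it as `E`. `exp (c E) - 1` has order at least `k z` at `z ∈ Zb`
(`E z = 0`; `exp u - 1 = u * (analytic)`), so `G i exp (c E) - G i = G i (exp (c E) - 1)` has order at least `Λ z`. -/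
theorem tw_factor {M : ℕ} (Zb : Set ℂ) (hZ : ∀ z, ∀ᶠ w in 𝓝[≠] z, w ∉ Zb) (G : Fin M → ℂ → ℂ)
    (hG : ∀ i z, MeromorphicAt (G i) z) (Λ : ℂ → ℤ) :
    ∃ E : ℂ → ℂ, Differentiable ℂ E ∧ (∃ a b, E a ≠ E b) ∧ (∀ z, z ∉ Zb → E z ≠ 0) ∧
      ∀ z ∈ Zb, ∀ (i : Fin M) (c : ℂ), (Λ z : WithTop ℤ) ≤
        meromorphicOrderAt (fun w => G i w * Complex.exp (c * E w) - G i w) z := by
  classical
  let o : Fin M → ℂ → ℤ := fun i z => (meromorphicOrderAt (G i) z).untopD 0
  let k : ℂ → ℕ := fun z => 1 + ∑ i, (Λ z - o i z).toNat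
  let m : ℂ → ℕ := fun z => if z ∈ Zb then k z else 0
  obtain ⟨E₁, hE₁, hord⟩ := Pool.Agent.CampanaFlow.weierstrass m
    (fun z => (hZ z).mono fun w hw => if_neg hw)
  have main : ∀ E : ℂ → ℂ, Differentiable ℂ E → (∀ z, analyticOrderAt E z = m z) → (∃ a b, E a ≠ E b) →
      ∃ E : ℂ → ℂ, Differentiable ℂ E ∧ (∃ a b, E a ≠ E b) ∧ (∀ z, z ∉ Zb → E z ≠ 0) ∧
      ∀ z ∈ Zb, ∀ (i : Fin M) (c : ℂ), (Λ z : WithTop ℤ) ≤
        meromorphicOrderAt (fun w => G i w * Complex.exp (c * E w) - G i w) z := by
    intro E hE hO hab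
    refine ⟨E, hE, hab, ?_, ?_⟩
    · intro z hz
      have h1 := hO z
      have h2 : m z = 0 := if_neg hz
      rw [h2, Nat.cast_zero, (hE.analyticAt z).analyticOrderAt_eq_zero] at h1
      exact h1
    · intro z hz i c
      have h1 : ((k z : ℕ) : ℕ∞) ≤ analyticOrderAt E z := by
        rw [hO z]
        have h2 : m z = k z := if_pos hz
        rw [h2]
      have h2 := B3_exp_order hE c z (k z) h1
      have hmer : MeromorphicAt (fun w => Complex.exp (c * E w) - 1) z := by
        have : Differentiable ℂ (fun w => Complex.exp (c * E w) - 1) :=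
          (hE.const_mul c).cexp.sub (differentiable_const _)
        exact (this.analyticAt z).meromorphicAt
      have e : (fun w => G i w * Complex.exp (c * E w) - G i w) =
          G i * (fun w => Complex.exp (c * E w) - 1) := by
        funext w
        rw [Pi.mul_apply]
        ring
      rw [e, meromorphicOrderAt_mul (hG i z) hmer]
      rcases eq_or_ne (meromorphicOrderAt (G i) z) ⊤ with h3 | h3
      · rw [h3, top_add]
        exact le_top
      · have h4 : ((o i z : ℤ) : WithTop ℤ) = meromorphicOrderAt (G i) z := by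
          change (((meromorphicOrderAt (G i) z).untopD 0 : ℤ) : WithTop ℤ) = _
          obtain ⟨n, hn⟩ := WithTop.ne_top_iff_exists.1 h3
          rw [← hn]
          rfl
        have h5 : Λ z ≤ o i z + (k z : ℤ) := by
          have h6 : (Λ z - o i z).toNat ≤ ∑ j, (Λ z - o j z).toNat :=
            Finset.single_le_sum (f := fun j => (Λ z - o j z).toNat) (fun _ _ => Nat.zero_le _) (Finset.mem_univ i)
          have h7 : Λ z - o i z ≤ ((Λ z - o i z).toNat : ℤ) := Int.self_le_toNat _
          have h8 : ((Λ z - o i z).toNat : ℤ) ≤ ((∑ j, (Λ z - o j z).toNat : ℕ) : ℤ) := by exact_mod_cast h6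
          have h9 : (k z : ℤ) = 1 + ((∑ j, (Λ z - o j z).toNat : ℕ) : ℤ) := by
            change ((1 + ∑ j, (Λ z - o j z).toNat : ℕ) : ℤ) = _
            push_cast
            ring
          linarith
        calc (Λ z : WithTop ℤ) ≤ ((o i z + (k z : ℤ) : ℤ) : WithTop ℤ) := by exact_mod_cast h5
          _ = ((o i z : ℤ) : WithTop ℤ) + ((k z : ℤ) : WithTop ℤ) := by rw [WithTop.coe_add]
          _ ≤ _ := by
            rw [h4]
            exact add_le_add le_rfl h2
  by_cases h : ∃ a b, E₁ a ≠ E₁ b
  · exact main E₁ hE₁ hord h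
  · push Not at h
    refine main (E₁ * Complex.exp) (hE₁.mul Complex.differentiable_exp) (fun z => ?_) ?_
    · rw [analyticOrderAt_mul (hE₁.analyticAt z) (Complex.differentiable_exp.analyticAt z), hord z]
      have h1 : analyticOrderAt Complex.exp z = 0 := by
        rw [(Complex.differentiable_exp.analyticAt z).analyticOrderAt_eq_zero]
        exact Complex.exp_ne_zero _
      rw [h1, add_zero]
    · have h0 : E₁ 0 ≠ 0 := by
        intro h1
        have h2 : analyticOrderAt E₁ 0 = ⊤ := by
          rw [analyticOrderAt_eq_top]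
          exact Eventually.of_forall fun w => by rw [h w 0, h1]
        rw [hord 0] at h2
        exact ENat.coe_ne_top _ h2
      refine ⟨0, 1, ?_⟩
      rw [Pi.mul_apply, Pi.mul_apply, h 1 0]
      intro h1
      have h2 := mul_left_cancel₀ h0 h1
      rw [Complex.exp_zero] at h2
      have h3 : (Real.exp 1 : ℂ) = 1 := by
        rw [Complex.ofReal_exp, Complex.ofReal_one]
        exact h2.symm
      have h4 : Real.exp 1 = 1 := by exact_mod_cast h3
      have h5 := Real.add_one_lt_exp (x := 1) one_ne_zero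
      linarith

end Pool.Agent.AbPencil
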