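import Mathlib

/-! PIECE C1: implicit functions. -/

set_option autoImplicit false

open Filter Topology

namespace Pool.Agent.AbPencil

open scoped ContDiff in
/-- Implicit function theorem for two complex variables. -/
private theorem analytic_implicit_C1 (f : ℂ × ℂ → ℂ) (hf : AnalyticAt ℂ f (0, 0))
    (h0 : f (0, 0) = 0) (hd : deriv (fun w => f (0, w)) 0 ≠ 0) :
    ∃ ψ : ℂ → ℂ, AnalyticAt ℂ ψ 0 ∧ ψ 0 = 0 ∧ ∀ᶠ z in 𝓝 0, f (z, ψ z) = 0 := by
  have hc : ContDiffAt ℂ ω f (0, 0) := hf.contDiffAt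
  have hdf : HasFDerivAt f (fderiv ℂ f (0, 0)) (0, 0) := hf.differentiableAt.hasFDerivAt
  have h1 : HasDerivAt (fun w : ℂ => f (0, w)) (fderiv ℂ f (0, 0) (0, 1)) 0 := by
    have h2 : HasFDerivAt (fun w : ℂ => ((0 : ℂ), w)) (ContinuousLinearMap.inr ℂ ℂ ℂ) 0 :=
      hasFDerivAt_prodMk_right 0 0
    have h3 := (HasFDerivAt.comp (0 : ℂ) hdf h2).hasDerivAt
    have h4 : (fderiv ℂ f (0, 0) ∘SL ContinuousLinearMap.inr ℂ ℂ ℂ) 1 =
      fderiv ℂ f (0, 0) (0, 1) := rfl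
    rw [← h4]
    exact h3
  rw [h1.deriv] at hd
  have hinv : (fderiv ℂ f (0, 0) ∘L ContinuousLinearMap.inr ℂ ℂ ℂ).IsInvertible := by
    refine ⟨ContinuousLinearEquiv.unitsEquivAut ℂ (Units.mk0 _ hd), ?_⟩
    ext
    simp [ContinuousLinearEquiv.unitsEquivAut]
  have hω : (ω : WithTop ℕ∞) ≠ 0 := by simp
  refine ⟨hc.implicitFunction hω hinv, ?_, ?_, ?_⟩
  · exact (hc.contDiffAt_implicitFunction hω hinv).analyticAt
  · exact hc.implicitFunction_apply_self hω hinv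
  · have := hc.eventually_apply_implicitFunction hω hinv
    filter_upwards [this] with z hz
    rw [hz, h0]

/-- Proof. Two-variable analytic implicit function theorem for `(z, v) ↦ ∑ b k z * v ^ k` at `(z₀, 0)`; the derivative in `v` there is
`b 1 z₀`. Compare the private lemma `analytic_implicit_H` in `Lib_MP_1209e6_sp/H.lean` (copy it). -/
theorem tw_ift {n : ℕ} (z₀ : ℂ) (b : Fin (n + 2) → ℂ → ℂ) (hb : ∀ k, AnalyticAt ℂ (b k) z₀)
    (h0 : b 0 z₀ = 0) (h1 : b 1 z₀ ≠ 0) :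
    ∃ V : ℂ → ℂ, AnalyticAt ℂ V z₀ ∧ V z₀ = 0 ∧
      ∀ᶠ z in 𝓝 z₀, ∑ k, b k z * V z ^ (k : ℕ) = 0 := by
  have hbk : ∀ k, AnalyticAt ℂ (fun p : ℂ × ℂ => b k (z₀ + p.1)) (0, 0) := by
    intro k
    have h2 : AnalyticAt ℂ (fun p : ℂ × ℂ => z₀ + p.1) ((0 : ℂ), (0 : ℂ)) :=
      analyticAt_const.add analyticAt_fst
    refine AnalyticAt.fun_comp (g := b k) (f := fun p : ℂ × ℂ => z₀ + p.1) ?_ h2
    change AnalyticAt ℂ (b k) (z₀ + 0)
    rw [add_zero]
    exact hb k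
  have hf : AnalyticAt ℂ (fun p : ℂ × ℂ => ∑ k, b k (z₀ + p.1) * p.2 ^ (k : ℕ)) (0, 0) := by
    refine Finset.analyticAt_fun_sum _ (fun k _ => ?_)
    exact (hbk k).mul (analyticAt_snd.pow _)
  have hf0 : (fun p : ℂ × ℂ => ∑ k, b k (z₀ + p.1) * p.2 ^ (k : ℕ)) (0, 0) = 0 := by
    change ∑ k, b k (z₀ + 0) * (0 : ℂ) ^ (k : ℕ) = 0
    rw [Fin.sum_univ_succ, add_zero]
    simp [h0]
  have hder : HasDerivAt (fun w : ℂ => ∑ k, b k (z₀ + 0) * w ^ (k : ℕ)) (b 1 z₀) 0 := by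
    have h3 : HasDerivAt (fun w : ℂ => ∑ k, b k (z₀ + 0) * w ^ (k : ℕ))
        (∑ k : Fin (n + 2), b k (z₀ + 0) * (((k : ℕ) : ℂ) * 0 ^ ((k : ℕ) - 1))) 0 := by
      refine HasDerivAt.fun_sum (fun k _ => ?_)
      exact (hasDerivAt_pow (k : ℕ) (0 : ℂ)).const_mul _
    have h4 : (∑ k : Fin (n + 2), b k (z₀ + 0) * (((k : ℕ) : ℂ) * 0 ^ ((k : ℕ) - 1))) =
        b 1 z₀ := by
      rw [add_zero, Finset.sum_eq_single (1 : Fin (n + 2))]
      · simp
      · intro k _ hk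
        have hk1 : (k : ℕ) ≠ 1 := by
          intro h
          apply hk
          ext
          rw [h]
          simp
        rcases Nat.eq_zero_or_pos (k : ℕ) with h | h
        · rw [h]
          simp
        · have : (k : ℕ) - 1 ≠ 0 := by omega
          rw [zero_pow this]
          simp
      · intro h
        exact absurd (Finset.mem_univ _) h
    rw [h4] at h3
    exact h3
  obtain ⟨ψ, hψ, hψ0, hψe⟩ := analytic_implicit_C1 _ hf hf0 (by
    change deriv (fun w : ℂ => ∑ k, b k (z₀ + 0) * w ^ (k : ℕ)) 0 ≠ 0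
    rw [hder.deriv]
    exact h1)
  refine ⟨fun z => ψ (z - z₀), ?_, ?_, ?_⟩
  · have h2 : AnalyticAt ℂ (fun z : ℂ => z - z₀) z₀ := analyticAt_id.sub analyticAt_const
    refine AnalyticAt.fun_comp (g := ψ) (f := fun z : ℂ => z - z₀) ?_ h2
    rw [sub_self]
    exact hψ
  · change ψ (z₀ - z₀) = 0
    rw [sub_self]
    exact hψ0
  · have h5 : Tendsto (fun z : ℂ => z - z₀) (𝓝 z₀) (𝓝 0) := by
      have h6 : ContinuousAt (fun z : ℂ => z - z₀) z₀ := by fun_prop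
      have h7 := h6.tendsto
      rwa [sub_self] at h7
    filter_upwards [h5.eventually hψe] with z hz
    have hz' : ∑ k, b k (z₀ + (z - z₀)) * ψ (z - z₀) ^ (k : ℕ) = 0 := hz
    rw [add_sub_cancel] at hz'
    exact hz'

end Pool.Agent.AbPencil
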