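import Pool.Agent.Lib_MP_1209e6_tw.Mer

/-! PIECE A1: algebraic independence of exponentials. -/

set_option autoImplicit false

open Filter Topology

namespace Pool.Agent.AbPencil

open Tw

/-- the exponent `∑ s_j τ^j` -/
private noncomputable def twLam (τ : ℂ) {n : ℕ} (s : Fin n →₀ ℕ) : ℂ := ∑ j, (s j : ℂ) * τ ^ (j : ℕ)

private theorem twLam_inj {τ : ℂ} (hτ : Transcendental ℚ τ) {n : ℕ} :
    Function.Injective (twLam τ (n := n)) := by
  intro s t hst
  rw [transcendental_iff] at hτ
  have h1 := hτ (∑ j : Fin n, Polynomial.monomial (j : ℕ) (((s j : ℚ)) - (t j : ℚ))) (by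
    rw [map_sum]
    have h2 : ∀ j : Fin n, Polynomial.aeval τ (Polynomial.monomial (j : ℕ) ((s j : ℚ) - (t j : ℚ))) =
        (s j : ℂ) * τ ^ (j : ℕ) - (t j : ℂ) * τ ^ (j : ℕ) := by
      intro j
      rw [Polynomial.aeval_monomial, map_sub, map_natCast, map_natCast, sub_mul]
    rw [Finset.sum_congr rfl fun j _ => h2 j, Finset.sum_sub_distrib]
    exact sub_eq_zero.2 hst)
  ext j
  have h3 := congrArg (fun q : Polynomial ℚ => q.coeff (j : ℕ)) h1
  simp only [Polynomial.finset_sum_coeff, Polynomial.coeff_monomial, Polynomial.coeff_zero] at h3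
  rw [Finset.sum_eq_single j] at h3
  · rw [if_pos rfl, sub_eq_zero] at h3
    exact_mod_cast h3
  · intro i _ hij
    rw [if_neg]
    intro h
    exact hij (Fin.ext h)
  · intro h
    exact absurd (Finset.mem_univ j) h

/-- the character `w ↦ exp (c w)` -/
private noncomputable def twChar (c : ℂ) : Multiplicative ℂ →* ℂ where
  toFun w := Complex.exp (c * Multiplicative.toAdd w)
  map_one' := by
    rw [toAdd_one, mul_zero, Complex.exp_zero]
  map_mul' := by
    intro a b
    rw [toAdd_mul, mul_add, Complex.exp_add]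

private theorem twChar_inj : Function.Injective twChar := by
  intro a b hab
  have h1 : (fun w : ℂ => Complex.exp (a * w)) = fun w : ℂ => Complex.exp (b * w) := by
    funext w
    exact DFunLike.congr_fun hab (Multiplicative.ofAdd w)
  have h2 : ∀ c : ℂ, deriv (fun w : ℂ => Complex.exp (c * w)) 0 = c := by
    intro c
    have h3 : HasDerivAt (fun w : ℂ => Complex.exp (c * w)) (Complex.exp (c * 0) * (c * 1)) 0 :=
      ((hasDerivAt_id (0 : ℂ)).const_mul c).cexp
    rw [h3.deriv, mul_zero, Complex.exp_zero, one_mul, mul_one]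
  rw [← h2 a, ← h2 b, h1]

private theorem tw_phi {n : ℕ} (τ : ℂ) (p : MvPolynomial (Fin n) ℂ) (w : ℂ) :
    MvPolynomial.eval (fun j : Fin n => Complex.exp (τ ^ (j : ℕ) * w)) p =
      ∑ s ∈ p.support, p.coeff s * Complex.exp (twLam τ s * w) := by
  rw [MvPolynomial.eval_eq']
  refine Finset.sum_congr rfl fun s _ => ?_
  congr 1
  rw [twLam, Finset.sum_mul, Complex.exp_sum]
  refine Finset.prod_congr rfl fun j _ => ?_
  rw [← Complex.exp_nat_mul, mul_assoc]

/-- The germs of `exp (τ^j E)`, `j < n`, are algebraically independent over `ℂ` if `τ` is transcendental over `ℚ` and `E` is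
entire and not constant. Proof. `algebraicIndependent_iff`, `aeval_gm`: let `p` be a polynomial with
`p (exp (τ^j E z)) = 0` for `z ≠ 0` near `0`. The entire function `φ w = p (exp (τ^j w)) = ∑ a_s exp (⟨s, τ⟩ w)`,
`⟨s, τ⟩ = ∑ s_j τ^j`, composed with `E` vanishes near `0` (continuity), so `φ ∘ E` is zero (identity theorem,
`AnalyticOnNhd.eq_of_eventuallyEq`) and `φ` vanishes on the range of `E`, which has an accumulation point (`E` is continuous
and not constant, `ℂ` is connected; or `E` is open), so `φ = 0`. The numbers `⟨s, τ⟩` are different for different `s` (`τ` is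
transcendental over `ℚ`). The characters `w ↦ exp (⟨s, τ⟩ w)` (monoid homomorphisms `Multiplicative ℂ →* ℂ`, different for
different exponents: compare derivatives at `0`, or evaluate) are linearly independent (`linearIndependent_monoidHom`), so
`a_s = 0`. -/
theorem tw_exp_ind (E : ℂ → ℂ) (hE : Differentiable ℂ E) (hc : ∃ a b, E a ≠ E b) (τ : ℂ)
    (hτ : Transcendental ℚ τ) (n : ℕ)
    (hm : ∀ j : Fin n, MeromorphicAt (fun z => Complex.exp (τ ^ (j : ℕ) * E z)) 0) :
    AlgebraicIndependent ℂ fun j : Fin n => gm (fun z => Complex.exp (τ ^ (j : ℕ) * E z)) (hm j) := by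
  rw [algebraicIndependent_iff]
  intro p hp
  have h1 := (aeval_gm (fun z (j : Fin n) => Complex.exp (τ ^ (j : ℕ) * E z)) hm p).1 hp
  set φ : ℂ → ℂ := fun w => ∑ s ∈ p.support, p.coeff s * Complex.exp (twLam τ s * w) with hφ
  have hφd : Differentiable ℂ φ := by
    refine Differentiable.fun_sum fun s _ => ?_
    exact (((differentiable_id).const_mul (twLam τ s)).cexp).const_mul (p.coeff s)
  have hφE : ∀ z, φ (E z) = 0 := by
    have h2 : ∀ᶠ z in 𝓝[≠] (0 : ℂ), φ (E z) = 0 := by
      filter_upwards [h1] with z hz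
      rw [← hz]
      exact (tw_phi τ p (E z)).symm
    have h3 : AnalyticOnNhd ℂ (fun z => φ (E z)) Set.univ :=
      fun z _ => (hφd.comp hE).analyticAt z
    have h4 : AnalyticOnNhd ℂ (fun _ : ℂ => (0 : ℂ)) Set.univ := analyticOnNhd_const
    have h5 := AnalyticOnNhd.eq_of_frequently_eq h3 h4 h2.frequently
    intro z
    exact congrFun h5 z
  have hφ0 : ∀ w, φ w = 0 := by
    obtain ⟨a, b, hab⟩ := hc
    have h2 : ∀ᶠ z in 𝓝[≠] a, E z ≠ E a := by
      rcases (hE.analyticAt a).eventually_eq_or_eventually_ne (analyticAt_const (v := E a)) with h | h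
      · exfalso
        have h3 : AnalyticOnNhd ℂ E Set.univ := fun z _ => hE.analyticAt z
        have h5 := AnalyticOnNhd.eq_of_eventuallyEq h3 analyticOnNhd_const h
        exact hab (congrFun h5 b).symm
      · exact h
    have h3 : Tendsto E (𝓝[≠] a) (𝓝[≠] (E a)) := by
      rw [tendsto_nhdsWithin_iff]
      exact ⟨(hE.continuous.tendsto a).mono_left nhdsWithin_le_nhds, h2⟩
    have h4 : ∃ᶠ w in 𝓝[≠] (E a), φ w = 0 :=
      h3.frequently (Filter.Frequently.of_forall hφE)
    have h5 : AnalyticOnNhd ℂ φ Set.univ := fun z _ => hφd.analyticAt z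
    have h6 := AnalyticOnNhd.eq_of_frequently_eq h5 analyticOnNhd_const h4
    intro w
    exact congrFun h6 w
  have hinj : Function.Injective fun s : Fin n →₀ ℕ => twChar (twLam τ s) :=
    twChar_inj.comp (twLam_inj hτ)
  have hli := (linearIndependent_monoidHom (Multiplicative ℂ) ℂ).comp _ hinj
  rw [linearIndependent_iff'] at hli
  have h7 := hli p.support (fun s => p.coeff s) (by
    funext w
    rw [Finset.sum_apply, Pi.zero_apply]
    exact hφ0 (Multiplicative.toAdd w))
  ext s
  rw [MvPolynomial.coeff_zero]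
  by_cases hs : s ∈ p.support
  · exact h7 s hs
  · exact MvPolynomial.notMem_support_iff.1 hs

end Pool.Agent.AbPencil
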