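import Mathlib

/-! The field of meromorphic germs at `0` (as in `sk/Z11`, made public). -/

set_option autoImplicit false

open Filter Topology

namespace Pool.Agent.AbPencil

namespace Tw

/-- functions meromorphic at `0` -/
def merA : Subalgebra ℂ (ℂ → ℂ) where
  carrier := {f | MeromorphicAt f 0}
  mul_mem' := fun h1 h2 => MeromorphicAt.mul h1 h2
  add_mem' := fun h1 h2 => MeromorphicAt.add h1 h2
  algebraMap_mem' := fun c => MeromorphicAt.const c 0

/-- the ideal of functions which vanish near `0` -/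
def nullI : Ideal merA where
  carrier := {f | ∀ᶠ z in 𝓝[≠] (0 : ℂ), (f : ℂ → ℂ) z = 0}
  zero_mem' := by
    change ∀ᶠ z in 𝓝[≠] (0 : ℂ), ((0 : merA) : ℂ → ℂ) z = 0
    exact Filter.Eventually.of_forall fun _ => rfl
  add_mem' := by
    intro f g hf hg
    change ∀ᶠ z in 𝓝[≠] (0 : ℂ), (f : ℂ → ℂ) z = 0 at hf
    change ∀ᶠ z in 𝓝[≠] (0 : ℂ), (g : ℂ → ℂ) z = 0 at hg
    change ∀ᶠ z in 𝓝[≠] (0 : ℂ), ((f + g : merA) : ℂ → ℂ) z = 0
    filter_upwards [hf, hg] with z h1 h2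
    change (f : ℂ → ℂ) z + (g : ℂ → ℂ) z = 0
    rw [h1, h2, add_zero]
  smul_mem' := by
    intro c f hf
    change ∀ᶠ z in 𝓝[≠] (0 : ℂ), (f : ℂ → ℂ) z = 0 at hf
    change ∀ᶠ z in 𝓝[≠] (0 : ℂ), ((c * f : merA) : ℂ → ℂ) z = 0
    filter_upwards [hf] with z h1
    change (c : ℂ → ℂ) z * (f : ℂ → ℂ) z = 0
    rw [h1, mul_zero]

theorem mem_nullI {f : merA} :
    f ∈ nullI ↔ ∀ᶠ z in 𝓝[≠] (0 : ℂ), (f : ℂ → ℂ) z = 0 := Iff.rfl

theorem nullI_max : nullI.IsMaximal := by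
  rw [Ideal.isMaximal_iff]
  constructor
  · intro h
    obtain ⟨z, hz⟩ := (mem_nullI.1 h).exists
    exact one_ne_zero hz
  · intro J f hJ hf hfJ
    have hm : MeromorphicAt (f : ℂ → ℂ) 0 := f.2
    rcases hm.eventually_eq_zero_or_eventually_ne_zero with h | h
    · exact absurd (mem_nullI.2 h) hf
    · have hinv : MeromorphicAt (fun z => ((f : ℂ → ℂ) z)⁻¹) 0 := hm.inv
      let g : merA := ⟨fun z => ((f : ℂ → ℂ) z)⁻¹, hinv⟩
      have h1 : 1 - g * f ∈ nullI := by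
        rw [mem_nullI]
        filter_upwards [h] with z hz
        change 1 - ((f : ℂ → ℂ) z)⁻¹ * (f : ℂ → ℂ) z = 0
        rw [inv_mul_cancel₀ hz, sub_self]
      have h2 : (1 : merA) = (1 - g * f) + g * f := by ring
      rw [h2]
      exact J.add_mem (hJ h1) (J.mul_mem_left g hfJ)

/-- the field of meromorphic germs at `0` -/
def Mer : Type := merA ⧸ nullI

noncomputable instance : Field Mer :=
  haveI := nullI_max
  Ideal.Quotient.field nullI

noncomputable instance : Algebra ℂ Mer :=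
  inferInstanceAs (Algebra ℂ (merA ⧸ nullI))

/-- the quotient map -/
noncomputable def mkM : merA →ₐ[ℂ] Mer := Ideal.Quotient.mkₐ ℂ nullI

theorem mkM_eq_zero {f : merA} : mkM f = 0 ↔ f ∈ nullI :=
  Ideal.Quotient.eq_zero_iff_mem

/-- the germ of a function -/
noncomputable def gm (f : ℂ → ℂ) (hf : MeromorphicAt f 0) : Mer := mkM ⟨f, hf⟩

theorem aeval_gm {ι : Type} (F : ℂ → ι → ℂ) (hF : ∀ i, MeromorphicAt (fun z => F z i) 0)
    (p : MvPolynomial ι ℂ) :
    MvPolynomial.aeval (fun i => gm (fun z => F z i) (hF i)) p = 0 ↔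
      ∀ᶠ z in 𝓝[≠] (0 : ℂ), MvPolynomial.eval (F z) p = 0 := by
  have h1 : MvPolynomial.aeval (fun i => gm (fun z => F z i) (hF i)) p =
      mkM (MvPolynomial.aeval (fun i => (⟨fun z => F z i, hF i⟩ : merA)) p) := by
    rw [MvPolynomial.comp_aeval_apply]
    rfl
  have h2 : ∀ z, ((MvPolynomial.aeval (fun i => (⟨fun z => F z i, hF i⟩ : merA)) p : merA) :
      ℂ → ℂ) z = MvPolynomial.eval (F z) p := by
    intro z
    have h3 := MvPolynomial.comp_aeval_apply (R := ℂ) (f := fun i => (⟨fun z => F z i, hF i⟩ : merA))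
      (((Pi.evalAlgHom ℂ (fun _ : ℂ => ℂ) z).comp merA.val)) p
    exact h3
  rw [h1, mkM_eq_zero, mem_nullI]
  exact Filter.eventually_congr (Filter.Eventually.of_forall fun z => by rw [h2 z])

theorem gm_mul {f g : ℂ → ℂ} (hf : MeromorphicAt f 0) (hg : MeromorphicAt g 0)
    (hfg : MeromorphicAt (fun z => f z * g z) 0) :
    gm (fun z => f z * g z) hfg = gm f hf * gm g hg := by
  rw [gm, gm, gm, ← map_mul]
  rfl

theorem gm_eq {f g : ℂ → ℂ} (hf : MeromorphicAt f 0) (hg : MeromorphicAt g 0)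
    (h : ∀ᶠ z in 𝓝[≠] (0 : ℂ), f z = g z) : gm f hf = gm g hg := by
  rw [gm, gm, ← sub_eq_zero, ← map_sub, mkM_eq_zero, mem_nullI]
  filter_upwards [h] with z hz
  change f z - g z = 0
  rw [hz, sub_self]

theorem gm_ne {f : ℂ → ℂ} (hf : MeromorphicAt f 0)
    (h : ∀ᶠ z in 𝓝[≠] (0 : ℂ), f z ≠ 0) : gm f hf ≠ 0 := by
  intro h0
  rw [gm, mkM_eq_zero, mem_nullI] at h0
  obtain ⟨z, h1, h2⟩ := (h0.and h).exists
  exact h2 h1

end Tw

end Pool.Agent.AbPencil
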