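import Pool.Agent.Lib_MP_1209e6_ab.N2
import Pool.Agent.Lib_MP_1209e6_sk.Defs
import Pool.Agent.Lib_MP_1209e6_tw.Mer

/-! PIECE A3: density from independence of the germs at `0`. -/

set_option autoImplicit false

open Filter Topology

namespace Pool.Agent.AbPencil

open Pool.Agent.AbFib Tw

/-- a polynomial in two groups of variables -/
private theorem exists_iter {n₀ r : ℕ} (p : MvPolynomial (Fin (n₀ + r)) ℂ) :
    ∃ P : MvPolynomial (Fin r) (MvPolynomial (Fin n₀) ℂ),
      ∀ {k : Type} [CommRing k] [Algebra ℂ k] (u : Fin n₀ → k) (v : Fin r → k),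
        MvPolynomial.aeval (Fin.append u v) p =
          MvPolynomial.eval₂ (MvPolynomial.aeval (R := ℂ) u).toRingHom v P := by
  induction p using MvPolynomial.induction_on with
  | C a =>
    refine ⟨MvPolynomial.C (MvPolynomial.C a), fun u v => ?_⟩
    rw [MvPolynomial.eval₂_C, MvPolynomial.aeval_C]
    exact (MvPolynomial.aeval_C u a).symm
  | add p q hp hq =>
    obtain ⟨P, hP⟩ := hp
    obtain ⟨Q, hQ⟩ := hq
    refine ⟨P + Q, fun u v => ?_⟩
    rw [map_add, hP, hQ, MvPolynomial.eval₂_add]
  | mul_X p s hp =>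
    obtain ⟨P, hP⟩ := hp
    refine Fin.addCases (fun a => ?_) (fun i => ?_) s
    · refine ⟨P * MvPolynomial.C (MvPolynomial.X a), fun u v => ?_⟩
      rw [map_mul, hP, MvPolynomial.aeval_X, MvPolynomial.eval₂_mul, MvPolynomial.eval₂_C,
        Fin.append_left]
      congr 1
      exact (MvPolynomial.aeval_X u a).symm
    · refine ⟨P * MvPolynomial.X i, fun u v => ?_⟩
      rw [map_mul, hP, MvPolynomial.aeval_X, MvPolynomial.eval₂_mul, MvPolynomial.eval₂_X,
        Fin.append_right]

private theorem eval₂_zero_iff {n₀ r : ℕ} {B k : Type} [CommRing B] [CommRing k] [Algebra B k]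
    (v : Fin r → k) (hv : AlgebraicIndependent B v) (φ : MvPolynomial (Fin n₀) ℂ →+* B)
    (P : MvPolynomial (Fin r) (MvPolynomial (Fin n₀) ℂ)) :
    MvPolynomial.eval₂ ((algebraMap B k).comp φ) v P = 0 ↔ ∀ α, φ (P.coeff α) = 0 := by
  rw [← MvPolynomial.eval₂_map, ← MvPolynomial.aeval_def]
  constructor
  · intro h α
    have h1 : MvPolynomial.map φ P = 0 := by
      rw [algebraicIndependent_iff] at hv
      exact hv _ h
    rw [← MvPolynomial.coeff_map, h1, MvPolynomial.coeff_zero]
  · intro h
    have h1 : MvPolynomial.map φ P = 0 := by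
      ext α
      rw [MvPolynomial.coeff_map, h, MvPolynomial.coeff_zero]
    rw [h1, map_zero]

private theorem mero_pi {m : ℕ} {F : ℂ → Fin m → ℂ} {z₀ : ℂ}
    (h : ∀ i, MeromorphicAt (fun z => F z i) z₀) : MeromorphicAt F z₀ := by
  choose k hk using h
  refine ⟨∑ i, k i, analyticAt_pi_iff.2 fun i => ?_⟩
  have h1 : k i ≤ ∑ i, k i := Finset.single_le_sum (fun _ _ => Nat.zero_le _) (Finset.mem_univ i)
  have h2 : (fun z => ((z - z₀) ^ (∑ i, k i) • F z) i) =
      fun z => (z - z₀) ^ ((∑ i, k i) - k i) * ((z - z₀) ^ k i • F z i) := by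
    funext z
    rw [Pi.smul_apply, smul_eq_mul, smul_eq_mul, ← mul_assoc, ← pow_add, Nat.sub_add_cancel h1]
  rw [h2]
  exact ((analyticAt_id.sub analyticAt_const).pow _).mul (hk i)

/-- Proof. This is the second half of the proof of `exists_indep` in `Lib_MP_1209e6_sk/Z11.lean` (with its private lemmas
`exists_iter`, `eval₂_zero_iff`, `mero_pi`; copy them). The curve is meromorphic. Write `p = ∑_α p_α(X) Y^α`. If
`p(t, d) = 0` then `p_α(t) = 0` for all `α` (`hd`), so `p_α(U) = 0` near each point (`hU`), so `p(U, D) = 0`. Conversely if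
`p(U, D) = 0` near `0` then `p_α(U) = 0` near `0` for all `α` (`hind`), so `p_α(t) = 0` (otherwise `p_α(U) ≠ 0` off `0` by
`dense_ne`, `ab/N2`), so `p(t, d) = 0`. -/
theorem tw_dense {L : Type} [Field L] [Algebra ℂ L] {n₀ M : ℕ} (t : Fin n₀ → L)
    (U : ℂ → Fin n₀ → ℂ) (hU : IsDenseCurve t U) (hUm : ∀ a, MeromorphicAt (fun w => U w a) 0)
    (d : Fin M → L) (hd : AlgebraicIndependent (Algebra.adjoin ℂ (Set.range t)) d)
    (D : ℂ → Fin M → ℂ) (hD : ∀ i z, MeromorphicAt (fun w => D w i) z)
    (hind : AlgebraicIndependent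
      (Algebra.adjoin ℂ (Set.range fun a => gm (fun w => U w a) (hUm a)))
      fun i => gm (fun w => D w i) (hD i 0)) :
    IsDenseCurve (Fin.append t d) fun z => Fin.append (U z) (D z) := by
  have hUm' : ∀ a z, MeromorphicAt (fun w => U w a) z := fun a z => by
    obtain ⟨k, hk⟩ := hU.1 z
    exact ⟨k, analyticAt_pi_iff.1 hk a⟩
  -- the subalgebra generated by a family, and the evaluation map
  have key : ∀ {k : Type} [Field k] [Algebra ℂ k] (x : Fin n₀ → k),
      ∃ φ : MvPolynomial (Fin n₀) ℂ →ₐ[ℂ] Algebra.adjoin ℂ (Set.range x),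
        ∀ q, ((φ q : Algebra.adjoin ℂ (Set.range x)) : k) = MvPolynomial.aeval x q := by
    intro k _ _ x
    refine ⟨MvPolynomial.aeval fun a => (⟨x a, Algebra.subset_adjoin ⟨a, rfl⟩⟩ :
      Algebra.adjoin ℂ (Set.range x)), fun q => ?_⟩
    exact MvPolynomial.comp_aeval_apply (R := ℂ)
      (f := fun a => (⟨x a, Algebra.subset_adjoin ⟨a, rfl⟩⟩ : Algebra.adjoin ℂ (Set.range x)))
      (Algebra.adjoin ℂ (Set.range x)).val q
  refine ⟨?_, fun p => ?_⟩
  · intro z
    refine mero_pi fun s => ?_
    refine Fin.addCases (fun a => ?_) (fun i => ?_) s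
    · simp only [Fin.append_left]
      exact hUm' a z
    · simp only [Fin.append_right]
      exact hD i z
  · obtain ⟨P, hP⟩ := exists_iter p
    have hL : MvPolynomial.aeval (Fin.append t d) p = 0 ↔
        ∀ α, MvPolynomial.aeval t (P.coeff α) = 0 := by
      obtain ⟨φ, hφ⟩ := key t
      rw [hP]
      have h1 : (MvPolynomial.aeval (R := ℂ) t).toRingHom =
          (algebraMap (Algebra.adjoin ℂ (Set.range t)) L).comp φ.toRingHom := by
        refine RingHom.ext fun q => ?_
        exact (hφ q).symm
      rw [h1, eval₂_zero_iff d hd φ.toRingHom P]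
      refine forall_congr' fun α => ?_
      rw [← hφ]
      constructor
      · intro h
        have h2 : φ (P.coeff α) = 0 := h
        rw [h2]
        rfl
      · intro h
        exact Subtype.ext h
    rw [hL]
    constructor
    · intro h0 z₀
      have h1 : ∀ᶠ z in 𝓝[≠] z₀, ∀ α ∈ P.support, MvPolynomial.eval (U z) (P.coeff α) = 0 := by
        rw [Filter.eventually_all_finset]
        intro α _
        exact (hU.2 _).1 (h0 α) z₀
      filter_upwards [h1] with z hz
      have h2 := hP (U z) (D z)
      rw [MvPolynomial.aeval_eq_eval] at h2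
      rw [h2, MvPolynomial.eval₂_eq']
      refine Finset.sum_eq_zero fun α hα => ?_
      have h3 : (MvPolynomial.aeval (R := ℂ) (U z)).toRingHom (P.coeff α) = 0 := hz α hα
      rw [h3, zero_mul]
    · intro h0 α
      obtain ⟨φ, hφ⟩ := key fun a => gm (fun w => U w a) (hUm a)
      have hF : ∀ s, MeromorphicAt (fun z => Fin.append (U z) (D z) s) 0 := by
        intro s
        refine Fin.addCases (fun a => ?_) (fun i => ?_) s
        · simp only [Fin.append_left]
          exact hUm a
        · simp only [Fin.append_right]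
          exact hD i 0
      have h1 := (aeval_gm (fun z => Fin.append (U z) (D z)) hF p).2 (h0 0)
      have h2 : (fun s => gm (fun z => Fin.append (U z) (D z) s) (hF s)) =
          Fin.append (fun a => gm (fun w => U w a) (hUm a)) fun i =>
            gm (fun w => D w i) (hD i 0) := by
        funext s
        refine Fin.addCases (fun a => ?_) (fun i => ?_) s
        · rw [Fin.append_left]
          refine gm_eq _ _ (Filter.Eventually.of_forall fun z => ?_)
          rw [Fin.append_left]
        · rw [Fin.append_right]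
          refine gm_eq _ _ (Filter.Eventually.of_forall fun z => ?_)
          rw [Fin.append_right]
      rw [h2, hP] at h1
      have h3 : (MvPolynomial.aeval (R := ℂ) fun a => gm (fun w => U w a) (hUm a)).toRingHom =
          (algebraMap (Algebra.adjoin ℂ (Set.range fun a => gm (fun w => U w a) (hUm a)))
            Mer).comp φ.toRingHom := by
        refine RingHom.ext fun q => ?_
        exact (hφ q).symm
      rw [h3] at h1
      have h4 := (eval₂_zero_iff _ hind φ.toRingHom P).1 h1 α
      have h5 : MvPolynomial.aeval (fun a => gm (fun w => U w a) (hUm a)) (P.coeff α) = 0 := by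
        rw [← hφ]
        have h6 : φ (P.coeff α) = 0 := h4
        rw [h6]
        rfl
      have h7 := (aeval_gm U hUm _).1 h5
      by_contra hcon
      obtain ⟨z, hz1, hz2⟩ := (h7.and (dense_ne hU _ hcon 0)).exists
      exact hz2 hz1

end Pool.Agent.AbPencil
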