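import Pool.Agent.Lib_MP_1209e6_ab.F3
import Pool.Agent.Lib_MP_1209e6_tw.A2
import Pool.Agent.Lib_MP_1209e6_tw.A3

/-! PIECE A4: choice of all constants: density, and the curve avoids the common zeros of `H`. -/

set_option autoImplicit false

open Filter Topology

namespace Pool.Agent.AbPencil

open Pool.Agent.AbFib Tw

/-- `finSuccEquiv` of a monomial, any coefficient ring -/
private theorem fse_monomial {R : Type} [CommRing R] {n : ℕ} (q : R) (s : Fin (n + 1) →₀ ℕ) :
    MvPolynomial.finSuccEquiv R n (MvPolynomial.C q * MvPolynomial.monomial s 1)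
      = Polynomial.C (MvPolynomial.C q * MvPolynomial.monomial (Finsupp.tail s) 1) *
        Polynomial.X ^ (s 0) := by
  ext i m
  rw [MvPolynomial.finSuccEquiv_coeff_coeff, Polynomial.coeff_C_mul_X_pow,
    MvPolynomial.coeff_C_mul, MvPolynomial.coeff_monomial]
  by_cases hi : i = s 0
  · rw [if_pos hi, MvPolynomial.coeff_C_mul, MvPolynomial.coeff_monomial]
    by_cases hm : Finsupp.tail s = m
    · rw [if_pos hm, if_pos]
      rw [hi, ← hm, Finsupp.cons_tail]
    · rw [if_neg hm, if_neg]
      intro h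
      apply hm
      rw [h, Finsupp.tail_cons]
  · rw [if_neg hi, MvPolynomial.coeff_zero, if_neg, mul_zero]
    intro h
    apply hi
    rw [h, Finsupp.cons_zero]

private theorem fse_eval {R k : Type} [CommRing R] [CommRing k] {n : ℕ} (ρ : R →+* k) (a : k)
    (v : Fin n → k) (w : Fin (n + 1) → k) (h0 : w 0 = a) (hs : ∀ i : Fin n, w i.succ = v i)
    (h : MvPolynomial (Fin (n + 1)) R) :
    MvPolynomial.eval₂ ρ w h = Polynomial.eval a
      (Polynomial.map (MvPolynomial.eval₂Hom ρ v) (MvPolynomial.finSuccEquiv R n h)) := by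
  have h1 : MvPolynomial.eval₂Hom ρ w = ((Polynomial.evalRingHom a).comp
      (Polynomial.mapRingHom (MvPolynomial.eval₂Hom ρ v))).comp
        (MvPolynomial.finSuccEquiv R n).toRingEquiv.toRingHom := by
    refine MvPolynomial.ringHom_ext (fun r => ?_) fun i => ?_
    · simp [MvPolynomial.finSuccEquiv_apply]
    · refine Fin.cases ?_ (fun i => ?_) i
      · simp [MvPolynomial.finSuccEquiv_X_zero, h0]
      · simp [MvPolynomial.finSuccEquiv_X_succ, hs]
  exact RingHom.congr_fun h1 h

/-- the variables put together -/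
private noncomputable def tog (m M : ℕ) :
    MvPolynomial (Fin M) (Polynomial ℂ) →+* MvPolynomial (Fin (m + 1 + M)) ℂ :=
  MvPolynomial.eval₂Hom
    (Polynomial.aeval (R := ℂ) (MvPolynomial.X (Fin.castAdd M 0) :
      MvPolynomial (Fin (m + 1 + M)) ℂ)).toRingHom
    fun i => MvPolynomial.X (Fin.natAdd (m + 1) i)

private theorem tog_eval {m M : ℕ} {k : Type} [CommRing k] [Algebra ℂ k] (u : Fin (m + 1) → k)
    (v : Fin M → k) (b : MvPolynomial (Fin M) (Polynomial ℂ)) :
    MvPolynomial.aeval (Fin.append u v) (tog m M b) =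
      MvPolynomial.eval₂ (Polynomial.aeval (R := ℂ) (u 0)).toRingHom v b := by
  have h1 : (MvPolynomial.aeval (R := ℂ) (Fin.append u v)).toRingHom.comp (tog m M) =
      MvPolynomial.eval₂Hom (Polynomial.aeval (R := ℂ) (u 0)).toRingHom v := by
    refine MvPolynomial.ringHom_ext (fun r => ?_) fun i => ?_
    · have h2 : ((MvPolynomial.aeval (R := ℂ) (Fin.append u v)).comp
          (Polynomial.aeval (R := ℂ) (MvPolynomial.X (Fin.castAdd M 0) :
            MvPolynomial (Fin (m + 1 + M)) ℂ))) = Polynomial.aeval (R := ℂ) (u 0) := by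
        refine Polynomial.algHom_ext ?_
        simp
      have h3 := AlgHom.congr_fun h2 r
      simp only [tog, RingHom.coe_comp, Function.comp_apply, MvPolynomial.coe_eval₂Hom,
        MvPolynomial.eval₂_C]
      exact h3
    · simp [tog]
  exact RingHom.congr_fun h1 b

private theorem tog_ne {L : Type} [Field L] [Algebra ℂ L] {m M : ℕ} (t : Fin (m + 1) → L)
    (ht0 : Transcendental ℂ (t 0)) (d : Fin M → L)
    (hd : AlgebraicIndependent (Algebra.adjoin ℂ (Set.range t)) d)
    (b : MvPolynomial (Fin M) (Polynomial ℂ)) (hb : b ≠ 0) :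
    MvPolynomial.aeval (Fin.append t d) (tog m M b) ≠ 0 := by
  rw [tog_eval]
  intro h0
  let φ : Polynomial ℂ →ₐ[ℂ] Algebra.adjoin ℂ (Set.range t) :=
    Polynomial.aeval (⟨t 0, Algebra.subset_adjoin ⟨0, rfl⟩⟩ : Algebra.adjoin ℂ (Set.range t))
  have hφ : (Polynomial.aeval (R := ℂ) (t 0)) =
      (Algebra.adjoin ℂ (Set.range t)).val.comp φ := by
    refine Polynomial.algHom_ext ?_
    simp [φ]
  have hinj : Function.Injective φ := by
    intro x y hxy
    have h1 : Function.Injective (Polynomial.aeval (R := ℂ) (t 0)) :=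
      transcendental_iff_injective.1 ht0
    apply h1
    rw [hφ]
    exact congrArg Subtype.val hxy
  have h2 : (Polynomial.aeval (R := ℂ) (t 0)).toRingHom =
      (algebraMap (Algebra.adjoin ℂ (Set.range t)) L).comp φ.toRingHom := by
    rw [hφ]
    rfl
  rw [h2, ← MvPolynomial.eval₂_map, ← MvPolynomial.aeval_def] at h0
  rw [algebraicIndependent_iff] at hd
  have h3 := hd _ h0
  apply hb
  refine MvPolynomial.map_injective φ.toRingHom hinj ?_
  rw [h3, map_zero]

private theorem countable_roots {P : Polynomial ℂ} (hP : P ≠ 0) {g e : ℂ} (hg : g ≠ 0)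
    (he : e ≠ 0) : {c : ℂ | P.eval (g * Complex.exp (c * e)) = 0}.Countable := by
  have hfin := P.roots.toFinset.finite_toSet.countable
  refine (hfin.biUnion (t := fun r _ => {c : ℂ | Complex.exp (c * e) = r / g}) fun r _ => ?_).mono
    ?_
  · have h1 := (countable_exp_fibre 0 (r / g)).preimage (f := fun c : ℂ => c * e)
      fun a b hab => mul_right_cancel₀ he hab
    refine h1.mono ?_
    intro c hc
    change Complex.exp (c * e + 0) = r / g
    rw [add_zero]
    exact hc
  · intro c hc
    simp only [Set.mem_iUnion]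
    refine ⟨g * Complex.exp (c * e), ?_, ?_⟩
    · rw [Finset.mem_coe, Multiset.mem_toFinset, Polynomial.mem_roots hP]
      exact hc
    · change Complex.exp (c * e) = g * Complex.exp (c * e) / g
      rw [mul_div_cancel_left₀ _ hg]

/-- Proof. Induction on `M`; model: `exists_bcg` in `Lib_MP_1209e6_ab/F3.lean` (with `Polynomial ℂ` instead of `ℂ` as the
coefficient ring). `M = 0`: every ideal of `ℂ[X]` is principal; the generator `g` of the ideal generated by `H` (constant
polynomials in the empty set of variables) divides all of `H`, hence divides `q`, so `q` is in the ideal and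
`q (U z 0) ≠ 0` shows that some `h ∈ H` is not zero at `U z 0`.
`M + 1`: `finSuccEquiv (Polynomial ℂ) M`. The set `H'` of all coefficients of all `finSuccEquiv h` satisfies the hypothesis for the
functions `G ∘ succ`, `d ∘ succ`: constants `c'`, for which the first claim (independence of the germs) gives a dense curve
`(U, D')` by `tw_dense`. `exists_mem_span` (`ab/F2`; `MvPolynomial (Fin M) (Polynomial ℂ)` is factorial) gives `b ≠ 0`, `k` with
`C b * X^k` in the ideal generated by `H`. `b(t_0, d') ≠ 0` since `t_0` is transcendental and `d'` independent over `ℂ[t]`; so by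
`dense_ne` the set `Z` of the `z ∈ Good` with `b(U z 0, D' z) = 0` is countable (`countable_of_disc`). For `z ∈ Z` take
`h_z ∈ H` with a coefficient nonzero at `(U z 0, D' z)`: the `c₀` such that `G 0 z * exp (c₀ * E z)` is one of the finitely many
roots form a countable set (`E z ≠ 0`, `G 0 z ≠ 0`). `tw_step` with the union of these sets as `S`, `x` = the germs of `U`, `y` =
the germs of `D'`: `c₀`, with which independence is extended (`AlgebraicIndependent.option_iff_transcendental`, as in
`exists_fac`, `sk/Z11`). -/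
theorem tw_avoid {L : Type} [Field L] [Algebra ℂ L] {n₀ : ℕ} (t : Fin (n₀ + 1) → L)
    (ht0 : Transcendental ℂ (t 0)) (U : ℂ → Fin (n₀ + 1) → ℂ) (hU : IsDenseCurve t U)
    (hUm : ∀ a, MeromorphicAt (fun w => U w a) 0) (Good : Set ℂ) (q : Polynomial ℂ)
    (hq0 : q ≠ 0) (hq : ∀ z ∈ Good, q.eval (U z 0) ≠ 0) (E : ℂ → ℂ) (hE : Differentiable ℂ E)
    (hEc : ∃ a b, E a ≠ E b) (hE0 : ∀ z ∈ Good, E z ≠ 0) {M : ℕ} (d : Fin M → L)
    (hd : AlgebraicIndependent (Algebra.adjoin ℂ (Set.range t)) d) (G : Fin M → ℂ → ℂ)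
    (hG : ∀ i z, MeromorphicAt (G i) z) (hGne : ∀ i z, ∀ᶠ w in 𝓝[≠] z, G i w ≠ 0)
    (hG0 : ∀ i, ∀ z ∈ Good, G i z ≠ 0) (H : Set (MvPolynomial (Fin M) (Polynomial ℂ)))
    (hH : ∀ p, (∀ h ∈ H, p ∣ h) → ∃ s : Fin M →₀ ℕ,
      p ∣ MvPolynomial.C q * MvPolynomial.monomial s 1) :
    ∃ c : Fin M → ℂ,
      (∀ hm : ∀ i, MeromorphicAt (fun w => G i w * Complex.exp (c i * E w)) 0,
        AlgebraicIndependent
          (Algebra.adjoin ℂ (Set.range fun a => gm (fun w => U w a) (hUm a)))
          fun i => gm (fun w => G i w * Complex.exp (c i * E w)) (hm i)) ∧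
      ∀ z ∈ Good, ∃ h ∈ H, MvPolynomial.eval₂ (Polynomial.evalRingHom (U z 0))
        (fun i => G i z * Complex.exp (c i * E z)) h ≠ 0 := by
  have hUm' : ∀ a z, MeromorphicAt (fun w => U w a) z := fun a z => by
    obtain ⟨k, hk⟩ := hU.1 z
    exact ⟨k, analyticAt_pi_iff.1 hk a⟩
  induction M with
  | zero =>
    refine ⟨fun _ => 0, fun hm => ?_, fun z hz => ?_⟩
    · rw [algebraicIndependent_empty_type_iff]
      exact Subtype.val_injective
    · by_contra hcon
      push Not at hcon
      obtain ⟨g, hg⟩ := (inferInstance : IsPrincipalIdealRing (Polynomial ℂ)).principal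
        (Ideal.span ((fun h : MvPolynomial (Fin 0) (Polynomial ℂ) => h.coeff 0) '' H))
      obtain ⟨s, hs⟩ := hH (MvPolynomial.C g) (fun h hh => by
        rw [MvPolynomial.eq_C_of_isEmpty h]
        refine map_dvd MvPolynomial.C ?_
        rw [← Ideal.mem_span_singleton, Ideal.span, ← hg]
        exact Ideal.subset_span ⟨h, hh, rfl⟩)
      have hs0 : s = 0 := Subsingleton.elim _ _
      rw [hs0, MvPolynomial.monomial_zero', MvPolynomial.C_1, mul_one] at hs
      have hgq : g ∣ q := by
        rw [MvPolynomial.C_dvd_iff_dvd_coeff] at hs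
        have h1 := hs 0
        rwa [MvPolynomial.coeff_zero_C] at h1
      have hqI : q ∈ Ideal.span
          ((fun h : MvPolynomial (Fin 0) (Polynomial ℂ) => h.coeff 0) '' H) := by
        rw [hg]
        exact Ideal.mem_span_singleton.2 hgq
      have hle : Ideal.span ((fun h : MvPolynomial (Fin 0) (Polynomial ℂ) => h.coeff 0) '' H) ≤
          RingHom.ker (Polynomial.evalRingHom (U z 0)) := by
        rw [Ideal.span_le]
        rintro _ ⟨h, hh, rfl⟩
        have h1 := hcon h hh
        rw [MvPolynomial.eq_C_of_isEmpty h, MvPolynomial.eval₂_C] at h1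
        exact h1
      exact hq z hz (hle hqI)
  | succ M ih =>
    have hdiv : ∀ D : Polynomial (MvPolynomial (Fin M) (Polynomial ℂ)),
        (∀ h ∈ H, D ∣ MvPolynomial.finSuccEquiv (Polynomial ℂ) M h) →
          ∃ s : Fin (M + 1) →₀ ℕ,
            D ∣ Polynomial.C (MvPolynomial.C q * MvPolynomial.monomial (Finsupp.tail s) 1) *
              Polynomial.X ^ (s 0) := by
      intro D hD
      obtain ⟨s, hs⟩ := hH ((MvPolynomial.finSuccEquiv (Polynomial ℂ) M).symm D) (fun h hh => by
        have := map_dvd (MvPolynomial.finSuccEquiv (Polynomial ℂ) M).symm (hD h hh)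
        rwa [AlgEquiv.symm_apply_apply] at this)
      refine ⟨s, ?_⟩
      have := map_dvd (MvPolynomial.finSuccEquiv (Polynomial ℂ) M) hs
      rwa [AlgEquiv.apply_symm_apply, fse_monomial] at this
    have hd' : AlgebraicIndependent (Algebra.adjoin ℂ (Set.range t)) fun i : Fin M => d i.succ :=
      hd.comp _ (Fin.succ_injective M)
    obtain ⟨c', hc1, hc2⟩ := ih (fun i => d i.succ) hd' (fun i => G i.succ) (fun i => hG _)
      (fun i => hGne _) (fun i => hG0 _)
      {b | ∃ h ∈ H, ∃ i, (MvPolynomial.finSuccEquiv (Polynomial ℂ) M h).coeff i = b}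
      (fun p hp => by
        obtain ⟨s, hs⟩ := hdiv (Polynomial.C p) (fun h hh => by
          rw [Polynomial.C_dvd_iff_dvd_coeff]
          exact fun i => hp _ ⟨h, hh, i, rfl⟩)
        rw [Polynomial.C_dvd_iff_dvd_coeff] at hs
        have := hs (s 0)
        rw [Polynomial.coeff_C_mul_X_pow, if_pos rfl] at this
        exact ⟨_, this⟩)
    set D' : ℂ → Fin M → ℂ := fun z i => G i.succ z * Complex.exp (c' i * E z) with hD'
    have hexp : ∀ (c z : ℂ), MeromorphicAt (fun w => Complex.exp (c * E w)) z := fun c z =>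
      (((hE.const_mul c).cexp).analyticAt z).meromorphicAt
    have hDm : ∀ i z, MeromorphicAt (fun w => D' w i) z := fun i z => (hG _ z).mul (hexp _ z)
    have hind := hc1 fun i => hDm i 0
    have hcurve := tw_dense t U hU hUm (fun i : Fin M => d i.succ) hd' D' hDm hind
    obtain ⟨b, k, hb, hbk⟩ := exists_mem_span (MvPolynomial.finSuccEquiv (Polynomial ℂ) M '' H)
      (fun D hD => by
        obtain ⟨s, hs⟩ := hdiv D (fun h hh => hD _ ⟨h, hh, rfl⟩)
        refine ⟨_, _, ?_, hs⟩
        refine mul_ne_zero ?_ ?_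
        · rw [Ne, MvPolynomial.C_eq_zero]
          exact hq0
        · rw [Ne, MvPolynomial.monomial_eq_zero]
          exact one_ne_zero)
    set ρ : ℂ → Polynomial ℂ →+* ℂ := fun z => Polynomial.evalRingHom (U z 0) with hρ
    have hZ : {z | MvPolynomial.eval₂ (ρ z) (D' z) b = 0}.Countable := by
      refine countable_of_disc _ fun z => ?_
      have h1 := dense_ne hcurve (tog n₀ M b) (tog_ne t ht0 _ hd' b hb) z
      filter_upwards [h1] with w hw hwZ
      apply hw
      have h2 := tog_eval (U w) (D' w) b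
      rw [MvPolynomial.aeval_eq_eval] at h2
      rw [h2]
      have h3 : (Polynomial.aeval (R := ℂ) (U w 0)).toRingHom = ρ w := by
        refine RingHom.ext fun p => ?_
        change Polynomial.aeval (U w 0) p = Polynomial.eval (U w 0) p
        rw [Polynomial.coe_aeval_eq_eval]
      rw [h3]
      exact hwZ
    have hbad : ∀ z : ℂ, ∃ h ∈ H ∪ {0}, z ∈ Good → h ∈ H ∧
        {c₀ : ℂ | Polynomial.eval (G 0 z * Complex.exp (c₀ * E z))
          (Polynomial.map (MvPolynomial.eval₂Hom (ρ z) (D' z))
            (MvPolynomial.finSuccEquiv (Polynomial ℂ) M h)) = 0}.Countable := by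
      intro z
      by_cases hz : z ∈ Good
      · obtain ⟨_, ⟨h, hh, i, rfl⟩, hne⟩ := hc2 z hz
        refine ⟨h, Or.inl hh, fun _ => ⟨hh, ?_⟩⟩
        have hP : Polynomial.map (MvPolynomial.eval₂Hom (ρ z) (D' z))
            (MvPolynomial.finSuccEquiv (Polynomial ℂ) M h) ≠ 0 := by
          intro h0
          apply hne
          have h1 := congrArg (fun P => Polynomial.coeff P i) h0
          simp only [Polynomial.coeff_map, Polynomial.coeff_zero] at h1
          exact h1
        exact countable_roots hP (hG0 0 z hz) (hE0 z hz)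
      · exact ⟨0, Or.inr rfl, fun h => absurd h hz⟩
    choose hz _ hzc using hbad
    obtain ⟨c₀, hc₀, htr⟩ := tw_step (fun a => gm (fun w => U w a) (hUm a))
      (fun i : Fin M => gm (fun w => D' w i) (hDm i 0))
      (⋃ z ∈ {z | z ∈ Good ∧ MvPolynomial.eval₂ (ρ z) (D' z) b = 0},
        {c₀ : ℂ | Polynomial.eval (G 0 z * Complex.exp (c₀ * E z))
          (Polynomial.map (MvPolynomial.eval₂Hom (ρ z) (D' z))
            (MvPolynomial.finSuccEquiv (Polynomial ℂ) M (hz z))) = 0})
      ((hZ.mono fun z h => h.2).biUnion fun z h => (hzc z h.1).2)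
      (G 0) E (hG 0 0) (hGne 0 0) hE hEc
    refine ⟨Fin.cons c₀ c', fun hm => ?_, fun z hzG => ?_⟩
    · have h1 := (hind.option_iff_transcendental _).2 (htr (hm 0))
      refine (algebraicIndependent_equiv' (finSuccEquiv M) ?_).2 h1
      funext i
      refine Fin.cases ?_ (fun i => ?_) i
      · rfl
      · rfl
    · have hev : ∀ h : MvPolynomial (Fin (M + 1)) (Polynomial ℂ),
          MvPolynomial.eval₂ (Polynomial.evalRingHom (U z 0))
            (fun i => G i z * Complex.exp ((Fin.cons c₀ c' : Fin (M + 1) → ℂ) i * E z)) h =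
          Polynomial.eval (G 0 z * Complex.exp (c₀ * E z))
            (Polynomial.map (MvPolynomial.eval₂Hom (ρ z) (D' z))
              (MvPolynomial.finSuccEquiv (Polynomial ℂ) M h)) := fun h =>
        fse_eval (ρ z) _ (D' z) _ rfl (fun i => rfl) h
      by_cases hzZ : MvPolynomial.eval₂ (ρ z) (D' z) b = 0
      · refine ⟨hz z, (hzc z hzG).1, ?_⟩
        rw [hev]
        intro h0
        apply hc₀
        simp only [Set.mem_iUnion]
        exact ⟨z, ⟨hzG, hzZ⟩, h0⟩
      · by_contra hcon
        push Not at hcon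
        let ψ : Polynomial (MvPolynomial (Fin M) (Polynomial ℂ)) →+* ℂ :=
          (Polynomial.evalRingHom (G 0 z * Complex.exp (c₀ * E z))).comp
            (Polynomial.mapRingHom (MvPolynomial.eval₂Hom (ρ z) (D' z)))
        have hle : Ideal.span (MvPolynomial.finSuccEquiv (Polynomial ℂ) M '' H) ≤
            RingHom.ker ψ := by
          rw [Ideal.span_le]
          rintro _ ⟨h, hh, rfl⟩
          have h1 := hcon h hh
          rw [hev] at h1
          exact h1
        have h2 : ψ (Polynomial.C b * Polynomial.X ^ k) = 0 := hle hbk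
        have h3 : ψ (Polynomial.C b * Polynomial.X ^ k)
            = MvPolynomial.eval₂ (ρ z) (D' z) b * (G 0 z * Complex.exp (c₀ * E z)) ^ k := by
          simp [ψ]
        rw [h3] at h2
        exact (mul_ne_zero hzZ (pow_ne_zero _ (mul_ne_zero (hG0 0 z hzG)
          (Complex.exp_ne_zero _)))) h2

end Pool.Agent.AbPencil
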