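import Mathlib

/-! PIECE A5: the polynomials `H` with coefficients in `ℂ[t_0]`, and their common divisors. -/

set_option autoImplicit false

namespace Pool.Agent.AbPencil

/-- The isomorphism `ℂ[t_0, d_1, …, d_M] ≃ ℂ[t_0][d_1, …, d_M]`. -/
private noncomputable def a5_phi (M : ℕ) :
    MvPolynomial (Fin (M + 1)) ℂ ≃ₐ[ℂ] MvPolynomial (Fin M) (Polynomial ℂ) :=
  (MvPolynomial.renameEquiv ℂ (finSuccEquiv M)).trans (MvPolynomial.optionEquivRight ℂ (Fin M))

private theorem a5_phi_X0 (M : ℕ) :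
    a5_phi M (MvPolynomial.X 0) = MvPolynomial.C Polynomial.X := by
  simp [a5_phi]

private theorem a5_phi_Xs (M : ℕ) (i : Fin M) :
    a5_phi M (MvPolynomial.X i.succ) = MvPolynomial.X i := by
  simp [a5_phi]

private theorem a5_phi_C (M : ℕ) (c : ℂ) :
    a5_phi M (MvPolynomial.C c) = MvPolynomial.C (Polynomial.C c) := by
  simp [a5_phi]

private theorem a5_phi_aeval (M : ℕ) (q : Polynomial ℂ) :
    a5_phi M (Polynomial.aeval (MvPolynomial.X 0) q) = MvPolynomial.C q := by
  have h : ((a5_phi M).toAlgHom.comp (Polynomial.aeval (MvPolynomial.X 0)) :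
      Polynomial ℂ →ₐ[ℂ] MvPolynomial (Fin M) (Polynomial ℂ)) =
      (Algebra.ofId (Polynomial ℂ) (MvPolynomial (Fin M) (Polynomial ℂ))).restrictScalars ℂ := by
    apply Polynomial.algHom_ext
    simp only [AlgHom.comp_apply, Polynomial.aeval_X]
    exact a5_phi_X0 M
  have := congrArg (fun f : Polynomial ℂ →ₐ[ℂ] MvPolynomial (Fin M) (Polynomial ℂ) => f q) h
  exact this

private theorem a5_phi_mon (M : ℕ) (s : Fin (M + 1) →₀ ℕ) :
    a5_phi M (MvPolynomial.monomial s 1) =
      MvPolynomial.C (Polynomial.X ^ s 0) * MvPolynomial.monomial (Finsupp.tail s) 1 := by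
  rw [MvPolynomial.monomial_eq, MvPolynomial.monomial_eq]
  simp only [map_one, one_mul]
  rw [Finsupp.prod_fintype _ _ (fun i => pow_zero _), Finsupp.prod_fintype _ _ (fun i => pow_zero _),
    Fin.prod_univ_succ, map_mul, map_pow, a5_phi_X0, map_prod, map_pow]
  congr 1
  apply Finset.prod_congr rfl
  intro i _
  rw [map_pow, a5_phi_Xs, Finsupp.tail_apply]

private theorem a5_eval (M : ℕ) (a : ℂ) (b : Fin M → ℂ) (h : MvPolynomial (Fin (M + 1)) ℂ) :
    MvPolynomial.eval₂ (Polynomial.evalRingHom a) b (a5_phi M h) =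
      MvPolynomial.eval (Fin.cons a b : Fin (M + 1) → ℂ) h := by
  have hh : (MvPolynomial.eval₂Hom (Polynomial.evalRingHom a) b).comp
      (a5_phi M : MvPolynomial (Fin (M + 1)) ℂ →+* MvPolynomial (Fin M) (Polynomial ℂ)) =
      MvPolynomial.eval (Fin.cons a b : Fin (M + 1) → ℂ) := by
    apply MvPolynomial.ringHom_ext
    · intro c
      simp [a5_phi_C]
    · intro i
      refine Fin.cases ?_ (fun j => ?_) i
      · simp [a5_phi_X0]
      · simp [a5_phi_Xs]
  exact congrArg (fun f : MvPolynomial (Fin (M + 1)) ℂ →+* ℂ => f h) hh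

private theorem a5_gcd {R : Type*} [CommRing R] [IsDomain R] [UniqueFactorizationMonoid R]
    (S : Finset R) : ∃ g : R, ∀ p : R, p ∣ g ↔ ∀ h ∈ S, p ∣ h := by
  classical
  let _ : GCDMonoid R := UniqueFactorizationMonoid.toGCDMonoid R
  induction S using Finset.induction_on with
  | empty => exact ⟨0, fun p => by simp⟩
  | insert x S hx ih =>
    obtain ⟨g, hg⟩ := ih
    refine ⟨gcd x g, fun p => ?_⟩
    rw [dvd_gcd_iff, hg p]
    simp

/-- Proof. Let `φ : MvPolynomial (Fin (M+1)) ℂ ≃ MvPolynomial (Fin M) (Polynomial ℂ)` be the isomorphism with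
`φ (X 0) = C X`, `φ (X i.succ) = X i` (`MvPolynomial.renameEquiv ℂ (finSuccEquiv M)` and `MvPolynomial.optionEquivRight`), so
`eval₂ (evalRingHom a) b (φ h) = eval (Fin.cons a b) h`. `H' = φ '' H`. The set `H` has a greatest common divisor `g`: the ideal
generated by `H` is generated by a finite subset (Hilbert), whose common divisors divide all of `H`; factorial rings have gcd's
(`UniqueFactorizationMonoid.toNormalizedGCDMonoid`, `Finset.gcd`). The hypothesis for `p = g` gives one `q`; every common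
divisor of `H` divides `g`, so it divides `q(X 0) * monomial s 1`, whose image under `φ` is `C q * (C (X^(s 0)) * monomial)`.
Take `q * X^(s 0)` as the new `q`. -/
theorem tw_conv {M : ℕ} (H : Set (MvPolynomial (Fin (M + 1)) ℂ))
    (hH : ∀ p, (∀ h ∈ H, p ∣ h) → ∃ (q : Polynomial ℂ) (s : Fin (M + 1) →₀ ℕ), q ≠ 0 ∧
      p ∣ Polynomial.aeval (MvPolynomial.X 0) q * MvPolynomial.monomial s 1) :
    ∃ (q : Polynomial ℂ) (H' : Set (MvPolynomial (Fin M) (Polynomial ℂ))), q ≠ 0 ∧
      (∀ p, (∀ h ∈ H', p ∣ h) → ∃ s : Fin M →₀ ℕ,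
        p ∣ MvPolynomial.C q * MvPolynomial.monomial s 1) ∧
      ∀ (a : ℂ) (b : Fin M → ℂ),
        (∃ h ∈ H', MvPolynomial.eval₂ (Polynomial.evalRingHom a) b h ≠ 0) →
        ∃ h ∈ H, MvPolynomial.eval (Fin.cons a b : Fin (M + 1) → ℂ) h ≠ 0 := by
  classical
  have hfg : (Submodule.span (MvPolynomial (Fin (M + 1)) ℂ) H).FG :=
    (isNoetherianRing_iff_ideal_fg _).1 inferInstance (Ideal.span H)
  obtain ⟨S, hSH, hspan⟩ := (Submodule.fg_span_iff_fg_span_finset_subset H).1 hfg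
  obtain ⟨g, hg⟩ := a5_gcd S
  have hgH : ∀ h ∈ H, g ∣ h := by
    intro h hh
    have h1 : h ∈ Ideal.span (S : Set (MvPolynomial (Fin (M + 1)) ℂ)) := by
      have h0 : h ∈ Submodule.span (MvPolynomial (Fin (M + 1)) ℂ) H := Submodule.subset_span hh
      rw [hspan] at h0
      exact h0
    have h2 : Ideal.span (S : Set (MvPolynomial (Fin (M + 1)) ℂ)) ≤ Ideal.span {g} := by
      rw [Ideal.span_le]
      intro x hx
      exact Ideal.mem_span_singleton.2 ((hg g).1 dvd_rfl x hx)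
    exact Ideal.mem_span_singleton.1 (h2 h1)
  obtain ⟨q, s, hq, hdvd⟩ := hH g hgH
  refine ⟨q * Polynomial.X ^ s 0, a5_phi M '' H, mul_ne_zero hq (pow_ne_zero _ Polynomial.X_ne_zero),
    ?_, ?_⟩
  · intro p hp
    refine ⟨Finsupp.tail s, ?_⟩
    have h1 : (a5_phi M).symm p ∣ g := by
      rw [hg]
      intro h hh
      have h2 := hp (a5_phi M h) ⟨h, hSH hh, rfl⟩
      have h3 := map_dvd (a5_phi M).symm h2
      rwa [AlgEquiv.symm_apply_apply] at h3
    have h4 := map_dvd (a5_phi M) (h1.trans hdvd)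
    rw [AlgEquiv.apply_symm_apply, map_mul, a5_phi_aeval, a5_phi_mon, ← mul_assoc, ← map_mul] at h4
    exact h4
  · rintro a b ⟨h', ⟨h, hh, rfl⟩, hne⟩
    refine ⟨h, hh, ?_⟩
    rwa [a5_eval] at hne

end Pool.Agent.AbPencil
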