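import Pool.Agent.Lib_MP_1209e6_ab.E4
import Pool.Agent.Lib_MP_1209e6_fl.W1

/-! PIECE B1: entire functions with given jets. -/

set_option autoImplicit false

open Filter Topology

namespace Pool.Agent.AbPencil

open Pool.Agent.AbFib Pool.Agent.CampanaFlow

/-- the glueing data -/
private noncomputable def interpData (Λ : ℂ → ℕ) (hΛ : ∀ z, ∀ᶠ w in 𝓝[≠] z, Λ w = 0)
    (J : ℂ → ℂ → ℂ) (hJ : ∀ z, AnalyticAt ℂ (J z) z) (E : ℂ → ℂ) (hE : Differentiable ℂ E)
    (hord : ∀ z, analyticOrderAt E z = Λ z) : GlueData 1 ℂ where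
  act := fun z τ m => m + E z * τ 0
  Sec := fun b z => AnalyticAt ℂ b z ∧ (Λ z : ℕ∞) ≤ analyticOrderAt (fun w => b w - J z w) z
  B := {z | Λ z ≠ 0}
  disc := fun z => (hΛ z).mono fun w hw h => h hw
  congr := by
    rintro a a' z h ⟨h1, h2⟩
    refine ⟨h1.congr h, ?_⟩
    have h3 : (fun w => a w - J z w) =ᶠ[𝓝 z] fun w => a' w - J z w := by
      filter_upwards [h] with w hw
      rw [hw]
    rwa [← analyticOrderAt_congr h3]
  evt := by
    rintro a z ⟨h1, h2⟩
    have h3 : ∀ᶠ w in 𝓝 z, w ≠ z → Λ w = 0 := by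
      have := hΛ z
      rwa [eventually_nhdsWithin_iff] at this
    filter_upwards [h1.eventually_analyticAt, h3] with w hw hw'
    refine ⟨hw, ?_⟩
    by_cases hwz : w = z
    · subst hwz
      exact h2
    · rw [hw' hwz]
      simp
  hact := by
    rintro a τ z ⟨h1, h2⟩ hτ
    have h0 : AnalyticAt ℂ (fun w => τ w 0) z :=
      (ContinuousLinearMap.proj (R := ℂ) (φ := fun _ : Fin 1 => ℂ) 0).analyticAt (τ z) |>.comp hτ
    have hEa : AnalyticAt ℂ E z := hE.analyticAt z
    have h4 : AnalyticAt ℂ (fun w => E w * τ w 0) z := hEa.mul h0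
    refine ⟨h1.add h4, ?_⟩
    have h5 : (fun w => a w + E w * τ w 0 - J z w) =
        (fun w => a w - J z w) + fun w => E w * τ w 0 := by
      funext w
      simp only [Pi.add_apply]
      ring
    have h6 : (Λ z : ℕ∞) ≤ analyticOrderAt (fun w => E w * τ w 0) z := by
      have h7 : (fun w => E w * τ w 0) = E * fun w => τ w 0 := rfl
      rw [h7, analyticOrderAt_mul hEa h0, hord]
      exact le_self_add
    show (Λ z : ℕ∞) ≤ analyticOrderAt (fun w => a w + E w * τ w 0 - J z w) z
    rw [h5]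
    exact (le_min h2 h6).trans le_analyticOrderAt_add
  add := by
    intro a z σ τ _
    simp only [Pi.add_apply]
    ring
  zero := by
    intro a z _
    simp
  loc := by
    intro z
    refine ⟨J z, hJ z, ?_⟩
    have : (fun w => J z w - J z w) = fun _ => (0 : ℂ) := by
      funext w
      ring
    rw [this]
    have h : analyticOrderAt (fun _ : ℂ => (0 : ℂ)) z = ⊤ := by
      rw [analyticOrderAt_eq_top]
      simp
    rw [h]
    exact le_top
  trans := by
    intro z₀ z₁ a b h
    refine ⟨fun w _ => (b w - a w) / E w, fun z hz => ?_⟩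
    obtain ⟨hB, ⟨ha, -⟩, ⟨hb, -⟩⟩ := h z hz
    have hΛz : Λ z = 0 := by
      by_contra hne
      exact hB hne
    have hEa : AnalyticAt ℂ E z := hE.analyticAt z
    have hEz : E z ≠ 0 := by
      rw [← hEa.analyticOrderAt_eq_zero, hord, hΛz]
      rfl
    constructor
    · exact AnalyticAt.pi fun _ => (hb.sub ha).div hEa hEz
    · filter_upwards [hE.continuous.continuousAt.eventually_ne hEz] with w hw
      show a w + E w * ((b w - a w) / E w) = b w
      field_simp
      ring

/-- Interpolation of jets at a discrete set of points. Proof. `weierstrass` (`fl/W1`): `E` entire with zeros of order `Λ z`. Apply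
`GlueData.exists_section` (`ab/E4`; the structure `GlueData` is in `ab/Defs`) to: `M = ℂ`, `g = 1`, `act z τ m = m + E z * τ 0`,
`Sec b z` = (`b` analytic at `z` and `Λ z ≤ analyticOrderAt (b - a z) z`), `B = {z | Λ z ≠ 0}`. `disc`: `hΛ`. `evt`: near `z`, for `w ≠ z`,
`Λ w = 0`. `hact`: `E` has order `Λ z` at `z`. `add`, `zero`: clear. `loc`: `a z`. `trans`: on the segment `E ≠ 0` (`Λ = 0`), `b, b'` are
analytic there, `τ w 0 = (b' w - b w) / E w`. -/
theorem tw_interp (Λ : ℂ → ℕ) (hΛ : ∀ z, ∀ᶠ w in 𝓝[≠] z, Λ w = 0) (a : ℂ → ℂ → ℂ)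
    (ha : ∀ z, AnalyticAt ℂ (a z) z) :
    ∃ l : ℂ → ℂ, Differentiable ℂ l ∧
      ∀ z, (Λ z : ℕ∞) ≤ analyticOrderAt (fun w => l w - a z w) z := by
  obtain ⟨E, hE, hord⟩ := weierstrass Λ hΛ
  obtain ⟨l, hl⟩ := (interpData Λ hΛ a ha E hE hord).exists_section
  exact ⟨l, fun z => (hl z).1.differentiableAt, fun z => (hl z).2⟩

end Pool.Agent.AbPencil
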