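import Pool.Agent.Lib_MP_1209e6_sp.P

/-! PIECE C4: presentations with given first coordinates. -/

set_option autoImplicit false

namespace Pool.Agent.AbPencil

open Pool.Agent.Campana

private lemma tw_isAlg_of_top {K : Type} [Field K] [Algebra ℂ K] (t : Set K)
    (h : IntermediateField.adjoin ℂ t = ⊤) : Algebra.IsAlgebraic (Algebra.adjoin ℂ t) K := by
  constructor
  intro a
  have ha : a ∈ IntermediateField.adjoin ℂ t := by rw [h]; trivial
  rw [IntermediateField.mem_adjoin_iff_div] at ha
  obtain ⟨r, hr, s, hs, e⟩ := ha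
  rw [e, div_eq_mul_inv]
  have h1 : IsAlgebraic (Algebra.adjoin ℂ t) r :=
    isAlgebraic_algebraMap (⟨r, hr⟩ : Algebra.adjoin ℂ t)
  have h2 : IsAlgebraic (Algebra.adjoin ℂ t) s :=
    isAlgebraic_algebraMap (⟨s, hs⟩ : Algebra.adjoin ℂ t)
  exact h1.mul h2.inv

private lemma tw_exists_basis {K : Type} [Field K] [Algebra ℂ K] (T : Finset K)
    (hT : IntermediateField.adjoin ℂ (T : Set K) = ⊤) {m : ℕ} (a : Fin (m + 1) → K)
    (ha : AlgebraicIndependent ℂ a) :
    ∃ (d : ℕ) (y : Fin (d + 1) → K) (σ : Fin (m + 1) → Fin (d + 1)),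
      Function.Injective σ ∧ (∀ i, y (σ i) = a i) ∧ IsTranscendenceBasis ℂ y := by
  classical
  have htop : IntermediateField.adjoin ℂ (Set.range a ∪ (T : Set K)) = ⊤ := by
    rw [eq_top_iff, ← hT]
    exact IntermediateField.adjoin.mono _ _ _ Set.subset_union_right
  have halg := tw_isAlg_of_top _ htop
  have hind : AlgebraicIndepOn ℂ id (Set.range a) := ha.coe_range
  obtain ⟨u, hu1, hu2, hu3⟩ := exists_isTranscendenceBasis_between (Set.range a)
    (Set.range a ∪ (T : Set K)) Set.subset_union_left hind
  have hufin : u.Finite := Set.Finite.subset ((Set.finite_range a).union T.finite_toSet) hu2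
  have := hufin.fintype
  have hau : ∀ i, a i ∈ u := fun i => hu1 ⟨i, rfl⟩
  have hcard : 0 < Fintype.card u := Fintype.card_pos_iff.2 ⟨⟨a 0, hau 0⟩⟩
  obtain ⟨d, hd⟩ : ∃ d, Fintype.card u = d + 1 := ⟨Fintype.card u - 1, by omega⟩
  let e : Fin (d + 1) ≃ u := (Fintype.equivFinOfCardEq hd).symm
  refine ⟨d, fun i => (e i : K), fun i => e.symm ⟨a i, hau i⟩, ?_, ?_, ?_⟩
  · intro i j h
    have h1 := e.symm.injective h
    exact ha.injective (congrArg Subtype.val h1)
  · intro i
    simp
  · exact (isTranscendenceBasis_equiv e (f := fun x : u => (x : K))).2 hu3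

/-- Proof. As `exists_pres` in `Lib_MP_1209e6_sp/P.lean`, without a place: extend the algebraically independent family `a` to a
transcendence basis contained in `range a ∪ T` (`exists_isTranscendenceBasis_between`, as in the private lemma
`exists_basis`), numbered by `y : Fin (e+1) → L`; `σ i` = the index of `a i`. Then `L` is a finite separable extension of `ℂ(y)`
with a primitive element `η`, and the rest of the proof of `exists_pres` applies (no condition `η ∈ O`). -/
theorem tw_pres {L : Type} [Field L] [Algebra ℂ L] (T : Finset L)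
    (hT : IntermediateField.adjoin ℂ (T : Set L) = ⊤) {m : ℕ} (a : Fin (m + 1) → L)
    (ha : AlgebraicIndependent ℂ a) :
    ∃ (e : ℕ) (y : Fin (e + 1) → L) (σ : Fin (m + 1) → Fin (e + 1)) (η : L)
      (f : Polynomial (MvPolynomial (Fin (e + 1)) ℂ)),
      Function.Injective σ ∧ (∀ i, y (σ i) = a i) ∧ Pres y η f := by
  obtain ⟨d, y, σ, hσ, hyσ, hy⟩ := tw_exists_basis T hT a ha
  have hind : AlgebraicIndependent ℂ y := hy.1
  let R := MvPolynomial (Fin (d + 1)) ℂ
  let F := FractionRing R
  let φ : R →+* L := (MvPolynomial.aeval (R := ℂ) y).toRingHom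
  have hφ : Function.Injective φ := hind
  let ψ : F →+* L := IsFractionRing.lift (A := R) (K := F) (g := φ) hφ
  have hψ : ∀ r : R, ψ (algebraMap R F r) = φ r := fun r => IsFractionRing.lift_algebraMap hφ r
  let : Algebra F L := ψ.toAlgebra
  have hψ' : algebraMap F L = ψ := rfl
  have hyF : ∀ i, ∃ z : F, algebraMap F L z = y i := by
    intro i
    refine ⟨algebraMap R F (MvPolynomial.X i), ?_⟩
    rw [hψ', hψ]
    exact MvPolynomial.aeval_X y i
  -- `K` is algebraic over `F`
  have halg : Algebra.IsAlgebraic F L := by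
    have h1 := hy.isAlgebraic
    constructor
    intro a
    obtain ⟨p, hp0, hp⟩ := h1.isAlgebraic a
    let ρ : Algebra.adjoin ℂ (Set.range y) →+* F := (algebraMap R F).comp
      (hind.aevalEquiv.symm : Algebra.adjoin ℂ (Set.range y) ≃ₐ[ℂ] R).toRingEquiv.toRingHom
    have hρ : ∀ z : Algebra.adjoin ℂ (Set.range y), algebraMap F L (ρ z) = z := by
      intro z
      change ψ (algebraMap R F (hind.aevalEquiv.symm z)) = z
      rw [hψ]
      have h2 := hind.algebraMap_aevalEquiv (hind.aevalEquiv.symm z)
      rw [AlgEquiv.apply_symm_apply] at h2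
      exact h2.symm
    have hρinj : Function.Injective ρ := by
      intro z w h
      apply Subtype.ext
      rw [← hρ z, ← hρ w, h]
    refine ⟨p.map ρ, ?_, ?_⟩
    · rwa [Ne, Polynomial.map_eq_zero_iff hρinj]
    · rw [Polynomial.aeval_def, Polynomial.eval₂_map]
      rw [Polynomial.aeval_def] at hp
      have : (algebraMap F L).comp ρ = algebraMap (Algebra.adjoin ℂ (Set.range y)) L := by
        ext z
        exact hρ z
      rw [this]
      exact hp
  -- `K` is finite over `F`
  have hgen : IntermediateField.adjoin F (T : Set L) = ⊤ := by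
    rw [eq_top_iff]
    intro a _
    have ha : a ∈ IntermediateField.adjoin ℂ (T : Set L) := by rw [hT]; trivial
    refine IntermediateField.adjoin_induction (F := ℂ) (s := (T : Set L))
      (p := fun x _ => x ∈ IntermediateField.adjoin F (T : Set L)) ?_ ?_ ?_ ?_ ?_ ha
    · intro x hx
      exact IntermediateField.subset_adjoin _ _ hx
    · intro c
      have : algebraMap ℂ L c = algebraMap F L (algebraMap R F (MvPolynomial.C c)) := by
        rw [hψ', hψ]
        exact (MvPolynomial.aeval_C y c).symm
      rw [this]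
      exact IntermediateField.algebraMap_mem _ _
    · intro x z _ _ hx hz
      exact add_mem hx hz
    · intro x _ hx
      exact inv_mem hx
    · intro x z _ _ hx hz
      exact mul_mem hx hz
  have hfin : FiniteDimensional F L := by
    have h1 : FiniteDimensional F (IntermediateField.adjoin F (T : Set L)) :=
      IntermediateField.finiteDimensional_adjoin fun x _ => (halg.isAlgebraic x).isIntegral
    rw [hgen] at h1
    exact Module.Finite.equiv (IntermediateField.topEquiv (F := F) (E := L)).toLinearEquiv
  have : CharZero F := by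
    have : CharZero R := inferInstance
    exact charZero_of_injective_algebraMap (IsFractionRing.injective R F)
  obtain ⟨η, hηtop⟩ := Field.exists_primitive_element F L
  have hηint : IsIntegral F η := (halg.isAlgebraic η).isIntegral
  let m := minpoly F η
  -- clearing denominators
  have hclear : ∀ p : Polynomial F, ∃ b : R, b ≠ 0 ∧ ∃ q : Polynomial R,
      q.map (algebraMap R F) = Polynomial.C (algebraMap R F b) * p := by
    intro p
    obtain ⟨b, hb, hq⟩ := IsLocalization.integerNormalization_spec (nonZeroDivisors R) p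
    refine ⟨b, nonZeroDivisors.ne_zero hb, _, hq.trans ?_⟩
    rw [← Polynomial.smul_eq_C_mul, algebraMap_smul]
  have heval : ∀ q : Polynomial R, q.eval₂ φ η = Polynomial.aeval η (q.map (algebraMap R F)) := by
    intro q
    rw [Polynomial.aeval_def, Polynomial.eval₂_map]
    congr 1
    ext r
    · exact (hψ _).symm
    · exact (hψ _).symm
  have hmapinj : Function.Injective (Polynomial.map (algebraMap R F)) :=
    Polynomial.map_injective _ (IsFractionRing.injective R F)
  have hb0 : ∀ b : R, b ≠ 0 → algebraMap R F b ≠ 0 := by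
    intro b hb h
    exact hb ((IsFractionRing.injective R F) (by rw [h, map_zero]))
  obtain ⟨b, hbne, f, hf⟩ := hclear m
  refine ⟨d, y, σ, η, f, hσ, hyσ, hind, ?_, ?_, ?_, ?_⟩
  · change f.eval₂ φ η = 0
    rw [heval, hf, map_mul, minpoly.aeval, mul_zero]
  · change (Polynomial.derivative f).eval₂ φ η ≠ 0
    rw [heval, ← Polynomial.derivative_map, hf, Polynomial.derivative_C_mul, map_mul,
      Polynomial.aeval_C]
    apply mul_ne_zero
    · rw [Ne, map_eq_zero]
      exact hb0 b hbne
    · exact (Algebra.IsSeparable.isSeparable F η).aeval_derivative_ne_zero (minpoly.aeval _ _)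
  · intro q hq
    change q.eval₂ φ η = 0 at hq
    rw [heval] at hq
    obtain ⟨g', hg'⟩ := minpoly.dvd F η hq
    obtain ⟨c, hc, g, hg⟩ := hclear g'
    refine ⟨c * b, mul_ne_zero hc hbne, g, ?_⟩
    apply hmapinj
    rw [Polynomial.map_mul, Polynomial.map_mul, Polynomial.map_C, hg', hf, hg, map_mul,
      Polynomial.C_mul]
    ring
  · intro a
    have ha : a ∈ IntermediateField.adjoin F {η} := by rw [hηtop]; trivial
    rw [← IntermediateField.mem_toSubalgebra,
      IntermediateField.adjoin_simple_toSubalgebra_of_isAlgebraic hηint.isAlgebraic,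
      Algebra.adjoin_singleton_eq_range_aeval] at ha
    obtain ⟨p, hp⟩ := ha
    obtain ⟨c, hc, Q, hQ⟩ := hclear p
    refine ⟨c, Q, hc, ?_⟩
    change φ c * a = Q.eval₂ φ η
    rw [heval, hQ, map_mul, Polynomial.aeval_C, hψ', hψ]
    congr 1
    exact hp.symm

end Pool.Agent.AbPencil
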