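import Pool.Agent.Lib_MP_1209e6_sp.Defs
import Pool.Agent.Lib_MP_1209e6_sk.Defs
import Pool.Agent.Lib_MP_1209e6_tw.C0

/-! PIECE C5: germs from roots. -/

set_option autoImplicit false

open Filter Topology

namespace Pool.Agent.AbPencil

/-- Germs `Y'`, `e'` with `f(Y', e') = 0` satisfy all relations of `y`, `η`, if `Y'` is general. Proof. The ideal of the relations between
`y` and `η` in `MvPolynomial (Fin (e+1) ⊕ Fin 1) ℂ` is finitely generated (`IsNoetherian.noetherian`, as in `rel_uniform`,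
`sk/Z7`): `p_1, …, p_k`. Write `p_j` as a polynomial `P_j` in one variable over `MvPolynomial (Fin (e+1)) ℂ`
(`MvPolynomial.induction_on`, an existential statement for all algebras, or `MvPolynomial.sumAlgEquiv`). `Pres.dvd`: `C E_j * P_j = f * g_j`,
`E_j ≠ 0`. `E₁ = ∏ E_j`. At a point `z` with `f(Y' z, e' z) = 0` and `E₁(Y' z) ≠ 0` all `p_j` vanish at `(Y' z, e' z)`, hence all relations. -/
theorem tw_transfer {L : Type} [Field L] [Algebra ℂ L] {e : ℕ} (y : Fin (e + 1) → L) (η : L)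
    (f : Polynomial (MvPolynomial (Fin (e + 1)) ℂ)) (hP : Pres y η f) :
    ∃ E₁ : MvPolynomial (Fin (e + 1)) ℂ, E₁ ≠ 0 ∧
      ∀ (z₀ : ℂ) (Y' : ℂ → Fin (e + 1) → ℂ) (e' : ℂ → ℂ),
        (∀ᶠ z in 𝓝[≠] z₀, f.eval₂ (MvPolynomial.aeval (Y' z)).toRingHom (e' z) = 0) →
        (∀ᶠ z in 𝓝[≠] z₀, MvPolynomial.aeval (Y' z) E₁ ≠ 0) →
        Rel z₀ (Sum.elim y fun _ : Fin 1 => η) fun z => Sum.elim (Y' z) fun _ => e' z := by
  classical
  obtain ⟨S, hS⟩ : (RingHom.ker (MvPolynomial.aeval (Sum.elim y fun _ : Fin 1 => η) :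
      MvPolynomial (Fin (e + 1) ⊕ Fin 1) ℂ →ₐ[ℂ] L)).FG :=
    IsNoetherian.noetherian _
  have key : ∀ p : MvPolynomial (Fin (e + 1) ⊕ Fin 1) ℂ, ∃ E : MvPolynomial (Fin (e + 1)) ℂ, E ≠ 0 ∧
      (MvPolynomial.aeval (Sum.elim y fun _ : Fin 1 => η) p = 0 →
        ∀ (ρ : Fin (e + 1) → ℂ) (x : ℂ), f.eval₂ (MvPolynomial.aeval ρ).toRingHom x = 0 →
          MvPolynomial.aeval ρ E ≠ 0 → MvPolynomial.aeval (Sum.elim ρ fun _ : Fin 1 => x) p = 0) := by
    intro p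
    by_cases hp : MvPolynomial.aeval (Sum.elim y fun _ : Fin 1 => η) p = 0
    · obtain ⟨Q, hQ⟩ := tw_toPoly p
      have h1 := hQ y η
      rw [hp] at h1
      obtain ⟨E, hE, g, hg⟩ := hP.dvd Q h1.symm
      refine ⟨E, hE, fun _ ρ x hx hEx => ?_⟩
      rw [hQ ρ x]
      have h2 := congrArg (Polynomial.eval₂ (MvPolynomial.aeval ρ).toRingHom x) hg
      rw [Polynomial.eval₂_mul, Polynomial.eval₂_mul, hx, zero_mul, Polynomial.eval₂_C] at h2
      exact (mul_eq_zero.1 h2).resolve_left hEx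
    · exact ⟨1, one_ne_zero, fun h => absurd h hp⟩
  choose E hE0 hE using key
  refine ⟨∏ p ∈ S, E p, Finset.prod_ne_zero_iff.2 fun p _ => hE0 p, ?_⟩
  intro z₀ Y' e' hroot hgen p hp
  filter_upwards [hroot, hgen] with z hz1 hz2
  rw [map_prod, Finset.prod_ne_zero_iff] at hz2
  have hpm : p ∈ Ideal.span (S : Set (MvPolynomial (Fin (e + 1) ⊕ Fin 1) ℂ)) := by
    rw [hS]
    exact hp
  have hle : Ideal.span (S : Set (MvPolynomial (Fin (e + 1) ⊕ Fin 1) ℂ)) ≤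
      RingHom.ker (MvPolynomial.aeval (Sum.elim (Y' z) fun _ : Fin 1 => e' z) :
        MvPolynomial (Fin (e + 1) ⊕ Fin 1) ℂ →ₐ[ℂ] ℂ) := by
    rw [Ideal.span_le]
    intro r hr
    have hr0 : r ∈ RingHom.ker (MvPolynomial.aeval (Sum.elim y fun _ : Fin 1 => η) :
        MvPolynomial (Fin (e + 1) ⊕ Fin 1) ℂ →ₐ[ℂ] L) := by
      rw [← hS]
      exact Ideal.subset_span hr
    exact hE r hr0 (Y' z) (e' z) hz1 (hz2 r hr)
  exact hle hpm

end Pool.Agent.AbPencil
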