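import Pool.Agent.Lib_MP_1209e6_sk.Z7
import Pool.Agent.Lib_MP_1209e6_tw.C3
import Pool.Agent.Lib_MP_1209e6_tw.C4
import Pool.Agent.Lib_MP_1209e6_tw.C5
import Pool.Agent.Lib_MP_1209e6_tw.C7

/-! PIECE C6: local lifts of base curves close to a given one. -/

set_option autoImplicit false

open Filter Topology

namespace Pool.Agent.AbPencil

open Pool.Agent.AbFib

/-- `hgerm` for a finite index type, with one element inverted -/
private theorem c6_germ {L : Type} [Field L] [Algebra ℂ L] (t : Fin 2 → L) (z₀ : ℂ)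
    (U : ℂ → Fin 2 → ℂ)
    (hgerm : ∀ (N' : ℕ) (q : Fin N' → L), ∃ Q : ℂ → Fin N' → ℂ,
      (∀ l, MeromorphicAt (fun z => Q z l) z₀) ∧
      Rel z₀ (Sum.elim t q) fun z => Sum.elim (U z) (Q z))
    {κ : Type} [Finite κ] (a : κ → L) (P : MvPolynomial (Fin 2 ⊕ κ) ℂ)
    (hP : MvPolynomial.aeval (Sum.elim t a) P ≠ 0) :
    ∃ A : ℂ → κ → ℂ, (∀ k, MeromorphicAt (fun z => A z k) z₀) ∧
      (Rel z₀ (Sum.elim t a) fun z => Sum.elim (U z) (A z)) ∧
      ∀ᶠ z in 𝓝[≠] z₀, MvPolynomial.aeval (Sum.elim (U z) (A z)) P ≠ 0 := by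
  obtain ⟨m, ⟨ε⟩⟩ := Finite.exists_equiv_fin κ
  -- the family `a`, inverse of `P`
  obtain ⟨Q, hQ, hR⟩ := hgerm (m + 1)
    (Fin.snoc (fun i => a (ε.symm i)) (MvPolynomial.aeval (Sum.elim t a) P)⁻¹ : Fin (m + 1) → L)
  have hR1 : Rel z₀ (Sum.elim t a) fun z => Sum.elim (U z) fun k => Q z (ε k).castSucc := by
    have h1 := rel_map (Sum.map id fun k => (ε k).castSucc : Fin 2 ⊕ κ → Fin 2 ⊕ Fin (m + 1)) hR
    have e1 : (fun k => Sum.elim t
        (Fin.snoc (fun i => a (ε.symm i)) (MvPolynomial.aeval (Sum.elim t a) P)⁻¹ : Fin (m + 1) → L)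
          ((Sum.map id fun k => (ε k).castSucc : Fin 2 ⊕ κ → Fin 2 ⊕ Fin (m + 1)) k)) =
        Sum.elim t a := by
      funext k
      rcases k with i | k
      · rfl
      · simp
    have e2 : (fun z k => Sum.elim (U z) (Q z)
        ((Sum.map id fun k => (ε k).castSucc : Fin 2 ⊕ κ → Fin 2 ⊕ Fin (m + 1)) k)) =
        fun z => Sum.elim (U z) fun k => Q z (ε k).castSucc := by
      funext z k
      rcases k with i | k
      · rfl
      · rfl
    rw [e1, e2] at h1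
    exact h1
  refine ⟨fun z k => Q z (ε k).castSucc, fun k => hQ _, hR1, ?_⟩
  have h2 := hR (MvPolynomial.rename
    (Sum.map id fun k => (ε k).castSucc : Fin 2 ⊕ κ → Fin 2 ⊕ Fin (m + 1)) P *
      MvPolynomial.X (Sum.inr (Fin.last m)) - 1) (by
    have e1 : Sum.elim t
        (Fin.snoc (fun i => a (ε.symm i)) (MvPolynomial.aeval (Sum.elim t a) P)⁻¹ : Fin (m + 1) → L) ∘
          (Sum.map id fun k => (ε k).castSucc : Fin 2 ⊕ κ → Fin 2 ⊕ Fin (m + 1)) =
        Sum.elim t a := by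
      funext k
      rcases k with i | k
      · rfl
      · simp
    rw [map_sub, map_mul, MvPolynomial.aeval_rename, MvPolynomial.aeval_X, map_one, e1,
      Sum.elim_inr, Fin.snoc_last, mul_inv_cancel₀ hP, sub_self])
  filter_upwards [h2] with z hz h0
  rw [map_sub, map_mul, MvPolynomial.aeval_rename, MvPolynomial.aeval_X, map_one, sub_eq_zero] at hz
  have e2 : Sum.elim (U z) (Q z) ∘
      (Sum.map id fun k => (ε k).castSucc : Fin 2 ⊕ κ → Fin 2 ⊕ Fin (m + 1)) =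
      Sum.elim (U z) fun k => Q z (ε k).castSucc := by
    funext k
    rcases k with i | k
    · rfl
    · rfl
  rw [e2, h0, zero_mul] at hz
  exact zero_ne_one hz

private theorem c6_split {e : ℕ} (v : Fin (e + 1) ⊕ Fin 1 → ℂ) :
    v = Sum.elim (fun i => v (Sum.inl i)) fun _ => v (Sum.inr 0) := by
  funext k
  rcases k with i | i
  · rfl
  · rw [Subsingleton.elim i 0]
    rfl

/-- Proof (step 2 of the board note STAGE 4). `tw_pres` for `Fin.cons (t 0) d`: `y`, `σ`, `η`, `f`. `Pres.gen`: `S_l(y) (x_l / x_0) = Q_l(y; η)`,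
`S'(y) t_1 = Q'(y; η)`, with `S_l, S' ≠ 0`. `tw_transfer`: `E₁`. `hgerm` for the finite family consisting of `y`, `η`, the inverses of `f'(y; η)`
(`Pres.sep`), of `E₁(y)`, `S_l(y)`, `S'(y)` (nonzero by `Pres.ind`) and of the `d_i` (and of `t_1` if `t_1 ≠ 0`): germs `Y`, `e`, with `f(Y; e) = 0`; since
inverses are in the family, `f'(Y; e)`, `E₁(Y)`, `S_l(Y)`, `S'(Y)`, `Y_{σ i}` are nonzero off `z₀`; `Y_{σ 0} = U_0`; `S'(Y) U_1 = Q'(Y; e)`.
`D₀ i = Y_{σ i.succ}`. Given `D` close to `D₀`, let `Y' = Y` with the entries `σ i.succ` replaced by `D i` (and `Y'_{σ 0} = Y_{σ 0}`); `Y'` is close to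
`Y`. `tw_hensel`: `e'` close to `e`; `tw_perturb_ne`: `E₁(Y')`, `S_l(Y')`, `S'(Y')` are nonzero off `z₀`. `tw_transfer`: relations of `(y, η)`
hold for `(Y', e')`. `U_1' = Q'(Y'; e') / S'(Y')`: if `t_1 = 0` then `Q'(y; η) = 0`, so `U_1' = 0 = U_1`. Otherwise `rel_frac` shows
`U_1'^2 = U_0^3 + a U_0^2 + b U_0 + c = U_1^2`; `U_1' - U_1` has order larger than that of `U_1` by `tw_perturb_div` (for the
polynomials `Q'`, `S'` in the variables `Fin (e+1) ⊕ Fin 1`, `tw_toMv` in `C0`), so `U_1' = U_1` by `tw_sq` (`C7`). `rel_frac` adds `t_0`, `t_1` and `x_l / x_0` to the relations, `rel_map`,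
`fibre_of_rel` (all `sk/Z7`) give `V`. -/
theorem tw_local {L : Type} [Field L] [Algebra ℂ L] (T : Finset L)
    (hT : IntermediateField.adjoin ℂ (T : Set L) = ⊤) {M N : ℕ} (t : Fin 2 → L)
    (ht1 : t 1 = 0 ∨ ∃ a b c : ℂ, t 1 ^ 2 =
      t 0 ^ 3 + algebraMap ℂ L a * t 0 ^ 2 + algebraMap ℂ L b * t 0 + algebraMap ℂ L c)
    (d : Fin M → L) (hd : AlgebraicIndependent ℂ (Fin.cons (t 0) d : Fin (M + 1) → L))
    (x : Fin (N + 1) → L) (hx : ∀ l, x l ≠ 0) (z₀ : ℂ) (U : ℂ → Fin 2 → ℂ)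
    (hU : ∀ a, MeromorphicAt (fun z => U z a) z₀)
    (hgerm : ∀ (N' : ℕ) (q : Fin N' → L), ∃ Q : ℂ → Fin N' → ℂ,
      (∀ l, MeromorphicAt (fun z => Q z l) z₀) ∧
      Rel z₀ (Sum.elim t q) fun z => Sum.elim (U z) (Q z)) :
    ∃ (D₀ : ℂ → Fin M → ℂ) (Λ : ℤ), (∀ i, MeromorphicAt (fun z => D₀ z i) z₀) ∧
      (∀ i, ∀ᶠ z in 𝓝[≠] z₀, D₀ z i ≠ 0) ∧
      ∀ D : ℂ → Fin M → ℂ, (∀ i, MeromorphicAt (fun z => D z i) z₀) →
        (∀ i, (Λ : WithTop ℤ) ≤ meromorphicOrderAt (fun z => D z i - D₀ z i) z₀) →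
        ∃ V : ℂ → Fin (N + 1) → ℂ, AnalyticAt ℂ V z₀ ∧
          ∀ᶠ z in 𝓝[≠] z₀, V z ∈ Fibre (Fin.append t d) x (Fin.append (U z) (D z)) := by
  classical
  obtain ⟨e, y, σ, η, f, hσ, hyσ, hP⟩ := tw_pres T hT (Fin.cons (t 0) d : Fin (M + 1) → L) hd
  have hy0 : y (σ 0) = t 0 := by rw [hyσ, Fin.cons_zero]
  have hyd : ∀ j : Fin M, y (σ j.succ) = d j := fun j => by rw [hyσ, Fin.cons_succ]
  have hinj : ∀ S : MvPolynomial (Fin (e + 1)) ℂ, S ≠ 0 → MvPolynomial.aeval y S ≠ 0 := by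
    intro S hS h
    exact hS ((injective_iff_map_eq_zero (MvPolynomial.aeval (R := ℂ) y)).1 hP.ind S h)
  choose S Q hS hSQ using fun l => hP.gen (x l / x 0)
  obtain ⟨S₁, Q₁, hS₁, hSQ₁⟩ := hP.gen (t 1)
  choose Qm hQm using fun l => tw_toMv (Q l)
  obtain ⟨Q₁m, hQ₁m⟩ := tw_toMv Q₁
  obtain ⟨fm, hfm⟩ := tw_toMv f
  obtain ⟨Df, hDf⟩ := tw_toMv (Polynomial.derivative f)
  obtain ⟨E₁, hE₁, htr⟩ := tw_transfer y η f hP
  obtain ⟨G, hG⟩ : ∃ G, G = E₁ * (∏ l, S l) * S₁ := ⟨_, rfl⟩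
  have hG0 : G ≠ 0 := by
    rw [hG]
    exact mul_ne_zero (mul_ne_zero hE₁ (Finset.prod_ne_zero_iff.2 fun l _ => hS l)) hS₁
  obtain ⟨P, hPdef⟩ : ∃ P : MvPolynomial (Fin 2 ⊕ (Fin (e + 1) ⊕ Fin 1)) ℂ,
      P = MvPolynomial.rename Sum.inr (Df * MvPolynomial.rename Sum.inl
        (G * ∏ j : Fin M, MvPolynomial.X (σ j.succ))) *
        (if t 1 = 0 then 1 else MvPolynomial.X (Sum.inl 1)) := ⟨_, rfl⟩
  have hPev : ∀ {k : Type} [Field k] [Algebra ℂ k] (ρ : Fin 2 → k) (v : Fin (e + 1) → k) (w : k),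
      MvPolynomial.aeval (Sum.elim ρ (Sum.elim v fun _ => w)) P =
        (Polynomial.derivative f).eval₂ (MvPolynomial.aeval (R := ℂ) v).toRingHom w *
          (MvPolynomial.aeval v G * ∏ j : Fin M, v (σ j.succ)) *
          (if t 1 = 0 then 1 else ρ 1) := by
    intro k _ _ ρ v w
    rw [hPdef, map_mul, MvPolynomial.aeval_rename, Sum.elim_comp_inr, map_mul, hDf,
      MvPolynomial.aeval_rename, Sum.elim_comp_inl, map_mul, map_prod]
    simp only [MvPolynomial.aeval_X]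
    congr 1
    split_ifs
    · rw [map_one]
    · rw [MvPolynomial.aeval_X, Sum.elim_inl]
  have hPne : MvPolynomial.aeval (Sum.elim t (Sum.elim y fun _ : Fin 1 => η)) P ≠ 0 := by
    rw [hPev]
    refine mul_ne_zero (mul_ne_zero hP.sep (mul_ne_zero (hinj G hG0)
      (Finset.prod_ne_zero_iff.2 fun j _ => hP.ind.ne_zero _))) ?_
    split_ifs with h1
    · exact one_ne_zero
    · exact h1
  obtain ⟨A, hA, hRA, hPA⟩ := c6_germ t z₀ U hgerm (Sum.elim y fun _ : Fin 1 => η) P hPne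
  obtain ⟨Y, hYdef⟩ : ∃ Y : ℂ → Fin (e + 1) → ℂ, Y = fun z i => A z (Sum.inl i) := ⟨_, rfl⟩
  obtain ⟨ε, hεdef⟩ : ∃ ε : ℂ → ℂ, ε = fun z => A z (Sum.inr 0) := ⟨_, rfl⟩
  have hAsplit : ∀ z, A z = Sum.elim (Y z) fun _ => ε z := by
    intro z
    rw [hYdef, hεdef]
    exact c6_split (A z)
  have hY : ∀ i, MeromorphicAt (fun z => Y z i) z₀ := by
    intro i
    rw [hYdef]
    exact hA _
  have hε : MeromorphicAt ε z₀ := by
    rw [hεdef]
    exact hA _
  have hPA' : ∀ᶠ z in 𝓝[≠] z₀,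
      (Polynomial.derivative f).eval₂ (MvPolynomial.aeval (R := ℂ) (Y z)).toRingHom (ε z) ≠ 0 ∧
      MvPolynomial.aeval (Y z) G ≠ 0 ∧ (∀ j : Fin M, Y z (σ j.succ) ≠ 0) ∧
      (t 1 ≠ 0 → U z 1 ≠ 0) := by
    filter_upwards [hPA] with z hz
    rw [hAsplit z, hPev] at hz
    have h1 := left_ne_zero_of_mul hz
    have h2 := right_ne_zero_of_mul h1
    refine ⟨left_ne_zero_of_mul h1, left_ne_zero_of_mul h2, fun j => ?_, fun h3 => ?_⟩
    · exact Finset.prod_ne_zero_iff.1 (right_ne_zero_of_mul h2) j (Finset.mem_univ j)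
    · have h4 := right_ne_zero_of_mul hz
      rwa [if_neg h3] at h4
  have hR2 : Rel z₀ (Sum.elim y fun _ : Fin 1 => η) fun z => Sum.elim (Y z) fun _ => ε z := by
    have h1 := rel_map (Sum.inr : (Fin (e + 1) ⊕ Fin 1) → Fin 2 ⊕ (Fin (e + 1) ⊕ Fin 1)) hRA
    have e2 : (fun (z : ℂ) k => Sum.elim (U z) (A z) (Sum.inr k)) =
        fun z => Sum.elim (Y z) fun _ => ε z := by
      funext z
      exact hAsplit z
    rw [e2] at h1
    exact h1
  have hroot : ∀ᶠ z in 𝓝[≠] z₀,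
      f.eval₂ (MvPolynomial.aeval (R := ℂ) (Y z)).toRingHom (ε z) = 0 := by
    have h1 := hR2 fm (by rw [hfm]; exact hP.root)
    filter_upwards [h1] with z hz
    rw [hfm] at hz
    exact hz
  have hU0 : ∀ᶠ z in 𝓝[≠] z₀, Y z (σ 0) = U z 0 := by
    have h1 := hRA (MvPolynomial.X (Sum.inr (Sum.inl (σ 0))) - MvPolynomial.X (Sum.inl 0))
      (by simp [hy0])
    filter_upwards [h1] with z hz
    rw [hAsplit z] at hz
    simpa [sub_eq_zero] using hz
  -- the polynomial for the denominator of `t 1`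
  obtain ⟨s, hsdef⟩ : ∃ s : MvPolynomial (Fin (e + 1) ⊕ Fin 1) ℂ,
      s = MvPolynomial.rename Sum.inl S₁ := ⟨_, rfl⟩
  have hsev : ∀ {k : Type} [Field k] [Algebra ℂ k] (v : Fin (e + 1) → k) (w : k),
      MvPolynomial.aeval (Sum.elim v fun _ => w) s = MvPolynomial.aeval v S₁ := by
    intro k _ _ v w
    rw [hsdef, MvPolynomial.aeval_rename, Sum.elim_comp_inl]
  have hsq : MvPolynomial.aeval (Sum.elim y fun _ : Fin 1 => η) s * t 1 =
      MvPolynomial.aeval (Sum.elim y fun _ : Fin 1 => η) Q₁m := by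
    rw [hsev, hSQ₁, hQ₁m]
  have hkey : ∃ Λ₁ : ℤ, ∀ F' : ℂ → Fin (e + 1) ⊕ Fin 1 → ℂ,
      (∀ i, MeromorphicAt (fun z => F' z i) z₀) →
      (∀ i, (Λ₁ : WithTop ℤ) ≤ meromorphicOrderAt (fun z => F' z i - A z i) z₀) →
      Rel z₀ (Sum.elim y fun _ : Fin 1 => η) F' →
      (∀ᶠ z in 𝓝[≠] z₀, F' z (Sum.inl (σ 0)) = U z 0) →
      (∀ᶠ z in 𝓝[≠] z₀, MvPolynomial.aeval (F' z) s ≠ 0) →
      ∀ᶠ z in 𝓝[≠] z₀, MvPolynomial.aeval (F' z) s * U z 1 = MvPolynomial.aeval (F' z) Q₁m := by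
    by_cases h1 : t 1 = 0
    · refine ⟨0, fun F' _ _ hR' _ _ => ?_⟩
      have h2 := hRA (MvPolynomial.X (Sum.inl 1)) (by simp [h1])
      have h3 := hR' Q₁m (by rw [← hsq, h1, mul_zero])
      filter_upwards [h2, h3] with z hz2 hz3
      rw [MvPolynomial.aeval_X, Sum.elim_inl] at hz2
      rw [hz2, hz3, mul_zero]
    · obtain ⟨a, b, c, habc⟩ := ht1.resolve_left h1
      have hUne : ∀ᶠ z in 𝓝[≠] z₀, U z 1 ≠ 0 := by
        filter_upwards [hPA'] with z hz
        exact hz.2.2.2 h1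
      obtain ⟨n, hn⟩ := WithTop.ne_top_iff_exists.1
        ((meromorphicOrderAt_ne_top_iff_eventually_ne_zero (hU 1)).2 hUne)
      have hs : ∀ᶠ z in 𝓝[≠] z₀, MvPolynomial.aeval (A z) s ≠ 0 := by
        filter_upwards [hPA'] with z hz
        rw [hAsplit z, hsev]
        have h2 := hz.2.1
        rw [hG, map_mul] at h2
        exact right_ne_zero_of_mul h2
      obtain ⟨Λ₁, hΛ₁⟩ := tw_perturb_div Q₁m s z₀ A hA hs (n + 1)
      refine ⟨Λ₁, fun F' hF' hc hR' hF0 hFs => ?_⟩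
      obtain ⟨-, h3⟩ := hΛ₁ F' hF' hc
      have hUA : ∀ᶠ z in 𝓝[≠] z₀,
          MvPolynomial.aeval (A z) Q₁m / MvPolynomial.aeval (A z) s = U z 1 := by
        have h4 := hRA (MvPolynomial.rename Sum.inr s * MvPolynomial.X (Sum.inl 1) -
          MvPolynomial.rename Sum.inr Q₁m) (by
            rw [map_sub, map_mul, MvPolynomial.aeval_rename, MvPolynomial.aeval_rename,
              Sum.elim_comp_inr, MvPolynomial.aeval_X, Sum.elim_inl, hsq, sub_self])
        filter_upwards [h4, hs] with z hz4 hzs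
        rw [map_sub, map_mul, MvPolynomial.aeval_rename, MvPolynomial.aeval_rename,
          Sum.elim_comp_inr, MvPolynomial.aeval_X, Sum.elim_inl, sub_eq_zero] at hz4
        rw [div_eq_iff hzs, ← hz4, mul_comm]
      have hUsq : ∀ᶠ z in 𝓝[≠] z₀, U z 1 ^ 2 = U z 0 ^ 3 + a * U z 0 ^ 2 + b * U z 0 + c := by
        have h4 := hRA (MvPolynomial.X (Sum.inl 1) ^ 2 - (MvPolynomial.X (Sum.inl 0) ^ 3 +
          MvPolynomial.C a * MvPolynomial.X (Sum.inl 0) ^ 2 +
          MvPolynomial.C b * MvPolynomial.X (Sum.inl 0) + MvPolynomial.C c)) (by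
            simp [habc])
        filter_upwards [h4] with z hz
        simpa [sub_eq_zero] using hz
      have hR3 := rel_frac hR' (fun _ : Fin 1 => t 1)
        (fun z _ => MvPolynomial.aeval (F' z) Q₁m / MvPolynomial.aeval (F' z) s)
        (fun _ => Q₁m) (fun _ => s) (fun _ => by rw [hsev]; exact hinj S₁ hS₁) (fun _ => hsq)
        (fun _ => by
          filter_upwards [hFs] with z hz
          exact ⟨hz, mul_div_cancel₀ _ hz⟩)
      have hsq2 : ∀ᶠ z in 𝓝[≠] z₀,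
          (MvPolynomial.aeval (F' z) Q₁m / MvPolynomial.aeval (F' z) s) ^ 2 = U z 1 ^ 2 := by
        have h4 := hR3 (MvPolynomial.X (Sum.inr 0) ^ 2 -
          (MvPolynomial.X (Sum.inl (Sum.inl (σ 0))) ^ 3 +
          MvPolynomial.C a * MvPolynomial.X (Sum.inl (Sum.inl (σ 0))) ^ 2 +
          MvPolynomial.C b * MvPolynomial.X (Sum.inl (Sum.inl (σ 0))) + MvPolynomial.C c)) (by
            simp [hy0, habc])
        filter_upwards [h4, hF0, hUsq] with z hz hz0 hz1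
        simp only [map_sub, map_add, map_mul, map_pow, MvPolynomial.aeval_X, Sum.elim_inr,
          Sum.elim_inl, MvPolynomial.aeval_C, sub_eq_zero] at hz
        rw [hz, hz1, hz0]
        rfl
      have hord : meromorphicOrderAt (fun z => U z 1) z₀ < meromorphicOrderAt
          (fun z => MvPolynomial.aeval (F' z) Q₁m / MvPolynomial.aeval (F' z) s - U z 1) z₀ := by
        have h5 : meromorphicOrderAt (fun z => MvPolynomial.aeval (F' z) Q₁m /
            MvPolynomial.aeval (F' z) s - U z 1) z₀ = meromorphicOrderAt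
            (fun z => MvPolynomial.aeval (F' z) Q₁m / MvPolynomial.aeval (F' z) s -
              MvPolynomial.aeval (A z) Q₁m / MvPolynomial.aeval (A z) s) z₀ := by
          refine meromorphicOrderAt_congr ?_
          filter_upwards [hUA] with z hz
          rw [hz]
        rw [h5, ← hn]
        refine lt_of_lt_of_le ?_ h3
        rw [WithTop.coe_lt_coe]
        exact lt_add_one n
      have hfin := tw_sq (hU 1) ((tw_mero Q₁m z₀ F' hF').div (tw_mero s z₀ F' hF')) hsq2 hord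
      filter_upwards [hfin, hFs] with z hz hzs
      have h6 : MvPolynomial.aeval (F' z) Q₁m / MvPolynomial.aeval (F' z) s = U z 1 := hz
      rw [← h6, mul_div_cancel₀ _ hzs]
  obtain ⟨Λ₁, hΛ₁⟩ := hkey
  obtain ⟨Λ₂, hΛ₂⟩ := tw_hensel f z₀ Y ε hY hε hroot (by
    filter_upwards [hPA'] with z hz
    exact hz.1) Λ₁
  obtain ⟨Λ₃, hΛ₃⟩ := tw_perturb_ne G z₀ Y hY (by
    filter_upwards [hPA'] with z hz
    exact hz.2.1)
  refine ⟨fun z j => Y z (σ j.succ), max Λ₁ (max Λ₂ Λ₃), fun j => hY _, fun j => ?_,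
    fun D hD hDc => ?_⟩
  · filter_upwards [hPA'] with z hz
    exact hz.2.2.1 j
  have hin : Function.Injective fun j : Fin M => σ j.succ :=
    fun a b h => Fin.succ_injective _ (hσ h)
  obtain ⟨Y', hY'def⟩ : ∃ Y' : ℂ → Fin (e + 1) → ℂ,
      Y' = fun z => Function.extend (fun j : Fin M => σ j.succ) (D z) (Y z) := ⟨_, rfl⟩
  have hY'd : ∀ z (j : Fin M), Y' z (σ j.succ) = D z j := by
    intro z j
    rw [hY'def]
    exact hin.extend_apply _ _ j
  have hY'o : ∀ z i, (¬ ∃ j : Fin M, σ j.succ = i) → Y' z i = Y z i := by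
    intro z i h
    rw [hY'def]
    exact Function.extend_apply' _ _ _ h
  have hY'm : ∀ i, MeromorphicAt (fun z => Y' z i) z₀ := by
    intro i
    by_cases h : ∃ j : Fin M, σ j.succ = i
    · obtain ⟨j, rfl⟩ := h
      have e1 : (fun z => Y' z (σ j.succ)) = fun z => D z j := funext fun z => hY'd z j
      rw [e1]
      exact hD j
    · have e1 : (fun z => Y' z i) = fun z => Y z i := funext fun z => hY'o z i h
      rw [e1]
      exact hY i
  have hclose : ∀ i, ((max Λ₁ (max Λ₂ Λ₃) : ℤ) : WithTop ℤ) ≤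
      meromorphicOrderAt (fun z => Y' z i - Y z i) z₀ := by
    intro i
    by_cases h : ∃ j : Fin M, σ j.succ = i
    · obtain ⟨j, rfl⟩ := h
      have e1 : (fun z => Y' z (σ j.succ) - Y z (σ j.succ)) =
          fun z => D z j - Y z (σ j.succ) := funext fun z => by rw [hY'd]
      rw [e1]
      exact hDc j
    · have e1 : (fun z => Y' z i - Y z i) = fun _ => (0 : ℂ) :=
        funext fun z => by rw [hY'o z i h, sub_self]
      have h2 : meromorphicOrderAt (fun _ : ℂ => (0 : ℂ)) z₀ = ⊤ := by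
        rw [meromorphicOrderAt_eq_top_iff]
        exact Eventually.of_forall fun _ => rfl
      rw [e1, h2]
      exact le_top
  have m1 : Λ₁ ≤ max Λ₁ (max Λ₂ Λ₃) := le_max_left _ _
  have m2 : Λ₂ ≤ max Λ₁ (max Λ₂ Λ₃) := (le_max_left _ _).trans (le_max_right _ _)
  have m3 : Λ₃ ≤ max Λ₁ (max Λ₂ Λ₃) := (le_max_right _ _).trans (le_max_right _ _)
  obtain ⟨ε', hε', hroot', hεc⟩ := hΛ₂ Y' hY'm fun i =>
    le_trans (WithTop.coe_le_coe.2 m2) (hclose i)
  have hGY' := hΛ₃ Y' hY'm fun i => le_trans (WithTop.coe_le_coe.2 m3) (hclose i)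
  have hRel := htr z₀ Y' ε' hroot' (by
    filter_upwards [hGY'] with z hz
    rw [hG, map_mul, map_mul] at hz
    exact left_ne_zero_of_mul (left_ne_zero_of_mul hz))
  obtain ⟨F', hF'def⟩ : ∃ F' : ℂ → Fin (e + 1) ⊕ Fin 1 → ℂ,
      F' = fun z => Sum.elim (Y' z) fun _ => ε' z := ⟨_, rfl⟩
  rw [← hF'def] at hRel
  have hF'm : ∀ i, MeromorphicAt (fun z => F' z i) z₀ := by
    intro i
    rw [hF'def]
    rcases i with i | i
    · exact hY'm i
    · exact hε'
  have hF'c : ∀ i, (Λ₁ : WithTop ℤ) ≤ meromorphicOrderAt (fun z => F' z i - A z i) z₀ := by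
    intro i
    have e1 : (fun z => F' z i - A z i) = fun z => (Sum.elim (Y' z) fun _ : Fin 1 => ε' z) i -
        (Sum.elim (Y z) fun _ : Fin 1 => ε z) i := by
      funext z
      rw [hF'def, hAsplit z]
    rw [e1]
    rcases i with i | i
    · exact le_trans (WithTop.coe_le_coe.2 m1) (hclose i)
    · exact hεc
  have hF'0 : ∀ᶠ z in 𝓝[≠] z₀, F' z (Sum.inl (σ 0)) = U z 0 := by
    filter_upwards [hU0] with z hz
    rw [hF'def]
    change Y' z (σ 0) = U z 0
    rw [hY'o z (σ 0) (by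
      rintro ⟨j, hj⟩
      exact Fin.succ_ne_zero j (hσ hj)), hz]
  have hF's : ∀ᶠ z in 𝓝[≠] z₀, MvPolynomial.aeval (F' z) s ≠ 0 := by
    filter_upwards [hGY'] with z hz
    rw [hG, map_mul] at hz
    rw [hF'def]
    change MvPolynomial.aeval (Sum.elim (Y' z) fun _ => ε' z) s ≠ 0
    rw [hsev]
    exact right_ne_zero_of_mul hz
  have hF'S : ∀ l, ∀ᶠ z in 𝓝[≠] z₀,
      MvPolynomial.aeval (F' z) (MvPolynomial.rename Sum.inl (S l)) ≠ 0 := by
    intro l
    filter_upwards [hGY'] with z hz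
    rw [hG, map_mul, map_mul, map_prod] at hz
    rw [hF'def]
    change MvPolynomial.aeval (Sum.elim (Y' z) fun _ => ε' z)
      (MvPolynomial.rename Sum.inl (S l)) ≠ 0
    rw [MvPolynomial.aeval_rename, Sum.elim_comp_inl]
    exact Finset.prod_ne_zero_iff.1 (right_ne_zero_of_mul (left_ne_zero_of_mul hz)) l
      (Finset.mem_univ l)
  have hk := hΛ₁ F' hF'm hF'c hRel hF'0 hF's
  have hfr := rel_frac hRel (Sum.elim t fun l => x l / x 0)
    (fun z => Sum.elim (U z) fun l => MvPolynomial.aeval (F' z) (Qm l) /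
      MvPolynomial.aeval (F' z) (MvPolynomial.rename Sum.inl (S l)))
    (Sum.elim ![MvPolynomial.X (Sum.inl (σ 0)), Q₁m] Qm)
    (Sum.elim ![1, s] fun l => MvPolynomial.rename Sum.inl (S l))
    (by
      rintro (i | l)
      · fin_cases i
        · simp
        · change MvPolynomial.aeval (Sum.elim y fun _ : Fin 1 => η) s ≠ 0
          rw [hsev]
          exact hinj S₁ hS₁
      · change MvPolynomial.aeval (Sum.elim y fun _ : Fin 1 => η)
          (MvPolynomial.rename Sum.inl (S l)) ≠ 0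
        rw [MvPolynomial.aeval_rename, Sum.elim_comp_inl]
        exact hinj (S l) (hS l))
    (by
      rintro (i | l)
      · fin_cases i
        · simp [hy0]
        · exact hsq
      · change MvPolynomial.aeval (Sum.elim y fun _ : Fin 1 => η)
          (MvPolynomial.rename Sum.inl (S l)) * (x l / x 0) =
          MvPolynomial.aeval (Sum.elim y fun _ : Fin 1 => η) (Qm l)
        rw [MvPolynomial.aeval_rename, Sum.elim_comp_inl, hSQ, hQm])
    (by
      rintro (i | l)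
      · fin_cases i
        · filter_upwards [hF'0] with z hz
          simp [hz]
        · filter_upwards [hk, hF's] with z hz hzs
          exact ⟨hzs, hz⟩
      · filter_upwards [hF'S l] with z hz
        exact ⟨hz, mul_div_cancel₀ _ hz⟩)
  have hτ := rel_map (Sum.elim (Fin.addCases (fun a : Fin 2 => Sum.inr (Sum.inl a))
      (fun j : Fin M => Sum.inl (Sum.inl (σ j.succ)))) (fun l : Fin (N + 1) => Sum.inr (Sum.inr l)) :
      Fin (2 + M) ⊕ Fin (N + 1) → (Fin (e + 1) ⊕ Fin 1) ⊕ (Fin 2 ⊕ Fin (N + 1))) hfr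
  refine fibre_of_rel (Fin.append t d) x hx z₀ (fun z => Fin.append (U z) (D z))
    (fun z l => MvPolynomial.aeval (F' z) (Qm l) /
      MvPolynomial.aeval (F' z) (MvPolynomial.rename Sum.inl (S l)))
    (fun l => (tw_mero (Qm l) z₀ F' hF'm).div (tw_mero _ z₀ F' hF'm)) ?_
  have e1 : (Sum.elim (Fin.append t d) fun l => x l / x 0) = fun k =>
      Sum.elim (Sum.elim y fun _ : Fin 1 => η) (Sum.elim t fun l => x l / x 0)
      ((Sum.elim (Fin.addCases (fun a : Fin 2 => Sum.inr (Sum.inl a))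
      (fun j : Fin M => Sum.inl (Sum.inl (σ j.succ)))) (fun l : Fin (N + 1) => Sum.inr (Sum.inr l)) :
      Fin (2 + M) ⊕ Fin (N + 1) → (Fin (e + 1) ⊕ Fin 1) ⊕ (Fin 2 ⊕ Fin (N + 1))) k) := by
    funext k
    rcases k with i | l
    · refine Fin.addCases (fun a => ?_) (fun j => ?_) i
      · simp
      · simp [hyd]
    · rfl
  have e2 : (fun z => Sum.elim (Fin.append (U z) (D z)) fun l => MvPolynomial.aeval (F' z) (Qm l) /
      MvPolynomial.aeval (F' z) (MvPolynomial.rename Sum.inl (S l))) = fun z k =>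
      Sum.elim (F' z) (Sum.elim (U z) fun l => MvPolynomial.aeval (F' z) (Qm l) /
      MvPolynomial.aeval (F' z) (MvPolynomial.rename Sum.inl (S l)))
      ((Sum.elim (Fin.addCases (fun a : Fin 2 => Sum.inr (Sum.inl a))
      (fun j : Fin M => Sum.inl (Sum.inl (σ j.succ)))) (fun l : Fin (N + 1) => Sum.inr (Sum.inr l)) :
      Fin (2 + M) ⊕ Fin (N + 1) → (Fin (e + 1) ⊕ Fin 1) ⊕ (Fin 2 ⊕ Fin (N + 1))) k) := by
    funext z k
    rcases k with i | l
    · refine Fin.addCases (fun a => ?_) (fun j => ?_) i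
      · simp
      · simp [hF'def, hY'd]
    · rfl
  rw [e1, e2]
  exact hτ

end Pool.Agent.AbPencil
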