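import Pool.Agent.Lib_MP_1209e6_sk.Z0
import Pool.Agent.Lib_MP_1209e6_sk.Z9
import Pool.Agent.Lib_MP_1209e6_sk.Z10
import Pool.Agent.Lib_MP_1209e6_sk.Z11

/-! PIECE D1: germs of functions of `K(w)` over the base curve. -/

set_option autoImplicit false

open Filter Topology

namespace Pool.Agent.AbPencil

open Pool.Agent.Campana Pool.Agent.AbFib

/-- Proof. `wv` is algebraically independent over `K`. `exists_indep` (`sk/Z11`) for `d = wv`, `D₀ = 1`: `h`, and `(U, W)`, `W i = 1 * exp (h i)`, is a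
dense curve for `(t, w)`. Unfold `hloc`: `O, v, e, k, m, g, s, A, B, A', B'` (`v 1 = 0`). `ind_of_dense` (`sk/Z10`; `g 0` is transcendental by
`trans_of_ord`) gives the hypothesis `hind` of `lift_point` (`sk/Z9`) with `δ = 1`, `n = 1`, `D = W` (orders `0`). It gives germs `G`, `Q` and the
relations for `(g, w^1/1, q)`. Add `t` by `rel_frac` and forget the rest by `rel_map`: exactly as in the proof of `brody_of_local`
(`sk/G.lean`) and `brody_of_local₀` (`sk/G0.lean`). -/
theorem tw_germs {K : Type} [Field K] [Algebra ℂ K] (T₀ : Finset K)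
    (hT₀ : IntermediateField.adjoin ℂ (T₀ : Set K) = ⊤) {n₀ r : ℕ} (t : Fin n₀ → K)
    (U : ℂ → Fin n₀ → ℂ) (hU : IsDenseCurve t U) (z₀ : ℂ) (ν : Fin r → ℤ)
    (hloc : LocalPlace t U (fun _ : Fin r => (1 : K)) z₀ ν) {N : ℕ} (q : Fin N → KW K r) :
    ∃ Q : ℂ → Fin N → ℂ, (∀ l, MeromorphicAt (fun z => Q z l) z₀) ∧
      Rel z₀ (Sum.elim (fun a => algebraMap K (KW K r) (t a)) q) fun z => Sum.elim (U z) (Q z) := by
  classical
  have hd := algebraicIndependent_tw (fun _ : Fin r => (1 : K)) (fun _ => one_ne_zero)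
    (fun _ => 1) (fun _ => le_refl 1)
  obtain ⟨hh, hh1, hdense⟩ := exists_indep t U hU
    (fun i : Fin r => (wv i ^ 1 / algebraMap K (KW K r) 1)) hd (fun _ _ => 1)
    (fun _ _ => MeromorphicAt.const _ _) (fun _ _ => Filter.Eventually.of_forall fun _ => one_ne_zero)
  set D : ℂ → Fin r → ℂ := fun z i => 1 * Complex.exp (hh i z) with hDdef
  have hexp : ∀ i z, AnalyticAt ℂ (fun w => Complex.exp (hh i w)) z := fun i z =>
    ((hh1 i).analyticAt z).cexp
  have hDe : ∀ i, (fun w => D w i) = fun w => Complex.exp (hh i w) := fun i => by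
    funext w
    simp [hDdef]
  have hDm : ∀ i z, MeromorphicAt (fun w => D w i) z := fun i z => by
    rw [hDe]
    exact (hexp i z).meromorphicAt
  have hDo : ∀ i z, meromorphicOrderAt (fun w => D w i) z = 0 := by
    intro i z
    rw [hDe, (hexp i z).meromorphicOrderAt_eq,
      (hexp i z).analyticOrderAt_eq_zero.2 (Complex.exp_ne_zero _)]
    rfl
  obtain ⟨O, v, e, k, m', g, s, A, B, A', B', hO, hv, he, hk, hg, hg0, hve, hνz, hs, hso, hB, hAB,
    hsAB, hB', hmatch⟩ := hloc
  have hv1 : v (1 : K) = 0 := by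
    have := ord_const hO hv (one_ne_zero : (1 : ℂ) ≠ 0)
    rwa [map_one] at this
  have hτ := trans_of_ord hO hv hg0 (by rw [hve]; exact_mod_cast he)
  have hind := ind_of_dense t _ hd U D hdense (g 0) hτ A B hB hAB z₀ s hsAB
  obtain ⟨G, Q, hG, hG0, hGrel, hQ, hrel⟩ := lift_point T₀ hT₀ O hO v hv e k he hk g hg hg0 hve z₀ s
    hs hso (fun _ : Fin r => (1 : K)) (fun _ => one_ne_zero) (fun _ => 1) (fun _ => le_refl 1) D
    (fun i => hDm i z₀) (fun i => by rw [hDo, hv1]; simp) hind q
  have hm := hmatch G hG hG0 hGrel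
  refine ⟨Q, hQ, ?_⟩
  -- add `t`
  have key : ∀ (F : (Fin (m' + 1) ⊕ Fin r) ⊕ Fin N → ℂ) (p : MvPolynomial (Fin (m' + 1)) ℂ),
      MvPolynomial.aeval F (MvPolynomial.rename (fun j => Sum.inl (Sum.inl j)) p) =
        MvPolynomial.aeval (fun j => F (Sum.inl (Sum.inl j))) p := by
    intro F p
    rw [MvPolynomial.aeval_rename]
    rfl
  have key2 : ∀ p : MvPolynomial (Fin (m' + 1)) ℂ,
      MvPolynomial.aeval (Sum.elim (Sum.elim (fun j => algebraMap K (KW K r) (g j))
          (fun i : Fin r => wv i ^ 1 / algebraMap K (KW K r) 1)) q)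
          (MvPolynomial.rename (fun j => Sum.inl (Sum.inl j)) p) =
        algebraMap K (KW K r) (MvPolynomial.aeval g p) := by
    intro p
    rw [MvPolynomial.aeval_rename]
    exact (MvPolynomial.aeval_algebraMap_apply (KW K r) g p)
  have h1 := rel_frac hrel (fun a : Fin n₀ => algebraMap K (KW K r) (t a)) U
    (fun a => MvPolynomial.rename (fun j => Sum.inl (Sum.inl j)) (A' a))
    (fun a => MvPolynomial.rename (fun j => Sum.inl (Sum.inl j)) (B' a))
    (fun a => by
      rw [key2]
      exact (map_ne_zero _).2 (hB' a).1)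
    (fun a => by
      rw [key2, key2, ← map_mul, (hB' a).2])
    (fun a => by
      filter_upwards [hm a] with z hz
      rw [key, key]
      exact hz)
  have h2 := rel_map (κ := Fin n₀ ⊕ Fin N)
    (Sum.elim (fun a => Sum.inr a) fun l => Sum.inl (Sum.inr l)) h1
  have e1 : (Sum.elim (fun a => algebraMap K (KW K r) (t a)) q : Fin n₀ ⊕ Fin N → KW K r) =
      fun k => (Sum.elim
        (Sum.elim (Sum.elim (fun j => (algebraMap K (KW K r)) (g j))
          fun i : Fin r => wv i ^ 1 / (algebraMap K (KW K r)) 1) q)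
          (fun a => (algebraMap K (KW K r)) (t a))
      (Sum.elim (fun a => Sum.inr a) (fun l => Sum.inl (Sum.inr l)) k)) := by
    funext k
    rcases k with k | k <;> rfl
  have e2 : (fun z => Sum.elim (U z) (Q z)) = fun z k => Sum.elim
      (Sum.elim (Sum.elim (G z) (D z)) (Q z)) (U z)
      (Sum.elim (fun a => Sum.inr a) (fun l => Sum.inl (Sum.inr l)) k) := by
    funext z k
    rcases k with k | k <;> rfl
  rw [e1, e2]
  exact h2

end Pool.Agent.AbPencil
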