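import Pool.Agent.Lib_MP_1209e6_ab.N2
import Pool.Agent.Lib_MP_1209e6_sk.Defs

/-! PIECE D2: small facts about the base. -/

set_option autoImplicit false

open Filter Topology

namespace Pool.Agent.AbPencil

open Pool.Agent.AbFib

/-- Proof. `U` is meromorphic, hence analytic off `z` near `z` (`MeromorphicAt.eventually_analyticAt`); `q(t_0) ≠ 0` since `t_0` is
transcendental, so `q(U w 0) ≠ 0` off `z` by `dense_ne` (`ab/N2`) for the polynomial `q(X 0)`. -/
theorem tw_bad {L : Type} [Field L] [Algebra ℂ L] {n₀ : ℕ} (t : Fin (n₀ + 1) → L)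
    (ht0 : Transcendental ℂ (t 0)) (U : ℂ → Fin (n₀ + 1) → ℂ) (hU : IsDenseCurve t U)
    (q : Polynomial ℂ) (hq : q ≠ 0) (z : ℂ) :
    ∀ᶠ w in 𝓝[≠] z, AnalyticAt ℂ U w ∧ q.eval (U w 0) ≠ 0 := by
  have hz : ∀ᶠ w in 𝓝[≠] z, AnalyticAt ℂ U w := (hU.1 z).eventually_analyticAt
  have hp : MvPolynomial.aeval t (Polynomial.aeval (MvPolynomial.X 0 : MvPolynomial (Fin (n₀ + 1)) ℂ) q) ≠ 0 := by
    rw [← Polynomial.aeval_algHom_apply, MvPolynomial.aeval_X]
    exact fun h => hq ((transcendental_iff.1 ht0) q h)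
  have h1 := dense_ne hU _ hp z
  filter_upwards [hz, h1] with w hw1 hw2
  refine ⟨hw1, fun h => hw2 ?_⟩
  have h3 : MvPolynomial.eval (U w) (Polynomial.aeval (MvPolynomial.X 0 : MvPolynomial (Fin (n₀ + 1)) ℂ) q) =
      q.eval (U w 0) := by
    have h4 := Polynomial.aeval_algHom_apply (MvPolynomial.aeval (R := ℂ) (U w))
      (MvPolynomial.X 0 : MvPolynomial (Fin (n₀ + 1)) ℂ) q
    rw [MvPolynomial.aeval_X, Polynomial.coe_aeval_eq_eval] at h4
    rw [h4]
    rfl
  rw [h3, h]

/-- Proof. The ring `ℂ[t_0, t_1]` is algebraic over `ℂ[t_0]`. A transcendence degree argument with the matroid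
`AlgebraicIndependent.matroid ℂ L` (as in `exists_fac`, `sk/Z11`, and `sl_trdeg`, `sl/M0`), or directly:
`AlgebraicIndependent` over `ℂ[t_0]` by `AlgebraicIndependent.option_iff` / `iff_adjoin_image`
(`Fin.cons (t 0) d` independent over `ℂ` means `d` independent over `ℂ[t_0]` and `t_0` transcendental), then pass to the algebraic extension `ℂ[t_0, t_1]`
(`AlgebraicIndependent.extendScalars` or a transcendence basis argument). -/
theorem tw_indep {L : Type} [Field L] [Algebra ℂ L] {M : ℕ} (t : Fin 2 → L)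
    (ht1 : t 1 = 0 ∨ ∃ a b c : ℂ, t 1 ^ 2 =
      t 0 ^ 3 + algebraMap ℂ L a * t 0 ^ 2 + algebraMap ℂ L b * t 0 + algebraMap ℂ L c)
    (d : Fin M → L) (hd : AlgebraicIndependent ℂ (Fin.cons (t 0) d : Fin (M + 1) → L)) :
    AlgebraicIndependent (Algebra.adjoin ℂ (Set.range t)) d := by
  have hd1 : AlgebraicIndependent ℂ (Sum.elim d (fun _ : Fin 1 => t 0)) := by
    have h := hd.comp (Sum.elim (fun i : Fin M => i.succ) fun _ : Fin 1 => (0 : Fin (M + 1))) ?_
    · convert h using 1
      funext i
      rcases i with i | i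
      · simp
      · simp
    · rintro (i | i) (j | j) h
      · exact congrArg Sum.inl (Fin.succ_injective M h)
      · exact absurd h (Fin.succ_ne_zero i)
      · exact absurd h.symm (Fin.succ_ne_zero j)
      · exact congrArg Sum.inr (Subsingleton.elim i j)
  have hd2 := (AlgebraicIndependent.sumElim_iff.1 hd1).2
  have hd3 := hd2.subalgebraAlgebraicClosure
  have h0 : t 0 ∈ Algebra.adjoin ℂ (Set.range fun _ : Fin 1 => t 0) := Algebra.subset_adjoin ⟨0, rfl⟩
  have halg1 : IsAlgebraic (Algebra.adjoin ℂ (Set.range fun _ : Fin 1 => t 0)) (t 1) := by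
    rcases ht1 with h | ⟨a, b, c, h⟩
    · rw [h]
      exact isAlgebraic_zero
    · refine IsAlgebraic.of_pow (n := 2) (by norm_num) ?_
      rw [h]
      have hm : t 0 ^ 3 + algebraMap ℂ L a * t 0 ^ 2 + algebraMap ℂ L b * t 0 + algebraMap ℂ L c ∈
          Algebra.adjoin ℂ (Set.range fun _ : Fin 1 => t 0) :=
        add_mem (add_mem (add_mem (pow_mem h0 3) (mul_mem (Subalgebra.algebraMap_mem _ a) (pow_mem h0 2)))
          (mul_mem (Subalgebra.algebraMap_mem _ b) h0)) (Subalgebra.algebraMap_mem _ c)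
      exact isAlgebraic_algebraMap (⟨_, hm⟩ : Algebra.adjoin ℂ (Set.range fun _ : Fin 1 => t 0))
  have halg : ∀ y ∈ Algebra.adjoin ℂ (Set.range t),
      y ∈ Subalgebra.algebraicClosure (Algebra.adjoin ℂ (Set.range fun _ : Fin 1 => t 0)) L := by
    intro y hy
    induction hy using Algebra.adjoin_induction with
    | mem y hy =>
      obtain ⟨i, rfl⟩ := hy
      rw [Subalgebra.mem_algebraicClosure]
      fin_cases i
      · exact isAlgebraic_algebraMap (⟨_, h0⟩ : Algebra.adjoin ℂ (Set.range fun _ : Fin 1 => t 0))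
      · exact halg1
    | algebraMap r =>
      rw [Subalgebra.mem_algebraicClosure]
      exact isAlgebraic_algebraMap
        (⟨_, Subalgebra.algebraMap_mem _ r⟩ : Algebra.adjoin ℂ (Set.range fun _ : Fin 1 => t 0))
    | add y z _ _ hy hz => exact add_mem hy hz
    | mul y z _ _ hy hz => exact mul_mem hy hz
  let j : Algebra.adjoin ℂ (Set.range t) →+*
      Subalgebra.algebraicClosure (Algebra.adjoin ℂ (Set.range fun _ : Fin 1 => t 0)) L :=
    { toFun := fun y => ⟨y, halg y y.2⟩
      map_one' := rfl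
      map_mul' := fun _ _ => rfl
      map_zero' := rfl
      map_add' := fun _ _ => rfl }
  have hj : Function.Injective j := by
    intro y z h
    have h' : ((j y : L)) = (j z : L) := by rw [h]
    exact Subtype.ext h'
  rw [algebraicIndependent_iff]
  intro p hp
  have h5 : MvPolynomial.aeval d (MvPolynomial.map j p) = 0 := by
    rw [MvPolynomial.aeval_def, MvPolynomial.eval₂_map]
    rw [MvPolynomial.aeval_def] at hp
    exact hp
  have h6 := algebraicIndependent_iff.1 hd3 _ h5
  exact MvPolynomial.map_injective j hj (by rw [h6, map_zero])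

/-- Proof. `K` is generated by the elements of `T₀`, `K(w)` by their images and the `w_i` (`IsFractionRing.div_surjective`; polynomials over
`K` are sums of products of elements of `K` and monomials in the `w_i`). -/
theorem tw_fg {K : Type} [Field K] [Algebra ℂ K] (T₀ : Finset K)
    (hT₀ : IntermediateField.adjoin ℂ (T₀ : Set K) = ⊤) (r : ℕ) :
    ∃ T : Finset (KW K r), IntermediateField.adjoin ℂ (T : Set (KW K r)) = ⊤ := by
  classical
  have hw : ∀ i : Fin r, (wv i : KW K r) ∈ Finset.image (fun i : Fin r => (wv i : KW K r)) Finset.univ :=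
    fun i => Finset.mem_image_of_mem _ (Finset.mem_univ i)
  refine ⟨T₀.image (algebraMap K (KW K r)) ∪ Finset.univ.image (fun i : Fin r => (wv i : KW K r)), ?_⟩
  set F := IntermediateField.adjoin ℂ
    ((T₀.image (algebraMap K (KW K r)) ∪ Finset.univ.image (fun i : Fin r => (wv i : KW K r)) :
      Finset (KW K r)) : Set (KW K r)) with hF
  have hK : ∀ k : K, algebraMap K (KW K r) k ∈ F := by
    intro k
    have h1 : IntermediateField.adjoin ℂ (T₀ : Set K) ≤
        F.comap (IsScalarTower.toAlgHom ℂ K (KW K r)) := by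
      rw [IntermediateField.adjoin_le_iff]
      intro a ha
      refine IntermediateField.subset_adjoin ℂ _ ?_
      rw [Finset.mem_coe, Finset.mem_union]
      exact Or.inl (Finset.mem_image_of_mem _ ha)
    rw [hT₀] at h1
    exact h1 (IntermediateField.mem_top (x := k))
  have hP : ∀ p : MvPolynomial (Fin r) K, algebraMap (MvPolynomial (Fin r) K) (KW K r) p ∈ F := by
    intro p
    induction p using MvPolynomial.induction_on with
    | C a => exact hK a
    | add p q hp hq =>
      rw [map_add]
      exact add_mem hp hq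
    | mul_X p i hp =>
      rw [map_mul]
      refine mul_mem hp (IntermediateField.subset_adjoin ℂ _ ?_)
      rw [Finset.mem_coe, Finset.mem_union]
      exact Or.inr (hw i)
  rw [eq_top_iff]
  intro y _
  obtain ⟨a, b, _, rfl⟩ := IsFractionRing.div_surjective (A := MvPolynomial (Fin r) K) y
  exact div_mem (hP a) (hP b)

end Pool.Agent.AbPencil
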