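import Pool.Agent.Lib_MP_1209e6_sk.Stmt

/-!
# Special varieties with an abelian fibration over `B × ℙ^M`: definitions for the statement

`MP_1209e6_ag`. `B` is a line or an elliptic curve (`IsBase t`); over the divisors `{b} × ℙ^M` and over the coordinate
hyperplanes the fibration is arbitrary.
-/

set_option autoImplicit false

open Filter Topology

namespace Pool.Agent.AbPencil

open Pool.Agent.AbFib

/-- Local sections in codimension one: let `W` be the closure of the point `(t, d, [x])` in `ℂ^2 × ℂ^M × ℙ^N`. There is a
set `H` of polynomials in the variables `(t_0, d_1, …, d_M)`, whose common divisors divide products `q(t_0) d^s` (so the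
components of codimension one of its set of zeros are fibres over points of the curve or coordinate hyperplanes), such
that `W` has a holomorphic local section over the closure of the point `(t, d)` at each `(a, b)` which is not a common zero of
`H` and has `b_i ≠ 0` for all `i`. -/
def HasPencilSections {L : Type} [Field L] [Algebra ℂ L] {M N : ℕ} (t : Fin 2 → L) (d : Fin M → L)
    (x : Fin (N + 1) → L) : Prop :=
  ∃ H : Set (MvPolynomial (Fin (M + 1)) ℂ),
    (∀ p, (∀ h ∈ H, p ∣ h) → ∃ (q : Polynomial ℂ) (s : Fin (M + 1) →₀ ℕ), q ≠ 0 ∧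
      p ∣ Polynomial.aeval (MvPolynomial.X 0) q * MvPolynomial.monomial s 1) ∧
    ∀ (a : Fin 2 → ℂ) (b : Fin M → ℂ), (∀ i, b i ≠ 0) →
      (∃ h ∈ H, MvPolynomial.eval (Fin.cons (a 0) b : Fin (M + 1) → ℂ) h ≠ 0) →
      ∃ σ : (Fin (2 + M) → ℂ) → Fin (N + 1) → ℂ, AnalyticAt ℂ σ (Fin.append a b) ∧
        ∀ᶠ u in 𝓝 (Fin.append a b), (∀ p : MvPolynomial (Fin (2 + M)) ℂ,
          MvPolynomial.aeval (Fin.append t d) p = 0 → MvPolynomial.eval u p = 0) →
            σ u ∈ Fibre (Fin.append t d) x u

/-- The pencil `t` on the variety with function field `K` is of tower type: for some `r`, `M` and `d_1, …, d_M` in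
`K(w_1, …, w_r)` such that `t_0, d_1, …, d_M` are algebraically independent, `(t, d)` defines an abelian fibration on
`K(w_1, …, w_r)` (that is, on the product with `ℙ^r`) with local sections in codimension one, off the fibres over points of
the curve and off the coordinate hyperplanes of `ℙ^M`. -/
def IsTowerType {K : Type} [Field K] [Algebra ℂ K] (t : Fin 2 → K) : Prop :=
  ∃ (r M N : ℕ) (d : Fin M → KW K r) (x : Fin (N + 1) → KW K r),
    AlgebraicIndependent ℂ (Fin.cons (algebraMap K (KW K r) (t 0)) d : Fin (M + 1) → KW K r) ∧
    IsAbelianFibration (Fin.append (fun a => algebraMap K (KW K r) (t a)) d) x ∧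
    HasPencilSections (fun a => algebraMap K (KW K r) (t a)) d x

end Pool.Agent.AbPencil
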