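import Pool.Agent.Lib_MP_1209e6_sp.P2
import Pool.Agent.Lib_MP_1209e6_sk.L1
import Pool.Agent.Lib_MP_1209e6_sk.C4
import Pool.Agent.Lib_MP_1209e6_sk.Z13
import Pool.Agent.Lib_MP_1209e6_tw.Stmt
import Pool.Agent.Lib_MP_1209e6_tw.A4
import Pool.Agent.Lib_MP_1209e6_tw.A5
import Pool.Agent.Lib_MP_1209e6_tw.B2
import Pool.Agent.Lib_MP_1209e6_tw.B3
import Pool.Agent.Lib_MP_1209e6_tw.C6
import Pool.Agent.Lib_MP_1209e6_tw.D1
import Pool.Agent.Lib_MP_1209e6_tw.D2

/-! Assembly. -/

set_option autoImplicit false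

open Filter Topology

namespace Pool.Agent.AbPencil

open Pool.Agent.Campana Pool.Agent.CampanaFlow Pool.Agent.AbFib Tw

/-- base curve and local data for `IsBase` -/
theorem tw_base {K : Type} [Field K] [Algebra ℂ K] (T₀ : Finset K)
    (hT₀ : IntermediateField.adjoin ℂ (T₀ : Set K) = ⊤) (hb : PencilBound K) (t : Fin 2 → K)
    (ht : IsBase t) (r : ℕ) :
    ∃ (U : ℂ → Fin 2 → ℂ) (ν : ℂ → Fin r → ℤ), IsDenseCurve t U ∧
      ∀ z, LocalPlace t U (fun _ : Fin r => (1 : K)) z (ν z) := by
  have ht2 : t = ![t 0, t 1] := by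
    funext i
    fin_cases i <;> rfl
  obtain ⟨h0, h1 | ⟨a, b, c, hd, hc⟩⟩ := ht
  · obtain ⟨u, ν, hu, -, hloc⟩ := local_line T₀ hT₀ (t 0) h0 hb (fun _ : Fin r => (1 : K))
      fun _ => one_ne_zero
    rw [← h1, ← ht2] at hu hloc
    exact ⟨_, ν, hu, hloc⟩
  · obtain ⟨U, ν, hu, -, hloc⟩ := local_cubic T₀ hT₀ hb a b c hd (t 0) (t 1) h0 hc
      (fun _ : Fin r => (1 : K)) fun _ => one_ne_zero
    rw [← ht2] at hu hloc
    exact ⟨U, ν, hu, hloc⟩

/-- a dense curve stays dense after extension of the field -/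
theorem tw_dense_ext {K L : Type} [Field K] [Algebra ℂ K] [Field L] [Algebra ℂ L] [Algebra K L]
    [IsScalarTower ℂ K L] {n : ℕ} {t : Fin n → K} {U : ℂ → Fin n → ℂ} (hU : IsDenseCurve t U) :
    IsDenseCurve (fun a => algebraMap K L (t a)) U := by
  refine ⟨hU.1, fun p => ?_⟩
  rw [← hU.2 p]
  have h1 : MvPolynomial.aeval (fun a => algebraMap K L (t a)) p =
      algebraMap K L (MvPolynomial.aeval t p) := MvPolynomial.aeval_algebraMap_apply L t p
  rw [h1, map_eq_zero]

/-- Special varieties with an abelian fibration over `B × ℙ^M`. -/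
theorem main_tower {m r M N : ℕ} (P : Ideal (MvPolynomial (Fin (m + 1)) ℂ)) [P.IsPrime]
    (hP : IsVariety P) (t : Fin 2 → FunField P) (ht : IsBase t) (d : Fin M → KW (FunField P) r)
    (hd : AlgebraicIndependent ℂ
      (Fin.cons (algebraMap (FunField P) (KW (FunField P) r) (t 0)) d : Fin (M + 1) → _))
    (x : Fin (N + 1) → KW (FunField P) r)
    (h : IsAbelianFibration
      (Fin.append (fun a => algebraMap (FunField P) (KW (FunField P) r) (t a)) d) x)
    (hsec : HasPencilSections (fun a => algebraMap (FunField P) (KW (FunField P) r) (t a)) d x)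
    (hb : PencilBound (FunField P)) : BrodySpecial P := by
  classical
  obtain ⟨T₀, hT₀⟩ := funField_fg P
  obtain ⟨T₁, hT₁⟩ := tw_fg T₀ hT₀ r
  obtain ⟨U, ν, hU, hloc⟩ := tw_base T₀ hT₀ hb t ht r
  set tL : Fin 2 → KW (FunField P) r := fun a => algebraMap (FunField P) (KW (FunField P) r) (t a)
    with htL
  have ht0 : Transcendental ℂ (tL 0) := by
    have h1 := ht.1
    rw [← transcendental_algebraMap_iff (A := KW (FunField P) r)
      (algebraMap (FunField P) (KW (FunField P) r)).injective] at h1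
    exact h1
  have ht1 : tL 1 = 0 ∨ ∃ a b c : ℂ, tL 1 ^ 2 = tL 0 ^ 3 +
      algebraMap ℂ (KW (FunField P) r) a * tL 0 ^ 2 +
      algebraMap ℂ (KW (FunField P) r) b * tL 0 + algebraMap ℂ (KW (FunField P) r) c := by
    obtain ⟨-, h1 | ⟨a, b, c, -, hc⟩⟩ := ht
    · left
      change algebraMap (FunField P) (KW (FunField P) r) (t 1) = 0
      rw [h1, map_zero]
    · right
      refine ⟨a, b, c, ?_⟩
      change algebraMap (FunField P) (KW (FunField P) r) (t 1) ^ 2 =
        algebraMap (FunField P) (KW (FunField P) r) (t 0) ^ 3 + _ *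
        algebraMap (FunField P) (KW (FunField P) r) (t 0) ^ 2 + _ *
        algebraMap (FunField P) (KW (FunField P) r) (t 0) + _
      rw [← map_pow, hc]
      simp only [map_add, map_mul, map_pow, ← IsScalarTower.algebraMap_apply]
  have hUL : IsDenseCurve tL U := tw_dense_ext hU
  have hUm : ∀ a z, MeromorphicAt (fun w => U w a) z := fun a z => by
    obtain ⟨k, hk⟩ := hU.1 z
    exact ⟨k, analyticAt_pi_iff.1 hk a⟩
  obtain ⟨H, hH, hσ⟩ := hsec
  obtain ⟨q, H', hq, hH', hconv⟩ := tw_conv H hH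
  set Zb : Set ℂ := {z | ¬ (AnalyticAt ℂ U z ∧ q.eval (U z 0) ≠ 0)} with hZb
  have hZ : ∀ z, ∀ᶠ w in 𝓝[≠] z, w ∉ Zb := by
    intro z
    filter_upwards [tw_bad tL ht0 U hUL q hq z] with w hw
    exact fun h => h hw
  have hgood : ∀ z, z ∉ Zb → AnalyticAt ℂ U z ∧ q.eval (U z 0) ≠ 0 := fun z hz => not_not.1 hz
  -- local data
  choose D₀ Λ hD₀ hD₀ne hlift using fun z => tw_local T₁ hT₁ tL ht1 d hd x h.ne_zero z U
    (fun a => hUm a z) fun N' q' => tw_germs T₀ hT₀ t U hU z (ν z) (hloc z) q'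
  -- the functions `G`
  choose G hG hGne hG0 hGΛ using fun i : Fin M => tw_jets Zb hZ (fun z w => D₀ z w i)
    (fun z _ => hD₀ z i) (fun z _ => hD₀ne z i) Λ
  obtain ⟨E, hE, hEc, hE0, hEΛ⟩ := tw_factor Zb hZ G hG Λ
  obtain ⟨c, hind, havoid⟩ := tw_avoid tL ht0 U hUL (fun a => hUm a 0) Zbᶜ q hq
    (fun z hz => (hgood z hz).2) E hE hEc hE0 d (tw_indep tL ht1 d hd) G hG hGne
    (fun i z hz => (hG0 i z hz).2) H' hH'
  have hDm : ∀ i z, MeromorphicAt (fun w => G i w * Complex.exp (c i * E w)) z := fun i z =>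
    (hG i z).mul (((hE.const_mul (c i)).cexp.analyticAt z).meromorphicAt)
  have hdense : IsDenseCurve (Fin.append tL d)
      fun z => Fin.append (U z) fun i => G i z * Complex.exp (c i * E z) :=
    tw_dense tL U hUL (fun a => hUm a 0) d (tw_indep tL ht1 d hd)
      (fun z i => G i z * Complex.exp (c i * E z)) hDm (hind fun i => hDm i 0)
  refine brody_of_lifts P hP (IsScalarTower.toAlgHom ℂ (FunField P) (KW (FunField P) r))
    (Fin.append tL d) x h _ hdense fun z => ?_
  by_cases hz : z ∈ Zb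
  · refine hlift z (fun w i => G i w * Complex.exp (c i * E w)) (fun i => hDm i z) fun i => ?_
    have h1 := hGΛ i z hz
    have h2 := hEΛ z hz i (c i)
    have h3 : MeromorphicAt (fun w => G i w - D₀ z w i) z := (hG i z).sub (hD₀ z i)
    have h4 : MeromorphicAt (fun w => G i w * Complex.exp (c i * E w) - G i w) z :=
      (hDm i z).sub (hG i z)
    have h5 : (fun w => G i w * Complex.exp (c i * E w) - D₀ z w i) =
        (fun w => G i w * Complex.exp (c i * E w) - G i w) + fun w => G i w - D₀ z w i := by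
      funext w
      simp
    change (Λ z : WithTop ℤ) ≤ meromorphicOrderAt
      (fun w => G i w * Complex.exp (c i * E w) - D₀ z w i) z
    rw [h5]
    exact (le_min h2 h1).trans (meromorphicOrderAt_add h4 h3)
  · obtain ⟨hUa, hUq⟩ := hgood z hz
    obtain ⟨hh, hh1, hh2⟩ := havoid z hz
    have hb0 : ∀ i, G i z * Complex.exp (c i * E z) ≠ 0 := fun i =>
      mul_ne_zero (hG0 i z hz).2 (Complex.exp_ne_zero _)
    obtain ⟨σ, hσa, hσ1⟩ := hσ (U z) (fun i => G i z * Complex.exp (c i * E z)) hb0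
      (hconv _ _ ⟨hh, hh1, hh2⟩)
    have hFa : AnalyticAt ℂ
        (fun w => (Fin.append (U w) fun i => G i w * Complex.exp (c i * E w) : Fin (2 + M) → ℂ))
        z := by
      rw [analyticAt_pi_iff]
      intro s
      refine Fin.addCases (fun a => ?_) (fun i => ?_) s
      · simp only [Fin.append_left]
        exact analyticAt_pi_iff.1 hUa a
      · simp only [Fin.append_right]
        exact (hG0 i z hz).1.mul ((hE.const_mul (c i)).cexp.analyticAt z)
    refine ⟨fun w => σ (Fin.append (U w) fun i => G i w * Complex.exp (c i * E w)),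
      AnalyticAt.comp (g := σ)
        (f := fun w => Fin.append (U w) fun i => G i w * Complex.exp (c i * E w)) hσa hFa, ?_⟩
    have hrel : Rel z (Fin.append tL d)
        fun w => Fin.append (U w) fun i => G i w * Complex.exp (c i * E w) := by
      intro p hp
      exact (hdense.2 p).1 hp z
    have h1 := (hFa.continuousAt.eventually hσ1).filter_mono
      (nhdsWithin_le_nhds (s := {z}ᶜ))
    filter_upwards [h1, rel_uniform hrel] with w hw1 hw2
    exact hw1 fun p hp => hw2 p hp

/-- Special varieties with an abelian fibration over `B × ℙ^M` have a Zariski dense entire curve. -/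
theorem main_tower_type {m : ℕ} (P : Ideal (MvPolynomial (Fin (m + 1)) ℂ)) [P.IsPrime]
    (hP : IsVariety P) (t : Fin 2 → FunField P) (ht : IsBase t) (h : IsTowerType t)
    (hs : SpecialField (FunField P)) : BrodySpecial P := by
  obtain ⟨r, M, N, d, x, hd, hx, hsec⟩ := h
  exact main_tower P hP t ht d hd x hx hsec
    fun T hT μ h1 h2 => special_bound T hT hs μ h1 h2

end Pool.Agent.AbPencil
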